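import Mathlib

/-!
Module NET (Mathlib only, short): a finite net of the unit disc.

`net M` = grid points `(a + b i)/(2M)`, `|a|, |b| ≤ 2M`, of norm `≤ 1`. For `‖z‖ ≤ 1` round `2M Re z` and
`2M Im z` towards zero (`a = ⌊2M Re z⌋` if `Re z ≥ 0`, else `⌈2M Re z⌉`): then `|Re w| ≤ |Re z|`,
`|Im w| ≤ |Im z|`, so `‖w‖ ≤ ‖z‖ ≤ 1` and `w ∈ net M`; both coordinates differ by at most `1/(2M)`, so
`‖z - w‖ ≤ |Re| + |Im| ≤ 1/M` (`Complex.norm_le_abs_re_add_abs_im`).
-/

set_option autoImplicit false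

open Finset

namespace Pool.H2.TA

open Classical in
/-- finite net of the unit disc -/
noncomputable def net (M : ℕ) : Finset ℂ :=
  (((Finset.Icc (-(2 * M : ℤ)) (2 * M)) ×ˢ (Finset.Icc (-(2 * M : ℤ)) (2 * M))).image
    (fun x : ℤ × ℤ => ((x.1 : ℂ) + (x.2 : ℂ) * Complex.I) / (2 * M))).filter (fun z => ‖z‖ ≤ 1)

lemma net_norm (M : ℕ) (w : ℂ) (hw : w ∈ net M) : ‖w‖ ≤ 1 := by
  unfold net at hw
  exact (mem_filter.1 hw).2

lemma net_zero (M : ℕ) : (0 : ℂ) ∈ net M := by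
  unfold net
  refine mem_filter.2 ⟨mem_image.2 ⟨(0, 0), ?_, by simp⟩, by simp⟩
  simp

/-- rounding towards zero -/
lemma round_zero (x : ℝ) : ∃ a : ℤ, |(a : ℝ)| ≤ |x| ∧ |x - a| ≤ 1 := by
  rcases le_total 0 x with h | h
  · refine ⟨⌊x⌋, ?_, ?_⟩
    · rw [abs_of_nonneg h, abs_of_nonneg (by exact_mod_cast Int.floor_nonneg.2 h)]
      exact Int.floor_le x
    · rw [abs_of_nonneg (by linarith [Int.floor_le x])]
      linarith [Int.lt_floor_add_one x]
  · refine ⟨⌈x⌉, ?_, ?_⟩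
    · rw [abs_of_nonpos h, abs_of_nonpos (by
        have : ⌈x⌉ ≤ 0 := Int.ceil_le.2 (by simpa using h)
        exact_mod_cast this)]
      linarith [Int.le_ceil x]
    · rw [abs_of_nonpos (by linarith [Int.le_ceil x])]
      linarith [Int.ceil_lt_add_one x]

lemma net_near (M : ℕ) (hM : 1 ≤ M) (z : ℂ) (hz : ‖z‖ ≤ 1) : ∃ w ∈ net M, ‖z - w‖ ≤ 1 / M := by
  have hM0 : (0 : ℝ) < M := by exact_mod_cast hM
  obtain ⟨a, ha1, ha2⟩ := round_zero (2 * M * z.re)
  obtain ⟨b, hb1, hb2⟩ := round_zero (2 * M * z.im)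
  have hw : (((a : ℂ) + (b : ℂ) * Complex.I) / (2 * M)) =
      (((a / (2 * M) : ℝ) : ℂ) + ((b / (2 * M) : ℝ) : ℂ) * Complex.I) := by
    push_cast
    ring
  have hre : (((a : ℂ) + (b : ℂ) * Complex.I) / (2 * M)).re = a / (2 * M) := by
    rw [hw, Complex.add_re, Complex.mul_I_re, Complex.ofReal_re, Complex.ofReal_im, neg_zero,
      add_zero]
  have him : (((a : ℂ) + (b : ℂ) * Complex.I) / (2 * M)).im = b / (2 * M) := by
    rw [hw, Complex.add_im, Complex.mul_I_im, Complex.ofReal_im, Complex.ofReal_re, zero_add]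
  have hre' : |(a : ℝ) / (2 * M)| ≤ |z.re| := by
    rw [abs_div, abs_of_pos (by positivity : (0 : ℝ) < 2 * M), div_le_iff₀ (by positivity)]
    rw [abs_mul, abs_of_pos (by positivity : (0 : ℝ) < 2 * M)] at ha1
    linarith
  have him' : |(b : ℝ) / (2 * M)| ≤ |z.im| := by
    rw [abs_div, abs_of_pos (by positivity : (0 : ℝ) < 2 * M), div_le_iff₀ (by positivity)]
    rw [abs_mul, abs_of_pos (by positivity : (0 : ℝ) < 2 * M)] at hb1
    linarith
  have hnorm : ‖((a : ℂ) + (b : ℂ) * Complex.I) / (2 * M)‖ ≤ 1 := by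
    refine le_trans ?_ hz
    rw [Complex.norm_def, Complex.norm_def]
    refine Real.sqrt_le_sqrt ?_
    rw [Complex.normSq_apply, Complex.normSq_apply, hre, him]
    have h1 := sq_le_sq.2 hre'
    have h2 := sq_le_sq.2 him'
    nlinarith
  refine ⟨((a : ℂ) + (b : ℂ) * Complex.I) / (2 * M), ?_, ?_⟩
  · unfold net
    refine mem_filter.2 ⟨mem_image.2 ⟨(a, b), ?_, rfl⟩, hnorm⟩
    have hr : |z.re| ≤ 1 := (Complex.abs_re_le_norm z).trans hz
    have hi : |z.im| ≤ 1 := (Complex.abs_im_le_norm z).trans hz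
    have hA : |(a : ℝ)| ≤ 2 * M := by
      refine ha1.trans ?_
      rw [abs_mul, abs_of_pos (by positivity : (0 : ℝ) < 2 * M)]
      nlinarith
    have hB : |(b : ℝ)| ≤ 2 * M := by
      refine hb1.trans ?_
      rw [abs_mul, abs_of_pos (by positivity : (0 : ℝ) < 2 * M)]
      nlinarith
    have hA' : |a| ≤ 2 * (M : ℤ) := by exact_mod_cast hA
    have hB' : |b| ≤ 2 * (M : ℤ) := by exact_mod_cast hB
    simp only [mem_product, Finset.mem_Icc]
    exact ⟨⟨(abs_le.1 hA').1, (abs_le.1 hA').2⟩, ⟨(abs_le.1 hB').1, (abs_le.1 hB').2⟩⟩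
  · refine (Complex.norm_le_abs_re_add_abs_im _).trans ?_
    rw [Complex.sub_re, Complex.sub_im, hre, him]
    have h1 : |z.re - a / (2 * M)| ≤ 1 / (2 * M) := by
      have : z.re - a / (2 * M) = (2 * M * z.re - a) / (2 * M) := by field_simp
      rw [this, abs_div, abs_of_pos (by positivity : (0 : ℝ) < 2 * M)]
      gcongr
    have h2 : |z.im - b / (2 * M)| ≤ 1 / (2 * M) := by
      have : z.im - b / (2 * M) = (2 * M * z.im - b) / (2 * M) := by field_simp
      rw [this, abs_div, abs_of_pos (by positivity : (0 : ℝ) < 2 * M)]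
      gcongr
    have h3 : (1 : ℝ) / M = 1 / (2 * M) + 1 / (2 * M) := by field_simp; norm_num
    rw [h3]
    exact add_le_add h1 h2

lemma net_card (M : ℕ) : (net M).card ≤ (4 * M + 1) ^ 2 := by
  unfold net
  refine (card_filter_le _ _).trans (card_image_le.trans ?_)
  rw [card_product, Int.card_Icc, sq]
  have : (2 * (M : ℤ) + 1 - -(2 * (M : ℤ))).toNat = 4 * M + 1 := by omega
  rw [this]

instance (M : ℕ) : Nonempty (net M) := ⟨⟨0, net_zero M⟩⟩

end Pool.H2.TA
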