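import Mathlib
import Pool.Agent.H2.SpTwist

/-!
Definitions for the theorem TwoArbitrary (MP_0c9a68_nt): one random multiplicative factor, two
arbitrary ones.

`l = el N = floor(log N) + 1`, `zz l j = l^(20 j)`, `blk Q N j`: the primes `p` of `Q` with
`zz l j < p ≤ zz l (j+1)`, `p^2 ≤ N`. `ro y m`: the part of `m` composed of primes `> y`.
-/

set_option autoImplicit false

open Finset MeasureTheory ProbabilityTheory

namespace Pool.H2.TA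

open Pool.H2.Rand

/-- the sign of a Boolean -/
def sg (b : Bool) : ℂ := if b then 1 else -1

lemma sg_norm (b : Bool) : ‖sg b‖ = 1 := by
  unfold sg
  cases b <;> simp

/-- block boundaries -/
def zz (l j : ℕ) : ℕ := l ^ (20 * j)

open Classical in
/-- the block number `j` of primes in `Q` -/
noncomputable def blk (Q : ℕ → Prop) (N j : ℕ) : Finset ℕ :=
  (Icc 1 N).filter (fun p => p.Prime ∧ Q p ∧ zz (Pool.H2.Sp.el N) j < p ∧
    p ≤ zz (Pool.H2.Sp.el N) (j + 1) ∧ p ^ 2 ≤ N)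

/-- the part of `m` composed of the primes `> y` -/
def ro (y m : ℕ) : ℕ := ∏ p ∈ m.primeFactors.filter (fun p => y < p), p ^ m.factorization p

/-- the part of `m` composed of the primes `≤ y` -/
def smo (y m : ℕ) : ℕ := ∏ p ∈ m.primeFactors.filter (fun p => p ≤ y), p ^ m.factorization p

/-- `m` has a prime factor in `(zz l 1, zz l (j₀ - 1)]` -/
def hasSm (l j₀ m : ℕ) : Prop := ∃ p : ℕ, p.Prime ∧ zz l 1 < p ∧ p ≤ zz l (j₀ - 1) ∧ p ∣ m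

/-- the parameters: positions of the random factor `b0`, of the two arbitrary ones `b1`, `b2`, of the
other random factors `bs` -/
structure Par (σ : Type) where
  Q : ℕ → Prop
  b0 : ℕ
  b1 : ℕ
  b2 : ℕ
  bs : σ → ℕ

/-- admissible positions -/
structure Par.Ok {σ : Type} (P : Par σ) : Prop where
  p0 : 1 ≤ P.b0
  p1 : 1 ≤ P.b1
  p2 : 1 ≤ P.b2
  ps : ∀ s, 1 ≤ P.bs s
  n1 : P.b1 ≠ P.b0
  n2 : P.b2 ≠ P.b0
  ns : ∀ s, P.bs s ≠ P.b0

open Classical in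
/-- the class number `j` of integers `n < N` -/
noncomputable def cls {σ : Type} (P : Par σ) (j₀ N j : ℕ) : Finset ℕ :=
  (range N).filter (fun n =>
    (∀ i, j₀ ≤ i → i < j → ∀ p ∈ blk P.Q N i, ¬ p ∣ n + P.b0) ∧
    (∃ p ∈ blk P.Q N j, p ∣ n + P.b0) ∧
    (∀ p ∈ blk P.Q N j, ∀ p' ∈ blk P.Q N j, p ∣ n + P.b0 → p' ∣ n + P.b0 → p = p') ∧
    (∀ p ∈ blk P.Q N j, ¬ p ^ 2 ∣ n + P.b0) ∧
    (∀ p ∈ blk P.Q N j, ∀ s, ¬ p ∣ n + P.bs s) ∧
    hasSm (Pool.H2.Sp.el N) j₀ (n + P.b1) ∧ hasSm (Pool.H2.Sp.el N) j₀ (n + P.b2))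

lemma mem_blk {Q : ℕ → Prop} {N j p : ℕ} : p ∈ blk Q N j ↔ (1 ≤ p ∧ p ≤ N) ∧ p.Prime ∧ Q p ∧
    zz (Pool.H2.Sp.el N) j < p ∧ p ≤ zz (Pool.H2.Sp.el N) (j + 1) ∧ p ^ 2 ≤ N := by
  simp only [blk, mem_filter, mem_Icc]

lemma mem_cls {σ : Type} {P : Par σ} {j₀ N j n : ℕ} : n ∈ cls P j₀ N j ↔ n < N ∧
    (∀ i, j₀ ≤ i → i < j → ∀ p ∈ blk P.Q N i, ¬ p ∣ n + P.b0) ∧
    (∃ p ∈ blk P.Q N j, p ∣ n + P.b0) ∧
    (∀ p ∈ blk P.Q N j, ∀ p' ∈ blk P.Q N j, p ∣ n + P.b0 → p' ∣ n + P.b0 → p = p') ∧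
    (∀ p ∈ blk P.Q N j, ¬ p ^ 2 ∣ n + P.b0) ∧
    (∀ p ∈ blk P.Q N j, ∀ s, ¬ p ∣ n + P.bs s) ∧
    hasSm (Pool.H2.Sp.el N) j₀ (n + P.b1) ∧ hasSm (Pool.H2.Sp.el N) j₀ (n + P.b2) := by
  simp only [cls, mem_filter, mem_range]

lemma cls_sub {σ : Type} (P : Par σ) (j₀ N j : ℕ) : cls P j₀ N j ⊆ range N := by
  intro n hn
  exact mem_range.2 (mem_cls.1 hn).1

/-- the prime of block `j` dividing `n + b0` -/
noncomputable def qn {σ : Type} (P : Par σ) (N j n : ℕ) : ℕ :=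
  ((blk P.Q N j).filter (fun p => p ∣ n + P.b0)).sup id

/-- the integers `n < N` in no class -/
noncomputable def bad {σ : Type} (P : Par σ) (j₀ N : ℕ) : Finset ℕ :=
  (range N).filter (fun n => ∀ j, j₀ ≤ j → j < Pool.H2.Sp.el N → n ∉ cls P j₀ N j)

section
variable {Ω : Type} [mΩ : MeasurableSpace Ω] {μ : Measure Ω} {ι : Type}

/-- the full summand -/
noncomputable def term {σ : Type} [Fintype σ] (F : ι → Ω → ArithmeticFunction ℂ) (P : Par σ)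
    (i₀ : ι) (c : σ → ι) (u : ℕ → ℂ) (ω : Ω) (g g' : ArithmeticFunction ℂ) (n : ℕ) : ℂ :=
  F i₀ ω (n + P.b0) * u n * (∏ s, F (c s) ω (n + P.bs s)) * g (n + P.b1) * g' (n + P.b2)

/-- the coefficient which does not depend on the primes of block `j` -/
noncomputable def UU {σ : Type} [Fintype σ] (F : ι → Ω → ArithmeticFunction ℂ) (P : Par σ)
    (i₀ : ι) (c : σ → ι) (u : ℕ → ℂ) (N j n : ℕ) (ω : Ω) : ℂ :=
  F i₀ ω ((n + P.b0) / qn P N j n) * u n * ∏ s, F (c s) ω (n + P.bs s)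

end

end Pool.H2.TA
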