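import Mathlib
import Pool.Agent.H2.TA.Def

/-!
Module ROU (short): smooth and rough parts (`smo`, `ro` of Def.lean).

`m = ∏ p ∈ m.primeFactors, p ^ m.factorization p` (`Nat.factorization_prod_pow_eq_self`); split the product
by `p ≤ y` (`Finset.prod_filter_mul_prod_filter_not`). Coprimality: products of powers of distinct primes
(`Nat.Coprime.prod_left/right`, `Nat.coprime_pow_primes`). `ro_le`: `p ∣ m`, `p ≤ y`, so `p` divides
`smo y m` (`p` is one of the factors, exponent `≥ 1`), so `p ≤ smo y m` and `ro * p ≤ ro * smo = m`.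
`mult_smo`: `ArithmeticFunction.IsMultiplicative.map_prod`-type lemma for pairwise coprime factors
(or induction over the finset); `mult_split`: `map_mul_of_coprime`.
-/

set_option autoImplicit false

open Finset

namespace Pool.H2.TA

lemma smo_mul_ro (y m : ℕ) (hm : m ≠ 0) : smo y m * ro y m = m := by
  unfold smo ro
  have h1 : m.primeFactors.filter (fun p => y < p) =
      m.primeFactors.filter (fun p => ¬ p ≤ y) := by
    apply Finset.filter_congr
    intro p _
    exact not_le.symm
  rw [h1, Finset.prod_filter_mul_prod_filter_not]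
  exact Nat.prod_factorization_pow_eq_self hm

lemma smo_ro_coprime (y m : ℕ) : Nat.Coprime (smo y m) (ro y m) := by
  unfold smo ro
  refine Nat.Coprime.prod_left fun p hp => Nat.Coprime.prod_right fun q hq => ?_
  rw [mem_filter] at hp hq
  apply Nat.coprime_pow_primes _ _ (Nat.prime_of_mem_primeFactors hp.1)
    (Nat.prime_of_mem_primeFactors hq.1)
  have := hp.2
  have := hq.2
  omega

lemma ro_pos (y m : ℕ) : 1 ≤ ro y m := by
  unfold ro
  refine Nat.succ_le_of_lt (Finset.prod_pos ?_)
  intro p hp
  rw [mem_filter] at hp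
  exact Nat.pow_pos (Nat.prime_of_mem_primeFactors hp.1).pos

private lemma rou_smo_pos (y m : ℕ) : 1 ≤ smo y m := by
  unfold smo
  refine Nat.succ_le_of_lt (Finset.prod_pos ?_)
  intro p hp
  rw [mem_filter] at hp
  exact Nat.pow_pos (Nat.prime_of_mem_primeFactors hp.1).pos

lemma ro_dvd (y m : ℕ) : ro y m ∣ m := by
  by_cases hm : m = 0
  · rw [hm]
    exact dvd_zero _
  · exact ⟨smo y m, by rw [mul_comm, smo_mul_ro y m hm]⟩

lemma ro_le (y m p : ℕ) (hm : m ≠ 0) (hp : p.Prime) (hpy : p ≤ y) (hpm : p ∣ m) :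
    ro y m * p ≤ m := by
  have h1 : p ∣ smo y m := by
    have h2 : p ∈ m.primeFactors.filter (fun p => p ≤ y) := by
      rw [mem_filter, Nat.mem_primeFactors]
      exact ⟨⟨hp, hpm, hm⟩, hpy⟩
    have h3 : p ^ m.factorization p ∣ smo y m :=
      Finset.dvd_prod_of_mem (fun p => p ^ m.factorization p) h2
    have h4 : m.factorization p ≠ 0 := (hp.factorization_pos_of_dvd hm hpm).ne'
    exact (dvd_pow_self p h4).trans h3
  have h5 : p ≤ smo y m := Nat.le_of_dvd (rou_smo_pos y m) h1
  calc ro y m * p ≤ ro y m * smo y m := Nat.mul_le_mul_left _ h5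
    _ = m := by rw [mul_comm, smo_mul_ro y m hm]

lemma mult_smo (g : ArithmeticFunction ℂ) (hg : g.IsMultiplicative) (y m : ℕ) :
    g (smo y m) = ∏ p ∈ m.primeFactors.filter (fun p => p ≤ y), g (p ^ m.factorization p) := by
  unfold smo
  apply ArithmeticFunction.IsMultiplicative.map_prod (fun p => p ^ m.factorization p) hg
  intro p hp q hq hpq
  rw [mem_coe, mem_filter] at hp hq
  exact Nat.coprime_pow_primes _ _ (Nat.prime_of_mem_primeFactors hp.1)
    (Nat.prime_of_mem_primeFactors hq.1) hpq

lemma mult_split (g : ArithmeticFunction ℂ) (hg : g.IsMultiplicative) (y m : ℕ) (hm : m ≠ 0) :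
    g m = g (smo y m) * g (ro y m) := by
  rw [← hg.map_mul_of_coprime (smo_ro_coprime y m), smo_mul_ro y m hm]

end Pool.H2.TA
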