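import Mathlib
import Pool.Agent.H2.TA.Net
import Pool.Agent.H2.TA.Rou

/-!
Module APPR: approximation of multiplicative functions by functions from a finite set.

`PP y M0`: the prime powers `≤ M0` of primes `≤ y`. `PP_card`: `m = p^v`, `p = m.minFac ≤ y`,
`1 ≤ v ≤ log₂ M0` (`2^v ≤ M0`): inject into `Icc 1 y × Icc 0 (log₂ M0)` by `(minFac m, m.factorization (minFac m))`.
`wv s m = ∏_{p ∣ m, p ≤ y} s(p^(v_p m))`, `ev x` extends a function on `Fin (R+1)`.
`prod_diff`: `‖∏ a - ∏ b‖ ≤ ∑ ‖a - b‖` for factors of norm `≤ 1` (induction on the finset).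
`appr`: for `v ∈ PP y M0` let `s v` be a point of the net at distance `≤ 1/M` from `g v` (`net_near`), and
`x r` one near `g r`, `r ≤ R`. For `1 ≤ m ≤ M0`: `p^(v_p m)` divides `m`, so it is `≤ M0` and in `PP y M0`;
by `mult_smo` and `prod_diff` the error is at most (number of prime factors of `m`)/`M`, and
`2^(number of prime factors) ≤ m` (product of distinct primes), so this number is `≤ log₂ M0`.
-/

set_option autoImplicit false

open Finset

namespace Pool.H2.TA

open Classical in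
/-- prime powers `≤ M0` of primes `≤ y` -/
noncomputable def PP (y M0 : ℕ) : Finset ℕ :=
  (Icc 1 M0).filter (fun m => IsPrimePow m ∧ m.minFac ≤ y)

private lemma mem_PP {y M0 m : ℕ} : m ∈ PP y M0 ↔ (1 ≤ m ∧ m ≤ M0) ∧ IsPrimePow m ∧ m.minFac ≤ y := by
  simp only [PP, mem_filter, mem_Icc]

private lemma pp_form {m : ℕ} (h : IsPrimePow m) : m.minFac ^ m.factorization m.minFac = m :=
  h.minFac_pow_factorization_eq

lemma PP_card (y M0 : ℕ) : (PP y M0).card ≤ y * (Nat.log 2 M0 + 1) := by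
  have h1 : (PP y M0).card ≤ ((Icc 1 y) ×ˢ (range (Nat.log 2 M0 + 1))).card := by
    refine Finset.card_le_card_of_injOn (fun m => (m.minFac, m.factorization m.minFac)) ?_ ?_
    · intro m hm
      have hm' := mem_PP.1 (Finset.mem_coe.1 hm)
      have h2 : 1 ≤ m.minFac := Nat.minFac_pos m
      refine Finset.mem_coe.2 (mem_product.2 ⟨mem_Icc.2 ⟨h2, hm'.2.2⟩, mem_range.2 ?_⟩)
      have hm1 : m ≠ 1 := hm'.2.1.ne_one
      have h3 : 2 ≤ m.minFac := (Nat.minFac_prime hm1).two_le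
      have h4 : 2 ^ m.factorization m.minFac ≤ M0 := by
        calc 2 ^ m.factorization m.minFac ≤ m.minFac ^ m.factorization m.minFac :=
              Nat.pow_le_pow_left h3 _
          _ = m := pp_form hm'.2.1
          _ ≤ M0 := hm'.1.2
      have h5 : m.factorization m.minFac ≤ Nat.log 2 M0 :=
        Nat.le_log_of_pow_le (by norm_num) h4
      exact Nat.lt_succ_of_le h5
    · intro m hm m' hm' he
      have h2 := mem_PP.1 (Finset.mem_coe.1 hm)
      have h3 := mem_PP.1 (Finset.mem_coe.1 hm')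
      have he' : m.minFac = m'.minFac ∧ m.factorization m.minFac = m'.factorization m'.minFac := by
        simpa using he
      rw [← pp_form h2.2.1, ← pp_form h3.2.1, he'.2, he'.1]
  refine h1.trans (le_of_eq ?_)
  rw [card_product, Nat.card_Icc, card_range]
  simp

/-- value at a prime power -/
noncomputable def pv {y M0 M : ℕ} (s : PP y M0 → net M) (m : ℕ) : ℂ :=
  if h : m ∈ PP y M0 then (s ⟨m, h⟩ : ℂ) else 1

/-- value on the smooth part -/
noncomputable def wv {y M0 M : ℕ} (s : PP y M0 → net M) (m : ℕ) : ℂ :=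
  ∏ p ∈ m.primeFactors.filter (fun p => p ≤ y), pv s (p ^ m.factorization p)

/-- value on the rough part -/
noncomputable def ev {R M : ℕ} (x : Fin (R + 1) → net M) (n : ℕ) : ℂ :=
  if h : n < R + 1 then (x ⟨n, h⟩ : ℂ) else 0

private lemma pv_norm {y M0 M : ℕ} (s : PP y M0 → net M) (m : ℕ) : ‖pv s m‖ ≤ 1 := by
  unfold pv
  split_ifs with h
  · exact net_norm M _ (s ⟨m, h⟩).2
  · simp

lemma wv_norm {y M0 M : ℕ} (s : PP y M0 → net M) (m : ℕ) : ‖wv s m‖ ≤ 1 := by
  unfold wv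
  rw [norm_prod]
  exact Finset.prod_le_one (fun i _ => norm_nonneg _) (fun i _ => pv_norm s _)

lemma ev_norm {R M : ℕ} (x : Fin (R + 1) → net M) (n : ℕ) : ‖ev x n‖ ≤ 1 := by
  unfold ev
  split_ifs with h
  · exact net_norm M _ (x ⟨n, h⟩).2
  · simp

lemma prod_diff {α : Type} (T : Finset α) (a b : α → ℂ) (ha : ∀ i ∈ T, ‖a i‖ ≤ 1)
    (hb : ∀ i ∈ T, ‖b i‖ ≤ 1) : ‖∏ i ∈ T, a i - ∏ i ∈ T, b i‖ ≤ ∑ i ∈ T, ‖a i - b i‖ := by
  classical
  induction T using Finset.induction_on with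
  | empty => simp
  | insert i T hi ih =>
    rw [Finset.prod_insert hi, Finset.prod_insert hi, Finset.sum_insert hi]
    have h1 := ih (fun j hj => ha j (mem_insert_of_mem hj)) (fun j hj => hb j (mem_insert_of_mem hj))
    have h2 : ‖∏ j ∈ T, b j‖ ≤ 1 := by
      rw [norm_prod]
      exact Finset.prod_le_one (fun j _ => norm_nonneg _) (fun j hj => hb j (mem_insert_of_mem hj))
    have h3 : a i * ∏ j ∈ T, a j - b i * ∏ j ∈ T, b j
        = a i * (∏ j ∈ T, a j - ∏ j ∈ T, b j) + (a i - b i) * ∏ j ∈ T, b j := by ring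
    rw [h3]
    refine (norm_add_le _ _).trans ?_
    rw [norm_mul, norm_mul]
    have h4 : ‖a i‖ * ‖∏ j ∈ T, a j - ∏ j ∈ T, b j‖ ≤ 1 * ‖∏ j ∈ T, a j - ∏ j ∈ T, b j‖ :=
      mul_le_mul_of_nonneg_right (ha i (mem_insert_self i T)) (norm_nonneg _)
    have h5 : ‖a i - b i‖ * ‖∏ j ∈ T, b j‖ ≤ ‖a i - b i‖ * 1 :=
      mul_le_mul_of_nonneg_left h2 (norm_nonneg _)
    linarith

private lemma card_pf (m M0 : ℕ) (h1 : 1 ≤ m) (hm : m ≤ M0) : m.primeFactors.card ≤ Nat.log 2 M0 := by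
  refine Nat.le_log_of_pow_le (by norm_num) ?_
  calc 2 ^ m.primeFactors.card = ∏ _p ∈ m.primeFactors, 2 := by rw [Finset.prod_const]
    _ ≤ ∏ p ∈ m.primeFactors, p :=
        Finset.prod_le_prod' (fun p hp => (Nat.prime_of_mem_primeFactors hp).two_le)
    _ ≤ m := Nat.le_of_dvd (by omega) (Nat.prod_primeFactors_dvd m)
    _ ≤ M0 := hm

theorem appr (g : ArithmeticFunction ℂ) (hg : g.IsMultiplicative) (hb : ∀ n, ‖g n‖ ≤ 1)
    (y M0 M R : ℕ) (hM : 1 ≤ M) :
    ∃ (s : PP y M0 → net M) (x : Fin (R + 1) → net M),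
      (∀ m, 1 ≤ m → m ≤ M0 → ‖g (smo y m) - wv s m‖ ≤ ((Nat.log 2 M0 : ℕ) : ℝ) / M) ∧
      (∀ r, r ≤ R → ‖g r - ev x r‖ ≤ 1 / M) := by
  have hnear : ∀ n : ℕ, ∃ w : net M, ‖g n - (w : ℂ)‖ ≤ 1 / M := by
    intro n
    obtain ⟨w, hw, h⟩ := net_near M hM (g n) (hb n)
    exact ⟨⟨w, hw⟩, h⟩
  choose w hw using hnear
  refine ⟨fun v => w v, fun r => w r, ?_, ?_⟩
  · intro m h1 hm
    rw [mult_smo g hg]
    unfold wv
    refine (prod_diff _ _ _ (fun i _ => hb _) (fun i _ => pv_norm _ _)).trans ?_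
    have h2 : ∀ p ∈ m.primeFactors.filter (fun p => p ≤ y),
        ‖g (p ^ m.factorization p)
          - pv (fun v : PP y M0 => w v) (p ^ m.factorization p)‖ ≤ 1 / (M : ℝ) := by
      intro p hp
      rw [mem_filter] at hp
      have hpp : p.Prime := Nat.prime_of_mem_primeFactors hp.1
      have hpd : p ∣ m := Nat.dvd_of_mem_primeFactors hp.1
      have hf : m.factorization p ≠ 0 := by
        have := (hpp.dvd_iff_one_le_factorization (by omega)).1 hpd
        omega
      have h3 : p ^ m.factorization p ∈ PP y M0 := by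
        refine mem_PP.2 ⟨⟨Nat.one_le_pow _ _ hpp.pos, ?_⟩, ?_, ?_⟩
        · exact (Nat.le_of_dvd (by omega) (Nat.ordProj_dvd m p)).trans hm
        · exact hpp.isPrimePow.pow hf
        · rw [hpp.pow_minFac hf]
          exact hp.2
      unfold pv
      rw [dif_pos h3]
      exact hw _
    refine (Finset.sum_le_sum h2).trans ?_
    rw [Finset.sum_const, nsmul_eq_mul, mul_one_div]
    refine div_le_div_of_nonneg_right ?_ (Nat.cast_nonneg _)
    have h4 : (m.primeFactors.filter (fun p => p ≤ y)).card ≤ Nat.log 2 M0 :=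
      (Finset.card_filter_le _ _).trans (card_pf m M0 h1 hm)
    exact_mod_cast h4
  · intro r hr
    unfold ev
    rw [dif_pos (Nat.lt_succ_of_le hr)]
    exact hw r

end Pool.H2.TA
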