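import Mathlib
import Pool.Agent.H2.TA.Def
import Pool.Agent.H75.AP.MertensB

/-!
Module MASSW: the mass of all blocks tends to infinity.

`allb Q N j₀` = union of the blocks `j₀ ≤ j < el N` `⊇` primes `p ∈ Q` with `zz l j₀ < p`, `p^2 ≤ N` (`N ≥ 3`,
`l = el N ≥ 2`): let `j` be the largest index with `zz l j < p` (`Nat.findGreatest` or `Nat.find`): then
`p ≤ zz l (j+1)`, `j ≥ j₀`, and `j < l` because `zz l l = l^(20 l) ≥ 2^(20 l) ≥ e^l > N ≥ p`.
By hypothesis `Div Q`: `∑_{log N < p ≤ N, p ∈ Q} 1/p → ∞`. The primes with `log N < p ≤ zz l j₀ = l^(20 j₀)` have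
mass `≤ log log (l^(20 j₀)) - log log (log N) + C ≤ log (20 j₀) + 1 + C` (`mertens_low`, `mertens_upper` of
`Pool/Agent/H75/AP/MertensB.lean`; `l ≤ log N + 1`, `N` large), those with `N < p^2`, `p ≤ N`, mass
`≤ log 2 + C`. (A similar computation: `Pool.H2.Sp.win_tendsto` in SpDiv.lean, where the mass of
`(x, x^4]` is bounded by `Pool.H2.Sp.mertens_pow`; this may be iterated instead of Mertens:
`(l, l^(4^k)]` has mass `≤ 28 k`.)
-/

set_option autoImplicit false

open Finset Filter Topology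

namespace Pool.H2.TA

open Classical in
/-- the union of the blocks -/
noncomputable def allb (Q : ℕ → Prop) (N j₀ : ℕ) : Finset ℕ :=
  (Ico j₀ (Pool.H2.Sp.el N)).biUnion (fun j => blk Q N j)

private lemma recip_union (S T : Finset ℕ) :
    ∑ p ∈ S ∪ T, (1 : ℝ) / p ≤ ∑ p ∈ S, (1 : ℝ) / p + ∑ p ∈ T, (1 : ℝ) / p := by
  have := sum_union_inter (s₁ := S) (s₂ := T) (f := fun p : ℕ => (1 : ℝ) / p)
  have h7 : 0 ≤ ∑ p ∈ S ∩ T, (1 : ℝ) / p := sum_nonneg fun p _ => by positivity
  linarith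

private lemma pow_iter (l : ℕ) (hl : 2 ≤ l) (K : ℕ) :
    ∑ p ∈ (Ioc l (l ^ (4 ^ K))).filter Nat.Prime, (1 : ℝ) / p ≤ 28 * K := by
  induction K with
  | zero => simp
  | succ K ih =>
    have h1 : (Ioc l (l ^ (4 ^ (K + 1)))).filter Nat.Prime ⊆
        (Ioc l (l ^ (4 ^ K))).filter Nat.Prime ∪
        (Ioc (l ^ (4 ^ K)) ((l ^ (4 ^ K)) ^ 4)).filter Nat.Prime := by
      intro p hp
      rw [mem_filter, mem_Ioc] at hp
      rw [mem_union, mem_filter, mem_filter, mem_Ioc, mem_Ioc]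
      rcases Nat.lt_or_ge (l ^ (4 ^ K)) p with h | h
      · right
        refine ⟨⟨h, ?_⟩, hp.2⟩
        rw [← pow_mul, ← pow_succ]
        exact hp.1.2
      · left
        exact ⟨⟨hp.1.1, h⟩, hp.2⟩
    have h2 : 2 ≤ l ^ (4 ^ K) := by
      calc 2 ≤ l := hl
        _ = l ^ 1 := (pow_one l).symm
        _ ≤ l ^ (4 ^ K) := Nat.pow_le_pow_right (by omega) (Nat.one_le_pow _ _ (by norm_num))
    calc _ ≤ _ := sum_le_sum_of_subset_of_nonneg h1 (fun p _ _ => by positivity)
      _ ≤ _ := recip_union _ _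
      _ ≤ 28 * K + 28 := add_le_add ih (Pool.H2.Sp.mertens_pow _ h2)
      _ = _ := by push_cast; ring

private lemma mem_allb_of (Q : ℕ → Prop) (N j₀ p : ℕ) (hl : 2 ≤ Pool.H2.Sp.el N) (hp1 : 1 ≤ p)
    (hpN : p ≤ N) (hpp : p.Prime) (hpQ : Q p) (hp2 : p ^ 2 ≤ N)
    (hlt : zz (Pool.H2.Sp.el N) j₀ < p) : p ∈ allb Q N j₀ := by
  classical
  set l := Pool.H2.Sp.el N with hldef
  have hN0 : 0 < N := by omega
  have hzl : N < zz l l := by
    have h1 : Real.log N < l := Pool.H2.Sp.log_lt_el N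
    have h2 : (N : ℝ) < Real.exp l := by
      rwa [← Real.log_lt_iff_lt_exp (by exact_mod_cast hN0)]
    have h3 : Real.exp l ≤ (3 : ℝ) ^ l := by
      have h4 : Real.exp (l : ℝ) = (Real.exp 1) ^ l := by
        rw [← Real.exp_nat_mul, mul_one]
      rw [h4]
      have h5 := Real.exp_one_lt_d9
      gcongr
      linarith
    have h6 : (3 : ℝ) ^ l ≤ ((zz l l : ℕ) : ℝ) := by
      have h7 : 3 ^ l ≤ zz l l := by
        unfold zz
        calc 3 ^ l ≤ (2 ^ 20) ^ l := Nat.pow_le_pow_left (by norm_num) l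
          _ = 2 ^ (20 * l) := by rw [pow_mul]
          _ ≤ l ^ (20 * l) := Nat.pow_le_pow_left hl _
      exact_mod_cast h7
    exact_mod_cast lt_of_lt_of_le h2 (h3.trans h6)
  have hmono : ∀ i j, i ≤ j → zz l i ≤ zz l j := by
    intro i j hij
    unfold zz
    exact Nat.pow_le_pow_right (by omega) (by omega)
  have hjl : j₀ < l := by
    by_contra hc
    push Not at hc
    have := hmono l j₀ hc
    omega
  set j := Nat.findGreatest (fun j => zz l j < p) l with hj
  have hPj : zz l j < p := Nat.findGreatest_spec (P := fun j => zz l j < p) hjl.le hlt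
  have hj0 : j₀ ≤ j := Nat.le_findGreatest hjl.le hlt
  have hjl2 : j < l := by
    by_contra hc
    push Not at hc
    have := hmono l j hc
    omega
  have hnext : p ≤ zz l (j + 1) := by
    by_contra hc
    push Not at hc
    have h1 : j + 1 ≤ Nat.findGreatest (fun j => zz l j < p) l := Nat.le_findGreatest hjl2 hc
    omega
  unfold allb
  rw [mem_biUnion]
  exact ⟨j, mem_Ico.2 ⟨hj0, hjl2⟩, mem_blk.2 ⟨⟨hp1, hpN⟩, hpp, hpQ, hPj, hnext, hp2⟩⟩

theorem mass_all (Q : ℕ → Prop) (hQ : Pool.H2.Sp.Div Q) (j₀ : ℕ) :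
    Tendsto (fun N : ℕ => ∑ p ∈ allb Q N j₀, 1 / (p : ℝ)) atTop atTop := by
  classical
  set K := 20 * j₀ with hK
  have h1 : ∀ᶠ N : ℕ in atTop, (∑ p ∈ (Icc 1 N).filter (fun p => p.Prime ∧ Q p ∧ Real.log N < p),
      (1 : ℝ) / p) + (- (30 + 28 * K : ℝ)) ≤ ∑ p ∈ allb Q N j₀, (1 : ℝ) / p := by
    filter_upwards [eventually_ge_atTop 3] with N hN
    have hl2 : 2 ≤ Pool.H2.Sp.el N := by
      unfold Pool.H2.Sp.el
      have h3 : (1 : ℝ) ≤ Real.log N := by
        rw [Real.le_log_iff_exp_le (by positivity)]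
        have := Real.exp_one_lt_d9
        have h4 : (3 : ℝ) ≤ N := by exact_mod_cast hN
        linarith
      have : 1 ≤ ⌊Real.log N⌋₊ := Nat.one_le_floor_iff _ |>.2 h3
      omega
    set l := Pool.H2.Sp.el N with hl
    set z := Nat.sqrt N with hz
    have hz1 : 1 ≤ z := by
      rw [hz]; exact Nat.sqrt_pos.2 (by omega)
    have hz2 : N < (z + 1) ^ 2 := by
      have := Nat.lt_succ_sqrt N
      rw [pow_two]; exact this
    have hzz : zz l j₀ ≤ l ^ (4 ^ K) := by
      unfold zz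
      apply Nat.pow_le_pow_right (by omega)
      rw [← hK]
      exact (Nat.lt_pow_self (by norm_num : 1 < 4)).le
    have hsub : (Icc 1 N).filter (fun p => p.Prime ∧ Q p ∧ Real.log N < p)
        ⊆ allb Q N j₀ ∪ (({l} ∪ (Ioc l (l ^ (4 ^ K))).filter Nat.Prime)
          ∪ ({z + 1} ∪ (Ioc (z + 1) ((z + 1) ^ 4)).filter Nat.Prime)) := by
      intro p hp
      rw [mem_filter, mem_Icc] at hp
      obtain ⟨⟨hp1, hpN⟩, hpp, hpQ, hpl⟩ := hp
      have hlp : l ≤ p := by
        have h5 := Nat.floor_lt (Real.log_natCast_nonneg N) |>.2 hpl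
        rw [hl]; unfold Pool.H2.Sp.el; omega
      rw [mem_union, mem_union, mem_union, mem_union, mem_filter, mem_filter, mem_singleton,
        mem_singleton, mem_Ioc, mem_Ioc]
      by_cases h3 : l ^ (4 ^ K) < p
      · by_cases h4 : p ^ 2 ≤ N
        · left
          exact mem_allb_of Q N j₀ p hl2 hp1 hpN hpp hpQ h4 (lt_of_le_of_lt hzz h3)
        · right; right
          push Not at h4
          have h5 : z < p := by
            rw [hz]; exact Nat.sqrt_lt'.2 h4
          rcases Nat.lt_or_ge (z + 1) p with h6 | h6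
          · right
            refine ⟨⟨h6, ?_⟩, hpp⟩
            calc p ≤ N := hpN
              _ ≤ (z + 1) ^ 2 := hz2.le
              _ ≤ (z + 1) ^ 4 := Nat.pow_le_pow_right (by omega) (by norm_num)
          · left; omega
      · right; left
        push Not at h3
        rcases Nat.lt_or_ge l p with h6 | h6
        · right; exact ⟨⟨h6, h3⟩, hpp⟩
        · left; omega
    have hsing : ∀ a : ℕ, 1 ≤ a → ∑ p ∈ ({a} : Finset ℕ), (1 : ℝ) / p ≤ 1 := by
      intro a ha
      rw [sum_singleton]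
      have : (1 : ℝ) ≤ a := by exact_mod_cast ha
      rw [div_le_one (by linarith)]
      exact this
    have e1 := sum_le_sum_of_subset_of_nonneg hsub
      (fun p _ _ => (by positivity : (0 : ℝ) ≤ 1 / (p : ℝ)))
    have e2 := recip_union (allb Q N j₀) (({l} ∪ (Ioc l (l ^ (4 ^ K))).filter Nat.Prime)
          ∪ ({z + 1} ∪ (Ioc (z + 1) ((z + 1) ^ 4)).filter Nat.Prime))
    have e3 := recip_union ({l} ∪ (Ioc l (l ^ (4 ^ K))).filter Nat.Prime)
          ({z + 1} ∪ (Ioc (z + 1) ((z + 1) ^ 4)).filter Nat.Prime)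
    have e4 := recip_union {l} ((Ioc l (l ^ (4 ^ K))).filter Nat.Prime)
    have e5 := recip_union {z + 1} ((Ioc (z + 1) ((z + 1) ^ 4)).filter Nat.Prime)
    have e6 := hsing l (by omega)
    have e7 := hsing (z + 1) (by omega)
    have e8 := pow_iter l hl2 K
    have e9 := Pool.H2.Sp.mertens_pow (z + 1) (by omega)
    linarith
  refine tendsto_atTop_mono' atTop h1 ?_
  exact tendsto_atTop_add_const_right _ _ hQ

end Pool.H2.TA
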