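import Mathlib
import Pool.Agent.H2.TA.MassW

/-!
Module BADA (short): Turan-Kubilius for the union of the blocks.

Use `Pool.H2.Sp.card_none` (SpCount.lean) with `A = 1`, `B = b0`: for a finite set `S` of primes with
`S.card^2 ≤ N` and mass `E ≥ 1`, at most `5 N/E` integers `n < N` have no prime of `S` dividing `1 * n + b0`.
`S = allb P.Q N j₀`: its elements are primes with `p^2 ≤ N` (`mem_blk`), so `S ⊆ Icc 1 (sqrt N)`, `S.card^2 ≤ N`;
`E → ∞` by `mass_all`.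
-/

set_option autoImplicit false

open Finset Filter Topology

namespace Pool.H2.TA

theorem bad_none {σ : Type} (P : Par σ) (hQ : Pool.H2.Sp.Div P.Q) (j₀ : ℕ) (ε : ℝ) (hε : 0 < ε) :
    ∀ᶠ N : ℕ in atTop, (((range N).filter (fun n => ∀ p ∈ allb P.Q N j₀, ¬ p ∣ n + P.b0)).card : ℝ)
      ≤ ε * N := by
  have hT := mass_all P.Q hQ j₀
  filter_upwards [hT.eventually_ge_atTop (max 1 (5 / ε))] with N hN
  have hE : 1 ≤ ∑ p ∈ allb P.Q N j₀, 1 / (p : ℝ) := (le_max_left _ _).trans hN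
  have hE2 : 5 / ε ≤ ∑ p ∈ allb P.Q N j₀, 1 / (p : ℝ) := (le_max_right _ _).trans hN
  have hmem : ∀ p ∈ allb P.Q N j₀, p.Prime ∧ p ^ 2 ≤ N := by
    intro p hp
    rw [allb, mem_biUnion] at hp
    obtain ⟨j, _, hj⟩ := hp
    rw [mem_blk] at hj
    exact ⟨hj.2.1, hj.2.2.2.2.2⟩
  have hcard : (allb P.Q N j₀).card ^ 2 ≤ N := by
    have hsub : allb P.Q N j₀ ⊆ Icc 1 (Nat.sqrt N) := fun p hp =>
      mem_Icc.2 ⟨(hmem p hp).1.one_lt.le, Nat.le_sqrt'.2 (hmem p hp).2⟩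
    have h1 := card_le_card hsub
    rw [Nat.card_Icc, Nat.add_sub_cancel] at h1
    exact (Nat.pow_le_pow_left h1 2).trans (Nat.sqrt_le' N)
  have h := Pool.H2.Sp.card_none 1 P.b0 (allb P.Q N j₀)
    (fun p hp => ⟨(hmem p hp).1, (hmem p hp).1.not_dvd_one⟩) N hcard hE
  simp only [one_mul] at h
  refine h.trans ?_
  have h5 : 5 ≤ ε * ∑ p ∈ allb P.Q N j₀, 1 / (p : ℝ) := by
    rw [div_le_iff₀ hε] at hE2
    linarith
  rw [div_le_iff₀ (by linarith)]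
  have hN0 : (0 : ℝ) ≤ N := Nat.cast_nonneg N
  calc 5 * (N : ℝ) ≤ (ε * ∑ p ∈ allb P.Q N j₀, 1 / (p : ℝ)) * N :=
        mul_le_mul_of_nonneg_right h5 hN0
    _ = ε * N * ∑ p ∈ allb P.Q N j₀, 1 / (p : ℝ) := by ring

end Pool.H2.TA
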