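import Mathlib
import Pool.Agent.H2.TA.Def

/-!
Module CB (short): integers with two prescribed prime divisors.

`card_two`: if `n, n'` both lie in the set then `p ∣ n - n'` and `p' ∣ n - n'`, so `n ≡ n'` modulo `p p'`
(distinct primes); `Pool.H2.Rand.card_le_of_modEq` (RandCount.lean) or
`Nat.count_modEq_card`-like. `card_two_le`: `p^2 ≤ N`, `p'^2 ≤ N` give `p p' ≤ N`, so
`N/(p p') + 1 ≤ 2 N/(p p')` in real numbers. `card_sq`: `#{n < N : p^2 ∣ n + b} ≤ N/p^2 + 1 ≤ 2 N/p^2`.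
-/

set_option autoImplicit false

open Finset

namespace Pool.H2.TA

private lemma modEq_of_dvd {m x y b : ℕ} (hx : m ∣ x + b) (hy : m ∣ y + b) : x ≡ y [MOD m] := by
  have h1 : x + b ≡ y + b [MOD m] :=
    ((Nat.modEq_zero_iff_dvd).2 hx).trans ((Nat.modEq_zero_iff_dvd).2 hy).symm
  exact Nat.ModEq.add_right_cancel' b h1

private lemma real_bound {N m : ℕ} (hm : 0 < m) (h : m ≤ N) {c : ℕ} (hc : c ≤ N / m + 1) :
    (c : ℝ) ≤ 2 * N * (1 / (m : ℝ)) := by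
  have h1 : (c : ℝ) ≤ ((N / m : ℕ) : ℝ) + 1 := by exact_mod_cast hc
  have h2 : ((N / m : ℕ) : ℝ) ≤ (N : ℝ) / m := Nat.cast_div_le
  have hm' : (0 : ℝ) < m := by exact_mod_cast hm
  have h3 : (1 : ℝ) ≤ (N : ℝ) / m := by
    rw [le_div_iff₀ hm', one_mul]
    exact_mod_cast h
  calc (c : ℝ) ≤ (N : ℝ) / m + (N : ℝ) / m := by linarith
    _ = _ := by ring

lemma card_two (N p p' b b' : ℕ) (hp : p.Prime) (hp' : p'.Prime) (hne : p ≠ p') :
    ((range N).filter (fun n => p ∣ n + b ∧ p' ∣ n + b')).card ≤ N / (p * p') + 1 := by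
  apply Pool.H2.Rand.card_le_of_modEq N (p * p') _ (filter_subset _ _)
  intro x hx y hy
  obtain ⟨h1, h2⟩ := (mem_filter.1 hx).2
  obtain ⟨h3, h4⟩ := (mem_filter.1 hy).2
  exact (Nat.modEq_and_modEq_iff_modEq_mul ((Nat.coprime_primes hp hp').2 hne)).1
    ⟨modEq_of_dvd h1 h3, modEq_of_dvd h2 h4⟩

lemma card_two_le (N p p' b b' : ℕ) (hp : p.Prime) (hp' : p'.Prime) (hne : p ≠ p')
    (h1 : p ^ 2 ≤ N) (h2 : p' ^ 2 ≤ N) :
    (((range N).filter (fun n => p ∣ n + b ∧ p' ∣ n + b')).card : ℝ)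
      ≤ 2 * N * ((1 / (p : ℝ)) * (1 / (p' : ℝ))) := by
  have h3 : p * p' ≤ N := by
    rcases le_total p p' with h | h
    · calc p * p' ≤ p' * p' := Nat.mul_le_mul_right _ h
        _ = p' ^ 2 := (sq p').symm
        _ ≤ N := h2
    · calc p * p' ≤ p * p := Nat.mul_le_mul_left _ h
        _ = p ^ 2 := (sq p).symm
        _ ≤ N := h1
  have h4 := real_bound (Nat.mul_pos hp.pos hp'.pos) h3 (card_two N p p' b b' hp hp' hne)
  refine h4.trans (le_of_eq ?_)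
  push_cast
  rw [one_div_mul_one_div]

lemma card_sq (N p b : ℕ) (hp : p.Prime) (h1 : p ^ 2 ≤ N) :
    (((range N).filter (fun n => p ^ 2 ∣ n + b)).card : ℝ) ≤ 2 * N * (1 / (p : ℝ) ^ 2) := by
  have h2 : ((range N).filter (fun n => p ^ 2 ∣ n + b)).card ≤ N / p ^ 2 + 1 := by
    apply Pool.H2.Rand.card_le_of_modEq N (p ^ 2) _ (filter_subset _ _)
    intro x hx y hy
    exact modEq_of_dvd (mem_filter.1 hx).2 (mem_filter.1 hy).2
  have h4 := real_bound (pow_pos hp.pos 2) h1 h2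
  refine h4.trans (le_of_eq ?_)
  push_cast
  rfl

end Pool.H2.TA
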