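import Mathlib
import Pool.Agent.H2.TA.Def

/-!
Module MASSU: the mass of one block is at most `5/j`.

`l = el N ≥ 2`, `j ≥ 1`. Let `a = Nat.log 2 (l^(20 j))`, `b = Nat.log 2 (l^(20 (j+1))) + 1`, so
`2^a ≤ l^(20j)` and `l^(20(j+1)) ≤ 2^b`. The block is contained in the primes of `(2^a, 2^b]`, hence its
mass is `≤ ∑_{a ≤ k < b} 4/k` (`Pool.H2.Ell.sum_dyadic_range`, EllMert.lean) `≤ 4 (b-a)/a`. With the real number
`L = log l/log 2 ≥ 1`: `a ≥ 20 j L - 1 ≥ 19 j L` and `b - a ≤ 20 (j+1) L + 1 - (20 j L - 1) = 20 L + 2 ≤ 22 L`, so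
the mass is `≤ 4 * 22 L/(19 j L) ≤ 5/j`. (`Nat.log` and the real logarithm: `Real.natLog_le_logb`,
`Nat.lt_pow_succ_log_self`, `Nat.pow_log_le_self`.)
`mass_sq`: `∑_{j₀ ≤ j < J} (5/j)^2 ≤ 50/j₀` for `j₀ ≥ 1` (`sum_Ico_inv_sq`-type: `∑_{j ≥ j₀} 1/j^2 ≤ 2/j₀`).
-/

set_option autoImplicit false

open Finset

namespace Pool.H2.TA

theorem mass_blk (Q : ℕ → Prop) (N j : ℕ) (hl : 2 ≤ Pool.H2.Sp.el N) (hj : 1 ≤ j) :
    ∑ p ∈ blk Q N j, 1 / (p : ℝ) ≤ 5 / j := by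
  obtain ⟨l, hl0⟩ : ∃ l, l = Pool.H2.Sp.el N := ⟨_, rfl⟩
  rw [← hl0] at hl
  have hlpos : 0 < l := by omega
  obtain ⟨a, ha⟩ : ∃ a, a = Nat.log 2 (l ^ (20 * j)) := ⟨_, rfl⟩
  obtain ⟨c, hc⟩ : ∃ c, c = Nat.log 2 (l ^ (20 * (j + 1))) := ⟨_, rfl⟩
  have ha1 : 2 ^ a ≤ l ^ (20 * j) := by
    rw [ha]
    exact Nat.pow_log_le_self 2 (pow_pos hlpos _).ne'
  have ha2 : l ^ (20 * j) < 2 ^ (a + 1) := by
    rw [ha]
    exact Nat.lt_pow_succ_log_self (by norm_num) _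
  have hc1 : 2 ^ c ≤ l ^ (20 * (j + 1)) := by
    rw [hc]
    exact Nat.pow_log_le_self 2 (pow_pos hlpos _).ne'
  have hc2 : l ^ (20 * (j + 1)) < 2 ^ (c + 1) := by
    rw [hc]
    exact Nat.lt_pow_succ_log_self (by norm_num) _
  have hac : a ≤ c := by
    rw [ha, hc]
    exact Nat.log_mono_right (Nat.pow_le_pow_right hlpos (by omega))
  have ha20 : 20 ≤ a := by
    have h1 : 2 ^ 20 ≤ l ^ (20 * j) := by
      calc 2 ^ 20 ≤ 2 ^ (20 * j) := Nat.pow_le_pow_right (by norm_num) (by omega)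
        _ ≤ l ^ (20 * j) := Nat.pow_le_pow_left hl _
    have h2 : 2 ^ 20 < 2 ^ (a + 1) := h1.trans_lt ha2
    have h3 := (Nat.pow_lt_pow_iff_right (by norm_num : 1 < 2)).1 h2
    omega
  have hsub : blk Q N j ⊆ (Ioc (2 ^ a) (2 ^ (c + 1))).filter Nat.Prime := by
    intro p hp
    rw [mem_blk] at hp
    obtain ⟨_, hpp, _, h1, h2, _⟩ := hp
    rw [← hl0] at h1 h2
    unfold zz at h1 h2
    rw [mem_filter, mem_Ioc]
    exact ⟨⟨ha1.trans_lt h1, h2.trans hc2.le⟩, hpp⟩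
  have hsum : ∑ p ∈ blk Q N j, 1 / (p : ℝ) ≤ ∑ k ∈ Ico a (c + 1), (4 : ℝ) / k := by
    refine le_trans (Finset.sum_le_sum_of_subset_of_nonneg hsub fun p _ _ => by positivity) ?_
    exact Pool.H2.Ell.sum_dyadic_range a (c + 1) (by omega) (by omega)
  have haR : (0 : ℝ) < a := by exact_mod_cast (by omega : 0 < a)
  have hsum2 : ∑ k ∈ Ico a (c + 1), (4 : ℝ) / k ≤ ((c : ℝ) + 1 - a) * (4 / a) := by
    have h1 : ∀ k ∈ Ico a (c + 1), (4 : ℝ) / k ≤ 4 / a := by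
      intro k hk
      rw [mem_Ico] at hk
      have : (a : ℝ) ≤ k := by exact_mod_cast hk.1
      gcongr
    refine (Finset.sum_le_sum h1).trans ?_
    rw [Finset.sum_const, Nat.card_Ico, nsmul_eq_mul, Nat.cast_sub (by omega)]
    push_cast
    exact le_rfl
  -- real logarithms
  have hlog2 : 0 < Real.log 2 := Real.log_pos (by norm_num)
  have hL : Real.log 2 ≤ Real.log l := Real.log_le_log (by norm_num) (by exact_mod_cast hl)
  obtain ⟨L, hLd⟩ : ∃ L, L = Real.log l / Real.log 2 := ⟨_, rfl⟩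
  have hL1 : 1 ≤ L := by
    rw [hLd, le_div_iff₀ hlog2, one_mul]
    exact hL
  have hLl : Real.log l = L * Real.log 2 := by
    rw [hLd, div_mul_cancel₀ _ hlog2.ne']
  have hlR : (0 : ℝ) < l := by exact_mod_cast hlpos
  have h1 : 20 * (j : ℝ) * L ≤ (a : ℝ) + 1 := by
    have h2 : Real.log ((l : ℝ) ^ (20 * j)) ≤ Real.log ((2 : ℝ) ^ (a + 1)) := by
      apply Real.log_le_log (by positivity)
      exact_mod_cast ha2.le
    rw [Real.log_pow, Real.log_pow, hLl] at h2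
    push_cast at h2
    have h3 : (20 * (j : ℝ) * L) * Real.log 2 ≤ ((a : ℝ) + 1) * Real.log 2 := by linarith
    exact le_of_mul_le_mul_right h3 hlog2
  have h2 : (c : ℝ) ≤ 20 * ((j : ℝ) + 1) * L := by
    have h2 : Real.log ((2 : ℝ) ^ c) ≤ Real.log ((l : ℝ) ^ (20 * (j + 1))) := by
      apply Real.log_le_log (by positivity)
      exact_mod_cast hc1
    rw [Real.log_pow, Real.log_pow, hLl] at h2
    push_cast at h2
    have h3 : (c : ℝ) * Real.log 2 ≤ (20 * ((j : ℝ) + 1) * L) * Real.log 2 := by linarith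
    exact le_of_mul_le_mul_right h3 hlog2
  have hjR : (1 : ℝ) ≤ j := by exact_mod_cast hj
  have h3 : 19 * (j : ℝ) * L ≤ a := by nlinarith
  have h4 : (c : ℝ) + 1 - a ≤ 22 * L := by nlinarith
  have hjL : 0 < 19 * (j : ℝ) * L := by positivity
  calc ∑ p ∈ blk Q N j, 1 / (p : ℝ) ≤ ((c : ℝ) + 1 - a) * (4 / a) := hsum.trans hsum2
    _ ≤ (22 * L) * (4 / a) := by gcongr
    _ ≤ (22 * L) * (4 / (19 * (j : ℝ) * L)) := by gcongr
    _ = (88 / 19) / j := by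
        field_simp
        ring
    _ ≤ 5 / j := by
        gcongr
        norm_num

lemma mass_sq (j₀ J : ℕ) (hj : 1 ≤ j₀) : (∑ j ∈ Ico j₀ J, ((5 : ℝ) / (j : ℝ)) ^ 2 : ℝ) ≤ 50 / (j₀ : ℝ) := by
  have h1 := sum_Ioo_inv_sq_le (α := ℝ) (j₀ - 1) J
  have h2 : Ioo (j₀ - 1) J = Ico j₀ J := by
    ext k
    rw [mem_Ioo, mem_Ico]
    omega
  rw [h2, Nat.cast_sub hj, Nat.cast_one, sub_add_cancel] at h1
  have h3 : ∀ k ∈ Ico j₀ J, ((5 : ℝ) / (k : ℝ)) ^ 2 = 25 * ((k : ℝ) ^ 2)⁻¹ := by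
    intro k _
    rw [div_pow, div_eq_mul_inv]
    norm_num
  rw [Finset.sum_congr rfl h3, ← Finset.mul_sum]
  calc 25 * ∑ k ∈ Ico j₀ J, ((k : ℝ) ^ 2)⁻¹ ≤ 25 * (2 / (j₀ : ℝ)) := by
        gcongr
    _ = 50 / (j₀ : ℝ) := by ring

end Pool.H2.TA
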