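import Mathlib
import Pool.Agent.H2.TA.CB
import Pool.Agent.H2.TA.MassU

/-!
Module BADB (short): two primes of the same block.

For positions `b, b'`: the integers `n < N` for which some block `j`, `j₀ ≤ j < el N`, contains two
distinct primes `p ∣ n + b`, `p' ∣ n + b'`: union bound over `j` and over `p ≠ p'` in the block
(`card_biUnion_le`), `card_two_le`, so the number is `≤ ∑_j 2N (∑_{p ∈ blk j} 1/p)^2 ≤ 2N ∑_j (5/j)^2 ≤ 100 N/j₀`
(`mass_blk`, `mass_sq`).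
-/

set_option autoImplicit false

open Finset Filter Topology

namespace Pool.H2.TA

open Classical in
theorem pairs (Q : ℕ → Prop) (b b' N j₀ : ℕ) (hl : 2 ≤ Pool.H2.Sp.el N) (hj : 1 ≤ j₀) :
    (((range N).filter (fun n => ∃ j, j₀ ≤ j ∧ j < Pool.H2.Sp.el N ∧ ∃ p ∈ blk Q N j,
      ∃ p' ∈ blk Q N j, p ≠ p' ∧ p ∣ n + b ∧ p' ∣ n + b')).card : ℝ) ≤ 100 * N / j₀ := by
  set L := Pool.H2.Sp.el N
  have hsub : (range N).filter (fun n => ∃ j, j₀ ≤ j ∧ j < L ∧ ∃ p ∈ blk Q N j,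
      ∃ p' ∈ blk Q N j, p ≠ p' ∧ p ∣ n + b ∧ p' ∣ n + b') ⊆
      (Ico j₀ L).biUnion (fun j => ((blk Q N j ×ˢ blk Q N j).filter (fun x => x.1 ≠ x.2)).biUnion
        (fun x => (range N).filter (fun n => x.1 ∣ n + b ∧ x.2 ∣ n + b'))) := by
    intro n hn
    obtain ⟨hnN, j, h1, h2, p, hp, p', hp', hne, hd, hd'⟩ := mem_filter.1 hn
    exact mem_biUnion.2 ⟨j, mem_Ico.2 ⟨h1, h2⟩, mem_biUnion.2 ⟨(p, p'),
      mem_filter.2 ⟨mem_product.2 ⟨hp, hp'⟩, hne⟩, mem_filter.2 ⟨hnN, hd, hd'⟩⟩⟩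
  have h1 := card_le_card hsub
  have h2 : ((Ico j₀ L).biUnion (fun j => ((blk Q N j ×ˢ blk Q N j).filter
      (fun x => x.1 ≠ x.2)).biUnion
        (fun x => (range N).filter (fun n => x.1 ∣ n + b ∧ x.2 ∣ n + b')))).card ≤
      ∑ j ∈ Ico j₀ L, ∑ x ∈ (blk Q N j ×ˢ blk Q N j).filter (fun x => x.1 ≠ x.2),
        ((range N).filter (fun n => x.1 ∣ n + b ∧ x.2 ∣ n + b')).card :=
    card_biUnion_le.trans (sum_le_sum fun j _ => card_biUnion_le)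
  have h3 := Nat.cast_le (α := ℝ).2 (h1.trans h2)
  refine h3.trans ?_
  push_cast
  calc ∑ j ∈ Ico j₀ L, ∑ x ∈ (blk Q N j ×ˢ blk Q N j).filter (fun x => x.1 ≠ x.2),
        (((range N).filter (fun n => x.1 ∣ n + b ∧ x.2 ∣ n + b')).card : ℝ)
      ≤ ∑ j ∈ Ico j₀ L, ∑ x ∈ (blk Q N j ×ˢ blk Q N j).filter (fun x => x.1 ≠ x.2),
        2 * N * ((1 / (x.1 : ℝ)) * (1 / (x.2 : ℝ))) := by
        refine sum_le_sum fun j _ => sum_le_sum fun x hx => ?_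
        obtain ⟨hx1, hne⟩ := mem_filter.1 hx
        obtain ⟨hp, hp'⟩ := mem_product.1 hx1
        have hp := mem_blk.1 hp
        have hp' := mem_blk.1 hp'
        exact card_two_le N x.1 x.2 b b' hp.2.1 hp'.2.1 hne hp.2.2.2.2.2 hp'.2.2.2.2.2
    _ ≤ ∑ j ∈ Ico j₀ L, ∑ x ∈ blk Q N j ×ˢ blk Q N j,
        2 * N * ((1 / (x.1 : ℝ)) * (1 / (x.2 : ℝ))) := by
        refine sum_le_sum fun j _ => sum_le_sum_of_subset_of_nonneg (filter_subset _ _) ?_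
        intro x _ _
        positivity
    _ = ∑ j ∈ Ico j₀ L, 2 * N * (∑ p ∈ blk Q N j, 1 / (p : ℝ)) ^ 2 := by
        refine sum_congr rfl fun j _ => ?_
        rw [← mul_sum, sq, sum_mul_sum, sum_product]
    _ ≤ ∑ j ∈ Ico j₀ L, 2 * N * ((5 : ℝ) / (j : ℝ)) ^ 2 := by
        refine sum_le_sum fun j hjm => ?_
        have hj1 : 1 ≤ j := hj.trans (mem_Ico.1 hjm).1
        have h := mass_blk Q N j hl hj1
        have h0 : 0 ≤ ∑ p ∈ blk Q N j, 1 / (p : ℝ) := sum_nonneg fun p _ => by positivity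
        gcongr
    _ = 2 * N * ∑ j ∈ Ico j₀ L, ((5 : ℝ) / (j : ℝ)) ^ 2 := by rw [mul_sum]
    _ ≤ 2 * N * (50 / (j₀ : ℝ)) := by
        have := mass_sq j₀ L hj
        gcongr
    _ = 100 * N / j₀ := by ring

end Pool.H2.TA
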