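import Mathlib
import Pool.Agent.H2.TA.CB

/-!
Module BADQ (short): squares of primes of the blocks.

The integers `n < N` with `p^2 ∣ n + b` for some `p` in a block `j ≥ j₀ ≥ 1`: such `p` are distinct integers
with `l < p` (`l = el N`, `zz l j ≥ l`), `p^2 ≤ N`; union bound and `card_sq`: the number is
`≤ ∑_{l < p ≤ N} 2N/p^2 ≤ 4N/l` (`sum_Ioo_inv_sq_le`), which is `≤ ε N` for large `N` (`el N → ∞`,
`Pool.H2.Sp.log_lt_el`).
-/

set_option autoImplicit false

open Finset Filter Topology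

namespace Pool.H2.TA

lemma lt_zz (l j : ℕ) (hl : 1 ≤ l) (hj : 1 ≤ j) : l ≤ zz l j := by
  unfold zz
  calc l = l ^ 1 := (pow_one l).symm
    _ ≤ l ^ (20 * j) := Nat.pow_le_pow_right hl (by omega)

open Classical in
theorem squares (Q : ℕ → Prop) (b j₀ : ℕ) (hj : 1 ≤ j₀) (ε : ℝ) (hε : 0 < ε) :
    ∀ᶠ N : ℕ in atTop, (((range N).filter (fun n => ∃ j, j₀ ≤ j ∧ j < Pool.H2.Sp.el N ∧
      ∃ p ∈ blk Q N j, p ^ 2 ∣ n + b)).card : ℝ) ≤ ε * N := by
  have hlog : Tendsto (fun N : ℕ => Real.log (N : ℝ)) atTop atTop :=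
    Real.tendsto_log_atTop.comp tendsto_natCast_atTop_atTop
  filter_upwards [hlog.eventually_ge_atTop (4 / ε), hlog.eventually_ge_atTop 1,
    eventually_ge_atTop 3] with N h4 h1 h3
  set l := Pool.H2.Sp.el N with hl
  have hll : Real.log N < l := Pool.H2.Sp.log_lt_el N
  have hl1 : 1 ≤ l := by
    have : (0 : ℝ) < l := by linarith
    exact_mod_cast this
  have hsub : (range N).filter (fun n => ∃ j, j₀ ≤ j ∧ j < l ∧
      ∃ p ∈ blk Q N j, p ^ 2 ∣ n + b) ⊆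
      ((Ioo l (N + 1)).filter (fun p => p.Prime ∧ p ^ 2 ≤ N)).biUnion (fun p =>
        (range N).filter (fun n => p ^ 2 ∣ n + b)) := by
    intro n hn
    obtain ⟨hnN, j, hj1, hj2, p, hp, hd⟩ := mem_filter.1 hn
    have hp' := mem_blk.1 hp
    refine mem_biUnion.2 ⟨p, mem_filter.2 ⟨mem_Ioo.2 ⟨?_, Nat.lt_succ_of_le hp'.1.2⟩,
      hp'.2.1, hp'.2.2.2.2.2⟩, mem_filter.2 ⟨hnN, hd⟩⟩
    exact lt_of_le_of_lt (lt_zz l j hl1 (hj.trans hj1)) hp'.2.2.2.1
  have h5 := Nat.cast_le (α := ℝ).2 ((card_le_card hsub).trans card_biUnion_le)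
  refine h5.trans ?_
  push_cast
  calc ∑ p ∈ (Ioo l (N + 1)).filter (fun p => p.Prime ∧ p ^ 2 ≤ N),
        (((range N).filter (fun n => p ^ 2 ∣ n + b)).card : ℝ)
      ≤ ∑ p ∈ (Ioo l (N + 1)).filter (fun p => p.Prime ∧ p ^ 2 ≤ N),
        2 * N * (1 / (p : ℝ) ^ 2) := by
        refine sum_le_sum fun p hp => ?_
        have hp' := (mem_filter.1 hp).2
        exact card_sq N p b hp'.1 hp'.2
    _ ≤ ∑ p ∈ Ioo l (N + 1), 2 * N * (1 / (p : ℝ) ^ 2) := by
        refine sum_le_sum_of_subset_of_nonneg (filter_subset _ _) ?_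
        intro x _ _
        positivity
    _ = 2 * N * ∑ p ∈ Ioo l (N + 1), ((p : ℝ) ^ 2)⁻¹ := by
        rw [mul_sum]
        refine sum_congr rfl fun p _ => ?_
        rw [one_div]
    _ ≤ 2 * N * (2 / (l + 1)) := by
        have := sum_Ioo_inv_sq_le (α := ℝ) l (N + 1)
        gcongr
    _ ≤ ε * N := by
        have hl0 : (0 : ℝ) < (l : ℝ) + 1 := by positivity
        have h6 : 4 / ε < l := lt_of_le_of_lt h4 hll
        rw [div_lt_iff₀ hε] at h6
        have h7 : (2 : ℝ) / (l + 1) ≤ ε / 2 := by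
          rw [div_le_div_iff₀ hl0 (by norm_num)]
          nlinarith
        have h8 : (0 : ℝ) ≤ N := by positivity
        nlinarith

end Pool.H2.TA
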