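import Mathlib
import Pool.Agent.H2.TA.Def
import Pool.Agent.H75.AP.MertensB

/-!
Module MASSL: the primes in `(zz l 1, zz l (j₀-1)]` have large mass when `j₀` is large.

From `mertens_low` and `mertens_upper` (`Pool/Agent/H75/AP/MertensB.lean`, constants `C`, `C'`):
`∑_{u < p ≤ v} 1/p ≥ log log v - log log u - C - C'` for `3 ≤ u ≤ v`. With `u = l^20`, `v = l^(20(j₀-1))` (`l ≥ 2`):
`log log v - log log u = log (j₀ - 1)`. Choose `J` with `log (J-1) ≥ A + C + C'`.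
`PI u v` there is the finset of primes in `(u, v]` (see its definition and `mem_PI`).
-/

set_option autoImplicit false

open Finset Filter Topology

namespace Pool.H2.TA

open Pool.Agent.H75.AP in
private theorem massl_mem (n p : ℕ) : p ∈ PI 0 (n : ℝ) ↔ p ≤ n ∧ p.Prime := by
  rw [PI, mem_filter, mem_range, Nat.floor_natCast]
  constructor
  · rintro ⟨h1, h2, _⟩
    exact ⟨by omega, h2⟩
  · rintro ⟨h1, h2⟩
    exact ⟨by omega, h2, by exact_mod_cast h2.pos⟩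

theorem mass_low (A : ℝ) : ∃ J : ℕ, 3 ≤ J ∧ ∀ j₀ : ℕ, J ≤ j₀ → ∀ l : ℕ, 2 ≤ l →
    A ≤ ∑ p ∈ (Ioc (zz l 1) (zz l (j₀ - 1))).filter Nat.Prime, 1 / (p : ℝ) := by
  obtain ⟨C, _, hlow⟩ := Pool.Agent.H75.AP.mertens_low
  obtain ⟨C', _, hup⟩ := Pool.Agent.H75.AP.mertens_upper
  refine ⟨⌈Real.exp (A + C + C')⌉₊ + 3, by omega, fun j₀ hj₀ l hl => ?_⟩
  have hl1 : 1 ≤ l := by omega
  have hu : zz l 1 ≤ zz l (j₀ - 1) := by
    unfold zz
    exact Nat.pow_le_pow_right hl1 (by omega)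
  have hu3 : 3 ≤ zz l 1 := by
    unfold zz
    calc 3 ≤ 2 ^ (20 * 1) := by norm_num
      _ ≤ l ^ (20 * 1) := Nat.pow_le_pow_left hl _
  have hsplit : ∑ p ∈ Pool.Agent.H75.AP.PI 0 (zz l (j₀ - 1) : ℝ), 1 / (p : ℝ) =
      ∑ p ∈ (Ioc (zz l 1) (zz l (j₀ - 1))).filter Nat.Prime, 1 / (p : ℝ) +
        ∑ p ∈ Pool.Agent.H75.AP.PI 0 (zz l 1 : ℝ), 1 / (p : ℝ) := by
    have h1 : Pool.Agent.H75.AP.PI 0 (zz l 1 : ℝ) ⊆
        Pool.Agent.H75.AP.PI 0 (zz l (j₀ - 1) : ℝ) := by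
      intro p hp
      rw [massl_mem] at hp ⊢
      exact ⟨hp.1.trans hu, hp.2⟩
    rw [← Finset.sum_sdiff h1]
    congr 2
    ext p
    rw [Finset.mem_sdiff, massl_mem, massl_mem, mem_filter, mem_Ioc]
    constructor
    · rintro ⟨⟨h2, h3⟩, h4⟩
      refine ⟨⟨?_, h2⟩, h3⟩
      by_contra h5
      exact h4 ⟨by omega, h3⟩
    · rintro ⟨⟨h2, h3⟩, h4⟩
      exact ⟨⟨h3, h4⟩, fun h5 => by omega⟩
  have h1 := hlow (zz l (j₀ - 1) : ℝ) (by exact_mod_cast hu3.trans hu)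
  have h2 := hup (zz l 1 : ℝ) (by exact_mod_cast hu3)
  have hlog : 0 < Real.log l := Real.log_pos (by exact_mod_cast (by omega : 1 < l))
  have hj : (0 : ℝ) < ((j₀ - 1 : ℕ) : ℝ) := by
    exact_mod_cast (by omega : 0 < j₀ - 1)
  have h3 : Real.log (Real.log (zz l (j₀ - 1) : ℝ)) = Real.log ((j₀ - 1 : ℕ) : ℝ) +
      Real.log (20 * Real.log l) := by
    unfold zz
    push_cast
    rw [Real.log_pow, ← Real.log_mul hj.ne' (by positivity)]
    congr 1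
    push_cast
    ring
  have h4 : Real.log (Real.log (zz l 1 : ℝ)) = Real.log (20 * Real.log l) := by
    unfold zz
    push_cast
    rw [Real.log_pow]
    norm_num
  have h5 : A + C + C' ≤ Real.log ((j₀ - 1 : ℕ) : ℝ) := by
    rw [Real.le_log_iff_exp_le hj]
    refine (Nat.le_ceil _).trans ?_
    exact_mod_cast (by omega : ⌈Real.exp (A + C + C')⌉₊ ≤ j₀ - 1)
  rw [h3] at h1
  rw [h4] at h2
  rw [hsplit] at h1
  linarith

end Pool.H2.TA
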