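import Mathlib
import Pool.Agent.H2.TA.MassL

/-!
Module BADS (short): Turan-Kubilius for the primes of `(zz l 1, zz l (j₀-1)]`, `l = el N`.

Use `Pool.H2.Sp.card_none` (SpCount.lean) with `A = 1`, `B = b`: for a finite set `S` of primes with
`S.card^2 ≤ N` and mass `E ≥ 1`, at most `5 N/E` integers `n < N` have no prime of `S` dividing `1 * n + b`.
`S` = primes of `(zz l 1, zz l (j₀-1)]`, `E ≥ A` by `mass_low` for `j₀ ≥ J`, with `A = max 1 (5/ε)`;
`S.card ≤ zz l (j₀-1) = l^(20(j₀-1))`, whose square is `≤ N` for large `N` (`j₀` fixed; `el_le`,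
`(log N + 1)^m = o(N)`). `¬ hasSm l j₀ m` says that no prime of `S` divides `m`.
-/

set_option autoImplicit false

open Finset Filter Topology

namespace Pool.H2.TA

open Classical in
theorem bad_sm (ε : ℝ) (hε : 0 < ε) : ∃ J : ℕ, 3 ≤ J ∧ ∀ j₀ : ℕ, J ≤ j₀ → ∀ b : ℕ,
    ∀ᶠ N : ℕ in atTop,
      (((range N).filter (fun n => ¬ hasSm (Pool.H2.Sp.el N) j₀ (n + b))).card : ℝ) ≤ ε * N := by
  obtain ⟨J, hJ3, hJ⟩ := mass_low (max 1 (5 / ε))
  refine ⟨J, hJ3, fun j₀ hj b => ?_⟩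
  have hlog : Tendsto (fun N : ℕ => Real.log N) atTop atTop :=
    Real.tendsto_log_atTop.comp tendsto_natCast_atTop_atTop
  obtain ⟨M, hM⟩ : ∃ M : ℕ, M = 20 * (j₀ - 1) * 2 := ⟨_, rfl⟩
  have hlo : ∀ᶠ N : ℕ in atTop, Real.log N ^ M ≤ 1 / 2 ^ M * N := by
    have h1 := (Real.isLittleO_pow_log_id_atTop (n := M)).bound
      (show (0 : ℝ) < 1 / 2 ^ M by positivity)
    have h2 := tendsto_natCast_atTop_atTop.eventually h1
    filter_upwards [h2] with N hN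
    rw [id, Real.norm_eq_abs, Real.norm_eq_abs, Nat.abs_cast] at hN
    exact (le_abs_self _).trans hN
  filter_upwards [hlog.eventually_ge_atTop 2, hlo] with N hN1 hN2
  have hel : 2 ≤ Pool.H2.Sp.el N := by
    have h1 := Pool.H2.Sp.log_lt_el N
    have h2 : (2 : ℝ) < Pool.H2.Sp.el N := by linarith
    exact_mod_cast h2.le
  have hz : zz (Pool.H2.Sp.el N) (j₀ - 1) ^ 2 ≤ N := by
    have h1 : (Pool.H2.Sp.el N : ℝ) ≤ 2 * Real.log N := by
      have := Pool.H2.Sp.el_le N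
      linarith
    have h2 : ((zz (Pool.H2.Sp.el N) (j₀ - 1) ^ 2 : ℕ) : ℝ) ≤ N := by
      unfold zz
      rw [← pow_mul, ← hM]
      push_cast
      calc (Pool.H2.Sp.el N : ℝ) ^ M ≤ (2 * Real.log N) ^ M := by gcongr
        _ = 2 ^ M * Real.log N ^ M := mul_pow _ _ _
        _ ≤ 2 ^ M * (1 / 2 ^ M * N) := by gcongr
        _ = N := by field_simp
    exact_mod_cast h2
  obtain ⟨S, hSd⟩ : ∃ S : Finset ℕ, S = (Ioc (zz (Pool.H2.Sp.el N) 1)
      (zz (Pool.H2.Sp.el N) (j₀ - 1))).filter Nat.Prime := ⟨_, rfl⟩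
  have hS : ∀ p ∈ S, p.Prime ∧ ¬ p ∣ 1 := by
    intro p hp
    rw [hSd] at hp
    have h1 := (mem_filter.1 hp).2
    exact ⟨h1, h1.not_dvd_one⟩
  have hmass := hJ j₀ hj _ hel
  rw [← hSd] at hmass
  have hE1 : 1 ≤ ∑ p ∈ S, (1 : ℝ) / p := (le_max_left _ _).trans hmass
  have hE2 : 5 / ε ≤ ∑ p ∈ S, (1 : ℝ) / p := (le_max_right _ _).trans hmass
  have hcard : S.card ^ 2 ≤ N := by
    have h1 : S.card ≤ zz (Pool.H2.Sp.el N) (j₀ - 1) := by
      rw [hSd]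
      refine (card_filter_le _ _).trans ?_
      rw [Nat.card_Ioc]
      exact Nat.sub_le _ _
    exact (Nat.pow_le_pow_left h1 2).trans hz
  have h1 := Pool.H2.Sp.card_none 1 b S hS N hcard hE1
  have h2 : (((range N).filter (fun n => ¬ hasSm (Pool.H2.Sp.el N) j₀ (n + b))).card : ℝ) ≤
      (((range N).filter (fun n => ∀ p ∈ S, ¬ p ∣ 1 * n + b)).card : ℝ) := by
    have h3 : (range N).filter (fun n => ¬ hasSm (Pool.H2.Sp.el N) j₀ (n + b)) ⊆
        (range N).filter (fun n => ∀ p ∈ S, ¬ p ∣ 1 * n + b) := by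
      intro n hn
      rw [mem_filter] at hn ⊢
      refine ⟨hn.1, fun p hp hd => hn.2 ?_⟩
      rw [hSd, mem_filter, mem_Ioc] at hp
      rw [one_mul] at hd
      exact ⟨p, hp.2, hp.1.1, hp.1.2, hd⟩
    exact_mod_cast card_le_card h3
  refine (h2.trans h1).trans ?_
  have hEpos : 0 < ∑ p ∈ S, (1 : ℝ) / p := by linarith
  rw [div_le_iff₀ hEpos]
  rw [div_le_iff₀ hε] at hE2
  have hN0 : (0 : ℝ) ≤ N := Nat.cast_nonneg N
  nlinarith

end Pool.H2.TA
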