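import Mathlib
import Pool.Agent.H2.TA.BadA
import Pool.Agent.H2.TA.BadB
import Pool.Agent.H2.TA.BadQ
import Pool.Agent.H2.TA.BadS

/-!
Module BAD: few integers are in no class.

Let `n < N` be in no class `j`, `j₀ ≤ j < el N`, and suppose that some prime of `allb P.Q N j₀` divides
`n + b0`. Let `j` be the least index in `[j₀, el N)` with a prime `p` of the block `j` dividing `n + b0`
(`Nat.find`). The first two conditions of `mem_cls` hold, so one of the others fails: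
* uniqueness: `n` is in the set of `pairs` with `b = b' = b0`;
* `p^2 ∣ n + b0` for some `p` of the block: the set of `squares`;
* `p' ∣ n + bs s` for some `p'` of the block and some `s`: if `p' ≠ p` the set of `pairs` with `b = b0`,
  `b' = bs s`; if `p' = p` then `p` divides `|bs s - b0| ≠ 0`, impossible once
  `el N > b0 + bs s` for all `s` (`p > zz l j ≥ l`);
* `¬ hasSm` at `b1` or `b2`.
So `bad ⊆` union of the sets of `bad_none`, `pairs` (`1 + card σ` times), `squares`, `bad_sm` (twice).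
Choose first `j₀ ≥ J (ε/8)` (`bad_sm`) with `(1 + card σ) * 100/j₀ ≤ ε/4`, `j₀ ≥ 3`; then for large `N` the total is
`≤ ε/8 + ε/4 + ε/8 + ε/8 + ε/8 ≤ ε` times `N`.
-/

set_option autoImplicit false

open Finset Filter Topology

namespace Pool.H2.TA

open Classical in
private lemma bad_incl {σ : Type} [Fintype σ] (P : Par σ) (hP : P.Ok) (j₀ N : ℕ) (hj : 1 ≤ j₀)
    (hl : ∀ s, P.b0 + P.bs s < Pool.H2.Sp.el N) :
    bad P j₀ N ⊆ ((range N).filter (fun n => ∀ p ∈ allb P.Q N j₀, ¬ p ∣ n + P.b0)) ∪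
      (((range N).filter (fun n => ∃ j, j₀ ≤ j ∧ j < Pool.H2.Sp.el N ∧ ∃ p ∈ blk P.Q N j,
        ∃ p' ∈ blk P.Q N j, p ≠ p' ∧ p ∣ n + P.b0 ∧ p' ∣ n + P.b0)) ∪
      ((Finset.univ.biUnion (fun s : σ => (range N).filter (fun n => ∃ j, j₀ ≤ j ∧
        j < Pool.H2.Sp.el N ∧ ∃ p ∈ blk P.Q N j,
        ∃ p' ∈ blk P.Q N j, p ≠ p' ∧ p ∣ n + P.b0 ∧ p' ∣ n + P.bs s))) ∪
      (((range N).filter (fun n => ∃ j, j₀ ≤ j ∧ j < Pool.H2.Sp.el N ∧
        ∃ p ∈ blk P.Q N j, p ^ 2 ∣ n + P.b0)) ∪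
      (((range N).filter (fun n => ¬ hasSm (Pool.H2.Sp.el N) j₀ (n + P.b1))) ∪
      ((range N).filter (fun n => ¬ hasSm (Pool.H2.Sp.el N) j₀ (n + P.b2))))))) := by
  intro n hn
  unfold bad at hn
  rw [mem_filter, mem_range] at hn
  obtain ⟨hnN, hn⟩ := hn
  simp only [mem_union, mem_filter, mem_range, mem_biUnion, mem_univ, true_and]
  by_cases h0 : ∀ p ∈ allb P.Q N j₀, ¬ p ∣ n + P.b0
  · exact Or.inl ⟨hnN, h0⟩
  right
  push Not at h0
  obtain ⟨p, hp, hpd⟩ := h0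
  unfold allb at hp
  rw [mem_biUnion] at hp
  obtain ⟨j1, hj1, hpj1⟩ := hp
  rw [mem_Ico] at hj1
  have hex : ∃ j, j₀ ≤ j ∧ j < Pool.H2.Sp.el N ∧ ∃ p ∈ blk P.Q N j, p ∣ n + P.b0 :=
    ⟨j1, hj1.1, hj1.2, p, hpj1, hpd⟩
  set j := Nat.find hex with hjdef
  obtain ⟨hj0, hjl, q, hq, hqd⟩ := Nat.find_spec hex
  rw [← hjdef] at hj0 hjl hq
  have hmin : ∀ i, j₀ ≤ i → i < j → ∀ p ∈ blk P.Q N i, ¬ p ∣ n + P.b0 := by
    intro i hi hij p hp hd
    have h := Nat.find_min hex hij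
    exact h ⟨hi, lt_trans hij hjl, p, hp, hd⟩
  by_cases h1 : ∀ p ∈ blk P.Q N j, ∀ p' ∈ blk P.Q N j, p ∣ n + P.b0 → p' ∣ n + P.b0 → p = p'
  swap
  · left
    push Not at h1
    obtain ⟨p, hp, p', hp', h2, h3, h4⟩ := h1
    exact ⟨hnN, j, hj0, hjl, p, hp, p', hp', h4, h2, h3⟩
  right
  by_cases h3 : ∀ p ∈ blk P.Q N j, ∀ s, ¬ p ∣ n + P.bs s
  swap
  · left
    push Not at h3
    obtain ⟨p', hp', s, hs⟩ := h3
    refine ⟨s, hnN, j, hj0, hjl, q, hq, p', hp', ?_, hqd, hs⟩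
    rintro rfl
    have hqm := mem_blk.1 hq
    have hlt : Pool.H2.Sp.el N < q := by
      refine lt_of_le_of_lt ?_ hqm.2.2.2.1
      unfold zz
      have hpos := Pool.H2.Sp.el_pos N
      calc Pool.H2.Sp.el N = Pool.H2.Sp.el N ^ 1 := (pow_one _).symm
        _ ≤ Pool.H2.Sp.el N ^ (20 * j) := Nat.pow_le_pow_right hpos (by omega)
    have hsub := hl s
    have hne := hP.ns s
    rcases lt_or_gt_of_ne hne with hlt' | hlt'
    · have hd : q ∣ P.b0 - P.bs s := by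
        have := Nat.dvd_sub hqd hs
        have he : n + P.b0 - (n + P.bs s) = P.b0 - P.bs s := by omega
        rwa [he] at this
      have := Nat.le_of_dvd (by omega) hd
      omega
    · have hd : q ∣ P.bs s - P.b0 := by
        have := Nat.dvd_sub hs hqd
        have he : n + P.bs s - (n + P.b0) = P.bs s - P.b0 := by omega
        rwa [he] at this
      have := Nat.le_of_dvd (by omega) hd
      omega
  right
  by_cases h2 : ∀ p ∈ blk P.Q N j, ¬ p ^ 2 ∣ n + P.b0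
  swap
  · left
    push Not at h2
    obtain ⟨p, hp, hd⟩ := h2
    exact ⟨hnN, j, hj0, hjl, p, hp, hd⟩
  right
  by_cases h4 : hasSm (Pool.H2.Sp.el N) j₀ (n + P.b1)
  swap
  · exact Or.inl ⟨hnN, h4⟩
  right
  refine ⟨hnN, fun h5 => ?_⟩
  exact hn j hj0 hjl (mem_cls.2 ⟨hnN, hmin, ⟨q, hq, hqd⟩, h1, h2, h3, h4, h5⟩)

theorem bad_small {σ : Type} [Fintype σ] (P : Par σ) (hP : P.Ok) (hQ : Pool.H2.Sp.Div P.Q)
    (ε : ℝ) (hε : 0 < ε) : ∃ j₀ : ℕ, 3 ≤ j₀ ∧ ∀ᶠ N : ℕ in atTop,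
      ((bad P j₀ N).card : ℝ) ≤ ε * N := by
  classical
  obtain ⟨J, hJ3, hJ⟩ := bad_sm (ε / 8) (by positivity)
  set j₀ := max J ⌈400 * (1 + (Fintype.card σ : ℝ)) / ε⌉₊ with hj₀
  have hjJ : J ≤ j₀ := le_max_left _ _
  have hj3 : 3 ≤ j₀ := le_trans hJ3 hjJ
  have hj1 : 1 ≤ j₀ := by omega
  have hjc : 400 * (1 + (Fintype.card σ : ℝ)) / ε ≤ j₀ :=
    le_trans (Nat.le_ceil _) (Nat.cast_le.2 (le_max_right _ _))
  have hj0r : (0 : ℝ) < j₀ := by exact_mod_cast (by omega : 0 < j₀)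
  refine ⟨j₀, hj3, ?_⟩
  have htend : Tendsto (fun N : ℕ => (Pool.H2.Sp.el N : ℝ)) atTop atTop := by
    refine tendsto_atTop_mono (fun N => (Pool.H2.Sp.log_lt_el N).le) ?_
    exact Real.tendsto_log_atTop.comp tendsto_natCast_atTop_atTop
  filter_upwards [bad_none P hQ j₀ (ε / 8) (by positivity),
    squares P.Q P.b0 j₀ hj1 (ε / 8) (by positivity), hJ j₀ hjJ P.b1, hJ j₀ hjJ P.b2,
    htend.eventually_ge_atTop (((P.b0 + ∑ s, P.bs s + 2 : ℕ) : ℝ))] with N hA hS h1 h2 hel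
  have hel' : P.b0 + ∑ s, P.bs s + 2 ≤ Pool.H2.Sp.el N := by exact_mod_cast hel
  have hel2 : 2 ≤ Pool.H2.Sp.el N := by omega
  have hls : ∀ s, P.b0 + P.bs s < Pool.H2.Sp.el N := by
    intro s
    have := Finset.single_le_sum (f := fun s => P.bs s) (fun _ _ => Nat.zero_le _)
      (Finset.mem_univ s)
    omega
  have hp0 := pairs P.Q P.b0 P.b0 N j₀ hel2 hj1
  have hps : ∀ s, (((range N).filter (fun n => ∃ j, j₀ ≤ j ∧ j < Pool.H2.Sp.el N ∧
      ∃ p ∈ blk P.Q N j, ∃ p' ∈ blk P.Q N j, p ≠ p' ∧ p ∣ n + P.b0 ∧ p' ∣ n + P.bs s)).card : ℝ)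
      ≤ 100 * N / j₀ := fun s => pairs P.Q P.b0 (P.bs s) N j₀ hel2 hj1
  have hincl := Finset.card_le_card (bad_incl P hP j₀ N hj1 hls)
  have hcu := fun (A B : Finset ℕ) => Finset.card_union_le A B
  have hbi : (((Finset.univ.biUnion (fun s : σ => (range N).filter (fun n => ∃ j, j₀ ≤ j ∧
        j < Pool.H2.Sp.el N ∧ ∃ p ∈ blk P.Q N j,
        ∃ p' ∈ blk P.Q N j, p ≠ p' ∧ p ∣ n + P.b0 ∧ p' ∣ n + P.bs s)))).card : ℝ)
      ≤ Fintype.card σ * (100 * N / j₀) := by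
    refine le_trans (Nat.cast_le.2 Finset.card_biUnion_le) ?_
    push_cast
    calc _ ≤ ∑ s : σ, (100 * (N : ℝ) / j₀) := Finset.sum_le_sum (fun s _ => hps s)
      _ = _ := by rw [Finset.sum_const, nsmul_eq_mul]; rfl
  have htot : ((bad P j₀ N).card : ℝ) ≤ ε / 8 * N + (100 * N / j₀ +
      (Fintype.card σ * (100 * N / j₀) + (ε / 8 * N + (ε / 8 * N + ε / 8 * N)))) := by
    refine le_trans (Nat.cast_le.2 hincl) ?_
    refine le_trans (Nat.cast_le.2 (hcu _ _)) ?_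
    push_cast
    refine add_le_add hA ?_
    refine le_trans (Nat.cast_le.2 (hcu _ _)) ?_
    push_cast
    refine add_le_add hp0 ?_
    refine le_trans (Nat.cast_le.2 (hcu _ _)) ?_
    push_cast
    refine add_le_add hbi ?_
    refine le_trans (Nat.cast_le.2 (hcu _ _)) ?_
    push_cast
    refine add_le_add hS ?_
    refine le_trans (Nat.cast_le.2 (hcu _ _)) ?_
    push_cast
    exact add_le_add h1 h2
  have hkey : (1 + (Fintype.card σ : ℝ)) * (100 * N / j₀) ≤ ε / 4 * N := by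
    rw [div_le_iff₀ hε] at hjc
    have hN0 : (0 : ℝ) ≤ N := Nat.cast_nonneg _
    rw [mul_div_assoc', div_le_iff₀ hj0r]
    nlinarith [mul_le_mul_of_nonneg_right hjc hN0]
  have hN0 : (0 : ℝ) ≤ ε * N := by positivity
  linarith

end Pool.H2.TA
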