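import Mathlib
import Pool.Agent.H2.TA.Def

/-!
Module CLSP (short): properties of the integers of a class.

For `n ∈ cls P j₀ N j` the set `{p ∈ blk | p ∣ n + b0}` is a singleton `{p₀}` (existence and uniqueness in
the definition of `cls`), so `qn P N j n = p₀` (`Finset.sup_singleton`).
`qn_cop`: a prime `p` of the block dividing `(n+b0)/qn` divides `n + b0`, so `p = qn` by uniqueness, and then
`qn^2 ∣ n + b0`, excluded. `F_split`: `n + b0 = qn * ((n+b0)/qn)` with coprime factors (`qn` prime not dividing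
the cofactor), `map_mul_of_coprime`.
-/

set_option autoImplicit false

open Finset

namespace Pool.H2.TA

variable {σ : Type} (P : Par σ) (j₀ N j n : ℕ)

private lemma clsp_single (hn : n ∈ cls P j₀ N j) : ∃ p₀ ∈ blk P.Q N j, p₀ ∣ n + P.b0 ∧
    (∀ p ∈ blk P.Q N j, p ∣ n + P.b0 → p = p₀) ∧ qn P N j n = p₀ := by
  obtain ⟨-, -, ⟨p₀, hp₀, hd⟩, hu, -⟩ := mem_cls.1 hn
  have h1 : ∀ p ∈ blk P.Q N j, p ∣ n + P.b0 → p = p₀ := fun p hp hpd => hu p hp p₀ hp₀ hpd hd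
  refine ⟨p₀, hp₀, hd, h1, ?_⟩
  have h2 : (blk P.Q N j).filter (fun p => p ∣ n + P.b0) = {p₀} := by
    ext p
    rw [mem_filter, mem_singleton]
    constructor
    · rintro ⟨h3, h4⟩
      exact h1 p h3 h4
    · rintro rfl
      exact ⟨hp₀, hd⟩
  unfold qn
  rw [h2, sup_singleton]
  rfl

lemma qn_mem (hn : n ∈ cls P j₀ N j) : qn P N j n ∈ blk P.Q N j := by
  obtain ⟨p₀, h1, -, -, h2⟩ := clsp_single P j₀ N j n hn
  rw [h2]
  exact h1

lemma qn_dvd (hn : n ∈ cls P j₀ N j) : qn P N j n ∣ n + P.b0 := by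
  obtain ⟨p₀, -, h1, -, h2⟩ := clsp_single P j₀ N j n hn
  rw [h2]
  exact h1

lemma qn_uniq (hn : n ∈ cls P j₀ N j) (p : ℕ) (hp : p ∈ blk P.Q N j) (hd : p ∣ n + P.b0) :
    p = qn P N j n := by
  obtain ⟨p₀, -, -, h1, h2⟩ := clsp_single P j₀ N j n hn
  rw [h2]
  exact h1 p hp hd

lemma qn_cop (hn : n ∈ cls P j₀ N j) (p : ℕ) (hp : p ∈ blk P.Q N j) :
    ¬ p ∣ (n + P.b0) / qn P N j n := by
  intro h
  have h0 : qn P N j n * ((n + P.b0) / qn P N j n) = n + P.b0 :=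
    Nat.mul_div_cancel' (qn_dvd P j₀ N j n hn)
  have h1 : p ∣ n + P.b0 := by
    rw [← h0]
    exact h.mul_left _
  have h2 : p = qn P N j n := qn_uniq P j₀ N j n hn p hp h1
  obtain ⟨-, -, -, -, hsq, -⟩ := mem_cls.1 hn
  apply hsq p hp
  rw [pow_two, ← h0]
  nth_rewrite 1 [h2]
  exact Nat.mul_dvd_mul_left _ h

lemma F_split (hn : n ∈ cls P j₀ N j) (f : ArithmeticFunction ℂ) (hf : f.IsMultiplicative) :
    f (n + P.b0) = f (qn P N j n) * f ((n + P.b0) / qn P N j n) := by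
  have h0 : qn P N j n * ((n + P.b0) / qn P N j n) = n + P.b0 :=
    Nat.mul_div_cancel' (qn_dvd P j₀ N j n hn)
  have hm := qn_mem P j₀ N j n hn
  have h1 : (qn P N j n).Coprime ((n + P.b0) / qn P N j n) :=
    (Nat.Prime.coprime_iff_not_dvd (mem_blk.1 hm).2.1).2 (qn_cop P j₀ N j n hn _ hm)
  rw [← hf.map_mul_of_coprime h1, h0]

end Pool.H2.TA
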