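import Mathlib
import Pool.Agent.H2.TA.ClsP
import Pool.Agent.H2.TA.Rou

/-!
Module CNT (short): size of the rough parts, size of the fibres. Write `l = el N`, `y = zz l (j-1)`.
`Big P N` says that `N` is large in terms of the positions.

`ro_bound`: `n + b1` has a prime factor `p`, `l^20 = zz l 1 < p ≤ zz l (j₀-1) ≤ y` (`hasSm`, last two conditions of
`mem_cls`), so `ro y (n+b1) * p ≤ n + b1 ≤ 2N` (`ro_le`) and `ro * l^20 ≤ 2N` (`Nat.le_div_iff_mul_le`);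
`1 ≤ ro` by `ro_pos`. The same for `b2`.

`fib_bound`: `#{n ∈ cls : qn n = p} ≤ #{n < N : p ∣ n + b0} ≤ N/p + 1 ≤ 2N/p` (`qn_dvd`; `p ≤ N` because
`p` is in the block). For the count: all these `n` are congruent modulo `p`
(`Pool.H2.Rand.card_le_of_modEq` in RandCount.lean).
-/

set_option autoImplicit false

open Finset

namespace Pool.H2.TA

/-- `N` is large in terms of the positions -/
def Big {σ : Type} (P : Par σ) (N : ℕ) : Prop :=
  P.b0 + P.b1 + P.b2 < Pool.H2.Sp.el N ^ 20 ∧ Pool.H2.Sp.el N ^ 20 ≤ N ∧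
    P.b0 + P.b1 + P.b2 ≤ N ∧ 2 ≤ Pool.H2.Sp.el N

variable {σ : Type} (P : Par σ) (hP : P.Ok) (j₀ N j : ℕ)

include hP in
lemma ro_bound (hj₀ : 3 ≤ j₀) (hj : j₀ ≤ j) (hB : Big P N) (n : ℕ) (hn : n ∈ cls P j₀ N j) :
    (1 ≤ ro (zz (Pool.H2.Sp.el N) (j - 1)) (n + P.b1) ∧
      ro (zz (Pool.H2.Sp.el N) (j - 1)) (n + P.b1) ≤ 2 * N / Pool.H2.Sp.el N ^ 20) ∧
    (1 ≤ ro (zz (Pool.H2.Sp.el N) (j - 1)) (n + P.b2) ∧
      ro (zz (Pool.H2.Sp.el N) (j - 1)) (n + P.b2) ≤ 2 * N / Pool.H2.Sp.el N ^ 20) := by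
  obtain ⟨_, _, hN, hl⟩ := hB
  obtain ⟨hnN, _, _, _, _, _, h1, h2⟩ := mem_cls.1 hn
  have hmono : zz (Pool.H2.Sp.el N) (j₀ - 1) ≤ zz (Pool.H2.Sp.el N) (j - 1) := by
    unfold zz
    exact Nat.pow_le_pow_right (by omega) (by omega)
  have key : ∀ b, 1 ≤ b → b ≤ N → hasSm (Pool.H2.Sp.el N) j₀ (n + b) →
      ro (zz (Pool.H2.Sp.el N) (j - 1)) (n + b) ≤ 2 * N / Pool.H2.Sp.el N ^ 20 := by
    rintro b hb hbN ⟨p, hp, hp1, hp2, hpd⟩
    have h3 := ro_le (zz (Pool.H2.Sp.el N) (j - 1)) (n + b) p (by omega) hp (hp2.trans hmono) hpd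
    rw [Nat.le_div_iff_mul_le (pow_pos (by omega) 20)]
    have h4 : Pool.H2.Sp.el N ^ 20 ≤ p := by
      unfold zz at hp1
      rw [mul_one] at hp1
      exact hp1.le
    calc ro (zz (Pool.H2.Sp.el N) (j - 1)) (n + b) * Pool.H2.Sp.el N ^ 20
        ≤ ro (zz (Pool.H2.Sp.el N) (j - 1)) (n + b) * p := Nat.mul_le_mul_left _ h4
      _ ≤ n + b := h3
      _ ≤ 2 * N := by omega
  exact ⟨⟨ro_pos _ _, key _ hP.p1 (by omega) h1⟩, ⟨ro_pos _ _, key _ hP.p2 (by omega) h2⟩⟩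

/-- integers in one class modulo `u` -/
lemma cnt_dvd (N u b : ℕ) (T : Finset ℕ) (hT : T ⊆ range N) (h : ∀ x ∈ T, u ∣ x + b) :
    T.card ≤ N / u + 1 := by
  refine Pool.H2.Rand.card_le_of_modEq N u T hT fun x hx y hy => ?_
  have h1 : x + b ≡ y + b [MOD u] :=
    ((Nat.modEq_zero_iff_dvd).2 (h x hx)).trans ((Nat.modEq_zero_iff_dvd).2 (h y hy)).symm
  exact Nat.ModEq.add_right_cancel' b h1

theorem fib_bound (p : ℕ) (hp : p ∈ blk P.Q N j) :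
    (((cls P j₀ N j).filter (fun n => qn P N j n = p)).card : ℝ) ≤ 2 * N / p := by
  have h1 := cnt_dvd N p P.b0 ((cls P j₀ N j).filter (fun n => qn P N j n = p))
    ((filter_subset _ _).trans (cls_sub P j₀ N j)) (by
      intro n hn
      rw [mem_filter] at hn
      rw [← hn.2]
      exact qn_dvd P j₀ N j n hn.1)
  obtain ⟨⟨hp1, hpN⟩, _⟩ := mem_blk.1 hp
  have hp0 : (0 : ℝ) < p := by exact_mod_cast hp1
  have h2 : ((N / p : ℕ) : ℝ) ≤ (N : ℝ) / p := Nat.cast_div_le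
  have h3 : (1 : ℝ) ≤ (N : ℝ) / p := by
    rw [le_div_iff₀ hp0, one_mul]
    exact_mod_cast hpN
  calc (((cls P j₀ N j).filter (fun n => qn P N j n = p)).card : ℝ) ≤ ((N / p + 1 : ℕ) : ℝ) := by
        exact_mod_cast h1
    _ = ((N / p : ℕ) : ℝ) + 1 := by push_cast; ring
    _ ≤ (N : ℝ) / p + (N : ℝ) / p := add_le_add h2 h3
    _ = 2 * N / p := by ring

end Pool.H2.TA
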