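import Mathlib
import Pool.Agent.H2.TA.Cnt

/-!
Module CNTB: the number of `n'` in a class with the same prime `qn` and the same rough part.
Write `l = el N`, `y = zz l (j-1)`, `R = 2N/l^20`.

For `n ∈ cls` let `S' = {n' ∈ cls : qn n' = qn n, ro y (n'+b2) = ro y (n+b2)}`, `q = qn n`, `r = ro y (n+b2)`.
`q` is prime and `> zz l j ≥ l^20 > b0 + b2` (`mem_blk`, `qn_mem`, `Big`; `j ≥ 1`), it divides `n + b0` (`qn_dvd`); if it
divided `r ∣ n + b2` (`ro_dvd`) it would divide `b2 - b0 ≠ 0` (`P.Ok.n2`), impossible by size. So `q` and `r` are coprime,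
and every `n' ∈ S'` satisfies `q ∣ n' + b0`, `r ∣ n' + b2`, so all elements of `S'` are congruent modulo `q r`
and `< N`: `#S' ≤ N/(q r) + 1` (`Pool.H2.Rand.card_le_of_modEq`, RandCount.lean). Hence
`#S' * r ≤ N/q + r ≤ N/l^20 + 2N/l^20` (`ro_bound`). `card_pair1` is for `b2`, `card_pair2` for `b1` (with `P.Ok.n1`);
prove one lemma for a general position `b ≠ b0` with `b ≤ b1 + b2` first.
-/

set_option autoImplicit false

open Finset

namespace Pool.H2.TA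

variable {σ : Type} (P : Par σ) (hP : P.Ok) (j₀ N j : ℕ)

private lemma cntb_gen (b : ℕ) (hb0 : b ≠ P.b0) (hb : b ≤ P.b1 + P.b2) (hj₀ : 3 ≤ j₀)
    (hj : j₀ ≤ j) (hB : Big P N) (n : ℕ) (hn : n ∈ cls P j₀ N j)
    (hr : ro (zz (Pool.H2.Sp.el N) (j - 1)) (n + b) ≤ 2 * N / Pool.H2.Sp.el N ^ 20) :
    (((cls P j₀ N j).filter (fun n' => qn P N j n' = qn P N j n ∧
      ro (zz (Pool.H2.Sp.el N) (j - 1)) (n' + b)
        = ro (zz (Pool.H2.Sp.el N) (j - 1)) (n + b))).card : ℝ)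
      * (ro (zz (Pool.H2.Sp.el N) (j - 1)) (n + b) : ℝ) ≤ 3 * N / (Pool.H2.Sp.el N : ℝ) ^ 20 := by
  obtain ⟨hB1, _, hN, hl⟩ := hB
  obtain ⟨y, hy⟩ : ∃ y, y = zz (Pool.H2.Sp.el N) (j - 1) := ⟨_, rfl⟩
  obtain ⟨l, hl0⟩ : ∃ l, l = Pool.H2.Sp.el N := ⟨_, rfl⟩
  obtain ⟨q, hq⟩ : ∃ q, q = qn P N j n := ⟨_, rfl⟩
  obtain ⟨r, hrr⟩ : ∃ r, r = ro y (n + b) := ⟨_, rfl⟩
  rw [← hy, ← hl0, ← hrr] at hr
  rw [← hy, ← hl0, ← hq, ← hrr]
  rw [← hl0] at hB1 hl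
  have hqb := mem_blk.1 (qn_mem P j₀ N j n hn)
  rw [← hq, ← hl0] at hqb
  obtain ⟨_, hqp, _, hq1, _, _⟩ := hqb
  have hlq : l ^ 20 ≤ q := by
    unfold zz at hq1
    refine le_trans (Nat.pow_le_pow_right (by omega) (by omega)) hq1.le
  have hqd : q ∣ n + P.b0 := hq ▸ qn_dvd P j₀ N j n hn
  have hrd : r ∣ n + b := hrr ▸ ro_dvd y (n + b)
  have hr1 : 1 ≤ r := hrr ▸ ro_pos y (n + b)
  have hcop : Nat.Coprime q r := by
    rw [hqp.coprime_iff_not_dvd]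
    intro hqr
    have h1 : q ∣ n + b := hqr.trans hrd
    rcases Nat.lt_or_gt_of_ne hb0 with h | h
    · have h2 := Nat.dvd_sub hqd h1
      have h3 := Nat.le_of_dvd (by omega) h2
      omega
    · have h2 := Nat.dvd_sub h1 hqd
      have h3 := Nat.le_of_dvd (by omega) h2
      omega
  have hcard : ((cls P j₀ N j).filter (fun n' => qn P N j n' = q ∧ ro y (n' + b) = r)).card ≤
      N / (q * r) + 1 := by
    refine Pool.H2.Rand.card_le_of_modEq N (q * r) _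
      ((filter_subset _ _).trans (cls_sub P j₀ N j)) fun x hx z hz => ?_
    rw [mem_filter] at hx hz
    rw [← Nat.modEq_and_modEq_iff_modEq_mul hcop]
    constructor
    · have h1 : x + P.b0 ≡ z + P.b0 [MOD q] := by
        have e1 : q ∣ x + P.b0 := hx.2.1 ▸ qn_dvd P j₀ N j x hx.1
        have e2 : q ∣ z + P.b0 := hz.2.1 ▸ qn_dvd P j₀ N j z hz.1
        exact ((Nat.modEq_zero_iff_dvd).2 e1).trans ((Nat.modEq_zero_iff_dvd).2 e2).symm
      exact Nat.ModEq.add_right_cancel' _ h1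
    · have h1 : x + b ≡ z + b [MOD r] := by
        have e1 : r ∣ x + b := hx.2.2 ▸ ro_dvd y (x + b)
        have e2 : r ∣ z + b := hz.2.2 ▸ ro_dvd y (z + b)
        exact ((Nat.modEq_zero_iff_dvd).2 e1).trans ((Nat.modEq_zero_iff_dvd).2 e2).symm
      exact Nat.ModEq.add_right_cancel' _ h1
  have hl20 : (0 : ℝ) < (l : ℝ) ^ 20 := by
    have : (0 : ℝ) < l := by exact_mod_cast (by omega : 0 < l)
    positivity
  have hrR : (0 : ℝ) < r := by exact_mod_cast hr1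
  have hqR : (0 : ℝ) < q := by exact_mod_cast hqp.pos
  have hlqR : (l : ℝ) ^ 20 ≤ q := by exact_mod_cast hlq
  have h1 : (((cls P j₀ N j).filter (fun n' => qn P N j n' = q ∧ ro y (n' + b) = r)).card : ℝ) ≤
      (N : ℝ) / (q * r) + 1 := by
    calc _ ≤ ((N / (q * r) + 1 : ℕ) : ℝ) := by exact_mod_cast hcard
      _ = ((N / (q * r) : ℕ) : ℝ) + 1 := by push_cast; ring
      _ ≤ _ := by
          have : ((N / (q * r) : ℕ) : ℝ) ≤ (N : ℝ) / ((q * r : ℕ) : ℝ) := Nat.cast_div_le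
          rw [Nat.cast_mul] at this
          linarith
  have h2 : (r : ℝ) ≤ 2 * N / (l : ℝ) ^ 20 := by
    calc (r : ℝ) ≤ ((2 * N / l ^ 20 : ℕ) : ℝ) := by exact_mod_cast hr
      _ ≤ ((2 * N : ℕ) : ℝ) / ((l ^ 20 : ℕ) : ℝ) := Nat.cast_div_le
      _ = _ := by push_cast; ring
  calc (((cls P j₀ N j).filter (fun n' => qn P N j n' = q ∧ ro y (n' + b) = r)).card : ℝ) * r
      ≤ ((N : ℝ) / (q * r) + 1) * r := by gcongr
    _ = (N : ℝ) / q + r := by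
        field_simp
    _ ≤ (N : ℝ) / (l : ℝ) ^ 20 + 2 * N / (l : ℝ) ^ 20 := by gcongr
    _ = 3 * N / (l : ℝ) ^ 20 := by ring

include hP in
lemma card_pair1 (hj₀ : 3 ≤ j₀) (hj : j₀ ≤ j) (hB : Big P N) (n : ℕ) (hn : n ∈ cls P j₀ N j) :
    (((cls P j₀ N j).filter (fun n' => qn P N j n' = qn P N j n ∧
      ro (zz (Pool.H2.Sp.el N) (j - 1)) (n' + P.b2)
        = ro (zz (Pool.H2.Sp.el N) (j - 1)) (n + P.b2))).card : ℝ)
      * (ro (zz (Pool.H2.Sp.el N) (j - 1)) (n + P.b2) : ℝ) ≤ 3 * N / (Pool.H2.Sp.el N : ℝ) ^ 20 :=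
  cntb_gen P j₀ N j P.b2 hP.n2 (by omega) hj₀ hj hB n hn (ro_bound P hP j₀ N j hj₀ hj hB n hn).2.2

include hP in
lemma card_pair2 (hj₀ : 3 ≤ j₀) (hj : j₀ ≤ j) (hB : Big P N) (n : ℕ) (hn : n ∈ cls P j₀ N j) :
    (((cls P j₀ N j).filter (fun n' => qn P N j n' = qn P N j n ∧
      ro (zz (Pool.H2.Sp.el N) (j - 1)) (n' + P.b1)
        = ro (zz (Pool.H2.Sp.el N) (j - 1)) (n + P.b1))).card : ℝ)
      * (ro (zz (Pool.H2.Sp.el N) (j - 1)) (n + P.b1) : ℝ) ≤ 3 * N / (Pool.H2.Sp.el N : ℝ) ^ 20 :=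
  cntb_gen P j₀ N j P.b1 hP.n1 (by omega) hj₀ hj hB n hn (ro_bound P hP j₀ N j hj₀ hj hB n hn).1.2

end Pool.H2.TA
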