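import Mathlib

/-!
Module HERM (linear algebra, Mathlib only): a quadratic form is bounded by the trace of a power.

`H` Hermitian with eigenvalues `l i` (real) and unitary `U` (`Matrix.IsHermitian.spectral_theorem`).
With `c = Uᴴ *ᵥ v`: `star v ⬝ᵥ (H *ᵥ v) = ∑ i, l i * ‖c i‖^2`, `∑ i, ‖c i‖^2 = ∑ i, ‖v i‖^2`, and
`(H^(2p)).trace = ∑ i, (l i)^(2p)`. For each `i`: `|l i|^(2p) ≤ ∑ j, (l j)^(2p) =: τ`, so with
`L = max |l i|`: `|∑ l i ‖c i‖^2| ≤ L ∑ ‖c i‖^2` and `L^(2p) ≤ τ` (if `n` is empty both sides are `0`,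
as `p ≥ 1`). It may be easier to use `‖∑ l i ‖c i‖^2‖^(2p) ≤ (∑ ‖c i‖^2)^(2p) * τ` directly from
`|l i| ≤ τ^(1/(2p))` or by choosing an index `i₀` with `|l i₀|` maximal (`Finset.exists_max_image`).
-/

set_option autoImplicit false

open Finset Matrix

namespace Pool.H2.TA

private lemma herm_nsq {n : Type} [Fintype n] (v : n → ℂ) :
    ((∑ i, ‖v i‖ ^ 2 : ℝ) : ℂ) = star v ⬝ᵥ v := by
  rw [dotProduct, Complex.ofReal_sum]
  refine Finset.sum_congr rfl fun i _ => ?_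
  rw [Pi.star_apply, Complex.star_def, Complex.conj_mul', Complex.ofReal_pow]

theorem herm_form {n : Type} [Fintype n] [DecidableEq n] (H : Matrix n n ℂ) (hH : H.IsHermitian)
    (p : ℕ) (hp : 1 ≤ p) (v : n → ℂ) :
    ‖star v ⬝ᵥ (H *ᵥ v)‖ ^ (2 * p) ≤ (∑ i, ‖v i‖ ^ 2) ^ (2 * p) * ((H ^ (2 * p)).trace).re := by
  obtain ⟨U, hU⟩ : ∃ U, U = hH.eigenvectorUnitary := ⟨_, rfl⟩
  obtain ⟨l, hl⟩ : ∃ l, l = hH.eigenvalues := ⟨_, rfl⟩
  have hspec : H = (U : Matrix n n ℂ) * diagonal (fun i => (l i : ℂ)) * (star U : Matrix n n ℂ) := by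
    have h := hH.spectral_theorem
    rw [Unitary.conjStarAlgAut_apply] at h
    rw [hU, hl]
    exact h
  have hUs : (star U : Matrix n n ℂ) * (U : Matrix n n ℂ) = 1 := Unitary.coe_star_mul_self U
  have hUm : (U : Matrix n n ℂ) * (star U : Matrix n n ℂ) = 1 := Unitary.coe_mul_star_self U
  obtain ⟨V, hV⟩ : ∃ V : Matrix n n ℂ, V = (U : Matrix n n ℂ) := ⟨_, rfl⟩
  rw [← hV] at hspec hUs hUm
  have hpow : ∀ k : ℕ, H ^ k = V * diagonal (fun i => (l i : ℂ) ^ k) * star V := by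
    intro k
    induction k with
    | zero =>
      simp only [pow_zero, diagonal_one, mul_one]
      exact hUm.symm
    | succ k ih =>
      have h1 : (fun i => (l i : ℂ) ^ (k + 1)) = fun i => (l i : ℂ) ^ k * (l i : ℂ) := by
        funext i
        rw [pow_succ]
      rw [pow_succ, ih, h1, ← diagonal_mul_diagonal]
      conv_lhs => rw [hspec]
      calc V * diagonal (fun i => (l i : ℂ) ^ k) * star V * (V * diagonal (fun i => (l i : ℂ)) * star V)
          = V * diagonal (fun i => (l i : ℂ) ^ k) * (star V * V) * diagonal (fun i => (l i : ℂ)) *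
              star V := by simp only [Matrix.mul_assoc]
        _ = _ := by rw [hUs, Matrix.mul_one]; simp only [Matrix.mul_assoc]
  have htr : (H ^ (2 * p)).trace = ((∑ i, (l i) ^ (2 * p) : ℝ) : ℂ) := by
    rw [hpow, trace_mul_comm, ← Matrix.mul_assoc, hUs, Matrix.one_mul, trace_diagonal,
      Complex.ofReal_sum]
    refine Finset.sum_congr rfl fun i _ => ?_
    rw [Complex.ofReal_pow]
  obtain ⟨c, hc⟩ : ∃ c : n → ℂ, c = star V *ᵥ v := ⟨_, rfl⟩
  have hstar : star v ᵥ* V = star c := by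
    rw [hc, star_mulVec, star_eq_conjTranspose, conjTranspose_conjTranspose]
  have hquad : star v ⬝ᵥ (H *ᵥ v) = ∑ i, star (c i) * ((l i : ℂ) * c i) := by
    conv_lhs => rw [hspec]
    rw [← mulVec_mulVec, ← mulVec_mulVec, ← hc, dotProduct_mulVec, hstar, dotProduct]
    refine Finset.sum_congr rfl fun i _ => ?_
    rw [mulVec_diagonal, Pi.star_apply]
  have hnorm : ∑ i, ‖c i‖ ^ 2 = ∑ i, ‖v i‖ ^ 2 := by
    have h1 : ((∑ i, ‖c i‖ ^ 2 : ℝ) : ℂ) = ((∑ i, ‖v i‖ ^ 2 : ℝ) : ℂ) := by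
      rw [herm_nsq, herm_nsq, ← hstar, hc, ← dotProduct_mulVec, mulVec_mulVec, hUm, one_mulVec]
    exact_mod_cast h1
  rw [htr, Complex.ofReal_re, hquad, ← hnorm]
  rcases isEmpty_or_nonempty n with he | hne
  · simp only [Finset.univ_eq_empty, Finset.sum_empty, norm_zero]
    rw [zero_pow (by omega), zero_mul]
  · obtain ⟨i₀, -, hi₀⟩ := Finset.exists_max_image Finset.univ (fun i => |l i|)
      Finset.univ_nonempty
    have hb : ‖∑ i, star (c i) * ((l i : ℂ) * c i)‖ ≤ |l i₀| * ∑ i, ‖c i‖ ^ 2 := by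
      refine (norm_sum_le _ _).trans ?_
      rw [Finset.mul_sum]
      refine Finset.sum_le_sum fun i hi => ?_
      rw [norm_mul, norm_mul, norm_star, Complex.norm_real, Real.norm_eq_abs]
      have h2 := hi₀ i (Finset.mem_univ i)
      have h3 : 0 ≤ ‖c i‖ ^ 2 := by positivity
      calc ‖c i‖ * (|l i| * ‖c i‖) = |l i| * ‖c i‖ ^ 2 := by ring
        _ ≤ |l i₀| * ‖c i‖ ^ 2 := mul_le_mul_of_nonneg_right h2 h3
    have h4 : |l i₀| ^ (2 * p) ≤ ∑ i, (l i) ^ (2 * p) := by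
      rw [Even.pow_abs (even_two_mul p)]
      exact Finset.single_le_sum (f := fun i => (l i) ^ (2 * p))
        (fun i _ => (even_two_mul p).pow_nonneg _) (Finset.mem_univ i₀)
    have h5 : 0 ≤ ∑ i, ‖c i‖ ^ 2 := Finset.sum_nonneg fun i _ => by positivity
    calc ‖∑ i, star (c i) * ((l i : ℂ) * c i)‖ ^ (2 * p)
        ≤ (|l i₀| * ∑ i, ‖c i‖ ^ 2) ^ (2 * p) := pow_le_pow_left₀ (norm_nonneg _) hb _
      _ = (∑ i, ‖c i‖ ^ 2) ^ (2 * p) * |l i₀| ^ (2 * p) := by rw [mul_pow, mul_comm]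
      _ ≤ _ := mul_le_mul_of_nonneg_left h4 (pow_nonneg h5 _)

end Pool.H2.TA
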