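import Mathlib
import Pool.Agent.H2.TA.Herm

/-!
Module BIL (linear algebra, short): bilinear forms through the Hermitian dilation.

`dil A = fromBlocks 0 A Aᴴ 0` on `m ⊕ n` is Hermitian. Let `T = ∑ i j, A i j * x i * y j`, choose
`θ : ℂ` with `‖θ‖ = 1`, `θ * T = ‖T‖` (`θ = conj T / ‖T‖`, or `1` if `T = 0`). Let
`v = Sum.elim (fun i => conj (x i)) (fun j => θ * y j)`. Then
`star v ⬝ᵥ (dil A *ᵥ v) = ∑ i j, x i * A i j * θ * y j + ∑ i j, conj (θ y j) * conj (A i j) * conj (x i)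
 = ‖T‖ + ‖T‖`, and `∑ ‖v‖^2 ≤ 2 L`. By `herm_form`, `(2‖T‖)^(2p) ≤ (2L)^(2p) * tr`. Divide by `2^(2p)`
(`(∑‖v‖^2)^(2p) ≤ (2L)^(2p)` needs that the trace is `≥ 0`: `(dil A)^(2p) = B Bᴴ` with `B = (dil A)^p`).
-/

set_option autoImplicit false

open Finset Matrix

namespace Pool.H2.TA

/-- Hermitian dilation -/
noncomputable def dil {m n : Type} (A : Matrix m n ℂ) : Matrix (m ⊕ n) (m ⊕ n) ℂ :=
  fromBlocks 0 A Aᴴ 0

lemma dil_herm {m n : Type} (A : Matrix m n ℂ) : (dil A).IsHermitian := by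
  unfold dil
  rw [IsHermitian, fromBlocks_conjTranspose, conjTranspose_zero, conjTranspose_zero,
    conjTranspose_conjTranspose]

private lemma bil_tr {n : Type} [Fintype n] (B : Matrix n n ℂ) :
    0 ≤ ((B * Bᴴ).trace).re := by
  rw [trace, Complex.re_sum]
  refine Finset.sum_nonneg fun i _ => ?_
  rw [diag_apply, mul_apply, Complex.re_sum]
  refine Finset.sum_nonneg fun k _ => ?_
  rw [conjTranspose_apply, Complex.star_def, Complex.mul_conj, Complex.ofReal_re]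
  exact Complex.normSq_nonneg _

private lemma bil_dot {m n : Type} [Fintype m] [Fintype n]
    (A : Matrix m n ℂ) (x : m → ℂ) (y : n → ℂ) (θ : ℂ) :
    star (Sum.elim (fun i => star (x i)) (fun j => θ * y j)) ⬝ᵥ
        (dil A *ᵥ (Sum.elim (fun i => star (x i)) (fun j => θ * y j))) =
      θ * (∑ i, ∑ j, A i j * x i * y j) + star (θ * (∑ i, ∑ j, A i j * x i * y j)) := by
  unfold dil
  rw [fromBlocks_mulVec, dotProduct, Fintype.sum_sum_type]
  congr 1
  · rw [Finset.mul_sum]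
    refine Finset.sum_congr rfl fun i _ => ?_
    simp only [Pi.star_apply, Sum.elim_inl, star_star, zero_mulVec,
      zero_add, mulVec, dotProduct, Function.comp_apply, Sum.elim_inr]
    rw [Finset.mul_sum, Finset.mul_sum]
    refine Finset.sum_congr rfl fun j _ => ?_
    ring
  · rw [star_mul', star_sum, Finset.mul_sum]
    simp only [Pi.star_apply, Sum.elim_inl, zero_mulVec,
      add_zero, mulVec, dotProduct, Function.comp_apply, Sum.elim_inr, conjTranspose_apply,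
      star_sum, star_mul', Finset.mul_sum]
    rw [Finset.sum_comm]
    refine Finset.sum_congr rfl fun i _ => Finset.sum_congr rfl fun j _ => ?_
    ring

theorem bil_form {m n : Type} [Fintype m] [Fintype n] [DecidableEq m] [DecidableEq n]
    (A : Matrix m n ℂ) (p : ℕ) (hp : 1 ≤ p) (x : m → ℂ) (y : n → ℂ) (L : ℝ)
    (hx : ∑ i, ‖x i‖ ^ 2 ≤ L) (hy : ∑ j, ‖y j‖ ^ 2 ≤ L) :
    ‖∑ i, ∑ j, A i j * x i * y j‖ ^ (2 * p) ≤ L ^ (2 * p) * ((dil A ^ (2 * p)).trace).re := by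
  obtain ⟨T, hT⟩ : ∃ T : ℂ, T = ∑ i, ∑ j, A i j * x i * y j := ⟨_, rfl⟩
  rw [← hT]
  obtain ⟨θ, hθ, hθT⟩ : ∃ θ : ℂ, ‖θ‖ = 1 ∧ θ * T = (‖T‖ : ℂ) := by
    by_cases h0 : T = 0
    · exact ⟨1, by simp, by simp [h0]⟩
    · have h1 : ‖T‖ ≠ 0 := norm_ne_zero_iff.2 h0
      refine ⟨star T / (‖T‖ : ℂ), ?_, ?_⟩
      · rw [norm_div, norm_star, Complex.norm_real, Real.norm_eq_abs, abs_of_nonneg (norm_nonneg _),
          div_self h1]
      · rw [div_mul_eq_mul_div, Complex.star_def, Complex.conj_mul', sq, mul_div_assoc, div_self,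
          mul_one]
        exact_mod_cast h1
  have h1 := herm_form (dil A) (dil_herm A) p hp (Sum.elim (fun i => star (x i)) (fun j => θ * y j))
  rw [bil_dot, ← hT, hθT, Fintype.sum_sum_type] at h1
  simp only [Sum.elim_inl, Sum.elim_inr, norm_star, norm_mul, hθ, one_mul] at h1
  have h2 : ‖(‖T‖ : ℂ) + star (‖T‖ : ℂ)‖ = 2 * ‖T‖ := by
    rw [Complex.star_def, Complex.conj_ofReal, ← Complex.ofReal_add, Complex.norm_real,
      Real.norm_eq_abs, abs_of_nonneg (by positivity)]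
    ring
  rw [h2] at h1
  have htr : 0 ≤ ((dil A ^ (2 * p)).trace).re := by
    have h3 : dil A ^ (2 * p) = (dil A ^ p) * (dil A ^ p)ᴴ := by
      rw [conjTranspose_pow, (dil_herm A).eq, ← pow_add, two_mul]
    rw [h3]
    exact bil_tr _
  have h4 : 0 ≤ ∑ i, ‖x i‖ ^ 2 + ∑ j, ‖y j‖ ^ 2 := by positivity
  have h5 : (∑ i, ‖x i‖ ^ 2 + ∑ j, ‖y j‖ ^ 2) ^ (2 * p) ≤ (2 * L) ^ (2 * p) :=
    pow_le_pow_left₀ h4 (by linarith) _
  have h6 := h1.trans (mul_le_mul_of_nonneg_right h5 htr)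
  rw [mul_pow, mul_pow, mul_assoc] at h6
  exact le_of_mul_le_mul_left h6 (by positivity)

end Pool.H2.TA
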