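import Mathlib

/-!
Module SCHUR (linear algebra, Mathlib only): weighted Schur test in trace form.

`tr (M B Bᴴ) = ∑ i j k, M i j * B j k * conj (B i k)` (real part at most the sum of absolute values), and
`‖M i j‖ ‖B j k‖ ‖B i k‖ ≤ (1/2) ‖M i j‖ (‖B i k‖^2 w j / w i + ‖B j k‖^2 w i / w j)`.
Summing the first half over `j` gives `≤ (1/2) S ∑ i k ‖B i k‖^2` by `hrow`; the second half is the same
after exchanging the names `i, j`, because `‖M i j‖ = ‖M j i‖` (`M` Hermitian). Finally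
`∑ i k, ‖B i k‖^2 = (tr (B Bᴴ)).re`.
-/

set_option autoImplicit false

open Finset Matrix

namespace Pool.H2.TA

private lemma schur_tr {n : Type} [Fintype n] (B : Matrix n n ℂ) :
    ((B * Bᴴ).trace).re = ∑ i, ∑ k, ‖B i k‖ ^ 2 := by
  rw [trace, Complex.re_sum]
  refine Finset.sum_congr rfl fun i _ => ?_
  rw [diag_apply, mul_apply, Complex.re_sum]
  refine Finset.sum_congr rfl fun k _ => ?_
  rw [conjTranspose_apply, Complex.star_def, Complex.mul_conj, Complex.ofReal_re,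
    Complex.normSq_eq_norm_sq]

theorem schur {n : Type} [Fintype n] (M : Matrix n n ℂ) (hM : M.IsHermitian) (w : n → ℝ)
    (hw : ∀ i, 0 < w i) (S : ℝ) (hrow : ∀ i, ∑ j, ‖M i j‖ * w j ≤ S * w i) (B : Matrix n n ℂ) :
    ((M * (B * Bᴴ)).trace).re ≤ S * ((B * Bᴴ).trace).re := by
  have hMs : ∀ i j, ‖M i j‖ = ‖M j i‖ := by
    intro i j
    rw [← hM.apply i j, norm_star]
  obtain ⟨b, hb⟩ : ∃ b : n → ℝ, b = fun i => ∑ k, ‖B i k‖ ^ 2 := ⟨_, rfl⟩
  have hb0 : ∀ i, 0 ≤ b i := fun i => by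
    rw [hb]
    exact Finset.sum_nonneg fun k _ => by positivity
  have h1 : ((M * (B * Bᴴ)).trace).re ≤ ∑ i, ∑ j, ∑ k, ‖M i j‖ * (‖B j k‖ * ‖B i k‖) := by
    refine (Complex.re_le_norm _).trans ?_
    rw [trace]
    refine (norm_sum_le _ _).trans (Finset.sum_le_sum fun i _ => ?_)
    rw [diag_apply, mul_apply]
    refine (norm_sum_le _ _).trans (Finset.sum_le_sum fun j _ => ?_)
    rw [norm_mul, mul_apply, ← Finset.mul_sum]
    refine mul_le_mul_of_nonneg_left ?_ (norm_nonneg _)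
    refine (norm_sum_le _ _).trans (Finset.sum_le_sum fun k _ => ?_)
    rw [norm_mul, conjTranspose_apply, norm_star]
  have h2 : ∀ i j k, ‖M i j‖ * (‖B j k‖ * ‖B i k‖) ≤
      (1 / 2) * (‖M i j‖ * (w j / w i) * ‖B i k‖ ^ 2) +
        (1 / 2) * (‖M j i‖ * (w i / w j) * ‖B j k‖ ^ 2) := by
    intro i j k
    rw [← hMs i j]
    have h3 : ‖B j k‖ * ‖B i k‖ ≤ (1 / 2) * ((w j / w i) * ‖B i k‖ ^ 2) +
        (1 / 2) * ((w i / w j) * ‖B j k‖ ^ 2) := by
      have hi := hw i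
      have hj := hw j
      have h4 : (w j / w i) * ‖B i k‖ ^ 2 + (w i / w j) * ‖B j k‖ ^ 2 - 2 * (‖B j k‖ * ‖B i k‖) =
          (w j * ‖B i k‖ - w i * ‖B j k‖) ^ 2 / (w i * w j) := by
        field_simp
        ring
      have h5 : 0 ≤ (w j * ‖B i k‖ - w i * ‖B j k‖) ^ 2 / (w i * w j) := by positivity
      linarith
    have h6 := mul_le_mul_of_nonneg_left h3 (norm_nonneg (M i j))
    linarith
  have h3 : ∑ i, ∑ j, ‖M i j‖ * (w j / w i) * b i ≤ S * ∑ i, b i := by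
    rw [Finset.mul_sum]
    refine Finset.sum_le_sum fun i _ => ?_
    rw [← Finset.sum_mul]
    refine mul_le_mul_of_nonneg_right ?_ (hb0 i)
    have h4 : ∑ j, ‖M i j‖ * (w j / w i) = (∑ j, ‖M i j‖ * w j) / w i := by
      rw [Finset.sum_div]
      exact Finset.sum_congr rfl fun j _ => by ring
    rw [h4, div_le_iff₀ (hw i)]
    exact hrow i
  have h4 : ∑ i, ∑ j, ∑ k, ‖M i j‖ * (‖B j k‖ * ‖B i k‖) ≤
      (1 / 2) * (∑ i, ∑ j, ‖M i j‖ * (w j / w i) * b i) +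
        (1 / 2) * (∑ i, ∑ j, ‖M j i‖ * (w i / w j) * b j) := by
    rw [Finset.mul_sum, Finset.mul_sum, ← Finset.sum_add_distrib]
    refine Finset.sum_le_sum fun i _ => ?_
    rw [Finset.mul_sum, Finset.mul_sum, ← Finset.sum_add_distrib]
    refine Finset.sum_le_sum fun j _ => ?_
    rw [hb, Finset.mul_sum, Finset.mul_sum, Finset.mul_sum, Finset.mul_sum,
      ← Finset.sum_add_distrib]
    exact Finset.sum_le_sum fun k _ => h2 i j k
  have h5 : ∑ i, ∑ j, ‖M j i‖ * (w i / w j) * b j = ∑ i, ∑ j, ‖M i j‖ * (w j / w i) * b i :=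
    Finset.sum_comm
  rw [h5] at h4
  have h6 : ((B * Bᴴ).trace).re = ∑ i, b i := by
    rw [schur_tr, hb]
  rw [h6]
  linarith

end Pool.H2.TA
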