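import Mathlib
import Pool.Agent.H2.TA.Schur
import Pool.Agent.H2.TA.Bil

/-!
Module GRAM: the row sums needed for the weighted Schur test.

Data: a finite set `S` of integers, a map `q : ℕ → κ`, two maps `r1 r2 : ℕ → ℕ` with values in `[1,R]` on `S`.
`mat q0 (a,b) = √a √b ∑_{n ∈ S, q n = q0, r1 n = a, r2 n = b} c q0 U n` for `a, b : Fin (R+1)`.

`ord1 S q r1 r2 r` is the weighted number `∑_{n ∈ S, r1 n = r} ∑_{n' ∈ S, q n' = q n, r2 n' = r2 n} r2 n`.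

`gram_row`: for the matrix `M = ∑_q dil (mat q) * dil (mat q)` and the weights
`wt (inl a) = wt (inr a) = 1/√a` (`1` for `a = 0`): `∑_j ‖M i j‖ wt j ≤ 4 s * wt i`. Proof:
`dil A * dil A = fromBlocks (A Aᴴ) 0 0 (Aᴴ A)` (`Matrix.fromBlocks_multiply`). For `i = inl a` (the case
`inr` is symmetric, with `hs2`): `‖A_q a b‖ ≤ 2 √a √b #{n ∈ S : q n = q, r1 n = a, r2 n = b}`, so
`‖(∑_q A_q A_qᴴ) a a'‖ ≤ ∑_q ∑_b ‖A_q a b‖ ‖A_q a' b‖`
`≤ 4 √a √a' ∑_b b ∑_q #{n ∈ S: q n = q, r1 n = a, r2 n = b} #{n' ∈ S: q n' = q, r1 n' = a', r2 n' = b}`.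
Multiply by `wt a' = 1/√a'` (for `a' = 0` the entry is `0`) and sum over `a'`:
`≤ 4 √a ∑_{n ∈ S, r1 n = a} r2 n #{n' ∈ S: q n' = q n, r2 n' = r2 n} = 4 √a * ord1 a`
`≤ 4 √a * s / a = 4 s wt a` for `a ≥ 1`; for `a = 0` everything is `0` (`√0 = 0`), and `0 ≤ 4 s`
because `s ≥ 1 * ord1 .. 1 ≥ 0`.
A convenient way: write all numbers of elements as sums of `1` over filtered sets and use
`Finset.sum_comm`, or prove first
`‖M (inl a) (inl a')‖ ≤ 4 √a √a' ∑_{n ∈ S, r1 n = a} ∑_{n' ∈ S, q n' = q n, r2 n' = r2 n, r1 n' = a'} r2 n`.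
-/

set_option autoImplicit false

open Finset Matrix

namespace Pool.H2.TA

/-- the matrix of one prime -/
noncomputable def mat {κ : Type} [DecidableEq κ] (S : Finset ℕ) (q : ℕ → κ) (r1 r2 : ℕ → ℕ)
    (c : κ → ℂ) (U : ℕ → ℂ) (R : ℕ) (q0 : κ) : Matrix (Fin (R + 1)) (Fin (R + 1)) ℂ :=
  fun a b => ((√(a : ℝ) * √(b : ℝ) : ℝ) : ℂ) *
    ∑ n ∈ S.filter (fun n => q n = q0 ∧ r1 n = a ∧ r2 n = b), c q0 * U n

/-- the weight of the Schur test -/
noncomputable def wt (R : ℕ) : Fin (R + 1) ⊕ Fin (R + 1) → ℝ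
  | Sum.inl a => if (a : ℕ) = 0 then 1 else 1 / √(a : ℝ)
  | Sum.inr a => if (a : ℕ) = 0 then 1 else 1 / √(a : ℝ)

/-- weighted number of pairs -/
noncomputable def ord1 {κ : Type} [DecidableEq κ] (S : Finset ℕ) (q : ℕ → κ) (r1 r2 : ℕ → ℕ)
    (r : ℕ) : ℝ :=
  ∑ n ∈ S.filter (fun n => r1 n = r), ∑ _n' ∈ S.filter (fun n' => q n' = q n ∧ r2 n' = r2 n),
    (r2 n : ℝ)

noncomputable def w0 (a : ℕ) : ℝ := if a = 0 then 1 else 1 / √(a : ℝ)

lemma w0_nn (a : ℕ) : 0 ≤ w0 a := by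
  unfold w0
  split_ifs
  · exact zero_le_one
  · positivity

lemma sqrt_w0 (a : ℕ) : √(a : ℝ) * w0 a ≤ 1 := by
  unfold w0
  split_ifs with h
  · subst h; simp
  · have : (0 : ℝ) < √(a : ℝ) := Real.sqrt_pos.2 (by positivity)
    rw [mul_one_div, div_self this.ne']

/-- number of elements -/
noncomputable def cn {κ : Type} [DecidableEq κ] (S : Finset ℕ) (q : ℕ → κ) (r1 r2 : ℕ → ℕ)
    (q0 : κ) (a b : ℕ) : ℝ :=
  ((S.filter (fun n => q n = q0 ∧ r1 n = a ∧ r2 n = b)).card : ℝ)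

lemma cn_nn {κ : Type} [DecidableEq κ] (S : Finset ℕ) (q : ℕ → κ) (r1 r2 : ℕ → ℕ)
    (q0 : κ) (a b : ℕ) : 0 ≤ cn S q r1 r2 q0 a b := by
  unfold cn; positivity

lemma cn_eq {κ : Type} [DecidableEq κ] (S : Finset ℕ) (q : ℕ → κ) (r1 r2 : ℕ → ℕ)
    (q0 : κ) (a b : ℕ) : cn S q r1 r2 q0 a b =
      ∑ n ∈ S.filter (fun n => r1 n = a), if q n = q0 ∧ r2 n = b then (1 : ℝ) else 0 := by
  unfold cn
  rw [← sum_filter, filter_filter, card_eq_sum_ones, Nat.cast_sum]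
  refine sum_congr ?_ fun _ _ => by simp
  ext n
  simp only [mem_filter]
  tauto

lemma ord1_eq {κ : Type} [DecidableEq κ] (S : Finset ℕ) (q : ℕ → κ) (r1 r2 : ℕ → ℕ) (r : ℕ) :
    ord1 S q r1 r2 r = ∑ n ∈ S.filter (fun n => r1 n = r),
      (r2 n : ℝ) * ((S.filter (fun n' => q n' = q n ∧ r2 n' = r2 n)).card : ℝ) := by
  unfold ord1
  refine sum_congr rfl fun n _ => ?_
  rw [sum_const, nsmul_eq_mul, mul_comm]

lemma core_sum {κ : Type} [Fintype κ] [DecidableEq κ] (S : Finset ℕ) (q : ℕ → κ)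
    (r1 r2 : ℕ → ℕ) (R : ℕ) (hr2 : ∀ n ∈ S, 1 ≤ r2 n ∧ r2 n ≤ R) (a : ℕ) :
    ∑ q0, ∑ b : Fin (R + 1), ((b : ℕ) : ℝ) * cn S q r1 r2 q0 a b *
        ((S.filter (fun n => q n = q0 ∧ r2 n = b)).card : ℝ) = ord1 S q r1 r2 a := by
  rw [ord1_eq]
  have h1 : ∀ (q0 : κ) (b : Fin (R + 1)), ((b : ℕ) : ℝ) * cn S q r1 r2 q0 a b *
        ((S.filter (fun n => q n = q0 ∧ r2 n = b)).card : ℝ) =
      ∑ n ∈ S.filter (fun n => r1 n = a), if q n = q0 ∧ r2 n = b then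
        ((b : ℕ) : ℝ) * ((S.filter (fun n => q n = q0 ∧ r2 n = b)).card : ℝ) else 0 := by
    intro q0 b
    rw [cn_eq, mul_sum, sum_mul]
    refine sum_congr rfl fun n _ => ?_
    split_ifs <;> simp
  simp_rw [h1]
  have h2 : ∀ q0 : κ, ∑ b : Fin (R + 1), ∑ n ∈ S.filter (fun n => r1 n = a),
      (if q n = q0 ∧ r2 n = b then
        ((b : ℕ) : ℝ) * ((S.filter (fun n => q n = q0 ∧ r2 n = b)).card : ℝ) else 0) =
      ∑ n ∈ S.filter (fun n => r1 n = a), ∑ b : Fin (R + 1), (if q n = q0 ∧ r2 n = b then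
        ((b : ℕ) : ℝ) * ((S.filter (fun n => q n = q0 ∧ r2 n = b)).card : ℝ) else 0) :=
    fun q0 => sum_comm
  simp_rw [h2]
  rw [sum_comm]
  refine sum_congr rfl fun n hn => ?_
  have hnS : n ∈ S := (mem_filter.1 hn).1
  have hlt : r2 n < R + 1 := Nat.lt_succ_of_le (hr2 n hnS).2
  rw [sum_eq_single (q n)]
  · rw [sum_eq_single (⟨r2 n, hlt⟩ : Fin (R + 1))]
    · simp
    · intro b _ hb
      rw [if_neg]
      rintro ⟨_, h⟩
      apply hb
      ext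
      exact h.symm
    · intro h; exact absurd (mem_univ _) h
  · intro q0 _ hq0
    refine sum_eq_zero fun b _ => ?_
    rw [if_neg]
    rintro ⟨h, _⟩
    exact hq0 h.symm
  · intro h; exact absurd (mem_univ _) h

lemma sum_cn {κ : Type} [Fintype κ] [DecidableEq κ] (S : Finset ℕ) (q : ℕ → κ)
    (r1 r2 : ℕ → ℕ) (R : ℕ) (q0 : κ) (b : ℕ) :
    ∑ a : Fin (R + 1), cn S q r1 r2 q0 a b ≤
      ((S.filter (fun n => q n = q0 ∧ r2 n = b)).card : ℝ) := by
  unfold cn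
  rw [← Nat.cast_sum]
  norm_cast
  rw [← card_biUnion]
  · refine card_le_card ?_
    intro n hn
    simp only [mem_biUnion, mem_filter] at hn ⊢
    obtain ⟨a, _, h1, h2, _, h3⟩ := hn
    exact ⟨h1, h2, h3⟩
  · intro a _ a' _ haa
    refine Finset.disjoint_left.2 ?_
    intro n hn hn'
    simp only [mem_filter] at hn hn'
    apply haa
    ext
    rw [← hn.2.2.1, hn'.2.2.1]

lemma row_real {κ : Type} [Fintype κ] [DecidableEq κ] (S : Finset ℕ) (q : ℕ → κ)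
    (r1 r2 : ℕ → ℕ) (R : ℕ) (hr2 : ∀ n ∈ S, 1 ≤ r2 n ∧ r2 n ≤ R) (s : ℝ)
    (hs1 : ∀ r : ℕ, 1 ≤ r → (r : ℝ) * ord1 S q r1 r2 r ≤ s) (f : κ → ℕ → ℕ → ℝ)
    (hf0 : ∀ q0 a b, 0 ≤ f q0 a b)
    (hf : ∀ q0 a b, f q0 a b ≤ 2 * (√(a : ℝ) * √(b : ℝ)) * cn S q r1 r2 q0 a b) (a : ℕ) :
    ∑ a' : Fin (R + 1), (∑ q0, ∑ b : Fin (R + 1), f q0 a b * f q0 a' b) * w0 a' ≤
      4 * s * w0 a := by
  have hs0 : 0 ≤ s := by
    refine le_trans ?_ (hs1 1 le_rfl)
    unfold ord1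
    positivity
  rcases Nat.eq_zero_or_pos a with ha | ha
  · subst ha
    have hz : ∀ q0 b, f q0 0 b = 0 := by
      intro q0 b
      have := hf q0 0 b
      simp at this
      exact le_antisymm this (hf0 _ _ _)
    simp only [hz, zero_mul, sum_const_zero]
    have := w0_nn 0
    positivity
  · have hap : (0 : ℝ) < √(a : ℝ) := Real.sqrt_pos.2 (by exact_mod_cast ha)
    have key : ∑ a' : Fin (R + 1), (∑ q0, ∑ b : Fin (R + 1), f q0 a b * f q0 a' b) * w0 a' ≤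
        4 * √(a : ℝ) * ord1 S q r1 r2 a := by
      calc ∑ a' : Fin (R + 1), (∑ q0, ∑ b : Fin (R + 1), f q0 a b * f q0 a' b) * w0 a'
          ≤ ∑ a' : Fin (R + 1), ∑ q0, ∑ b : Fin (R + 1),
              4 * √(a : ℝ) * (((b : ℕ) : ℝ) * cn S q r1 r2 q0 a b * cn S q r1 r2 q0 a' b) := by
            refine sum_le_sum fun a' _ => ?_
            rw [sum_mul]
            refine sum_le_sum fun q0 _ => ?_
            rw [sum_mul]
            refine sum_le_sum fun b _ => ?_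
            have h1 := hf q0 a b
            have h2 := hf q0 a' b
            have h3 := hf0 q0 a b
            have h4 := hf0 q0 a' b
            have h5 := w0_nn a'
            have h6 := sqrt_w0 a'
            have h7 := cn_nn S q r1 r2 q0 a b
            have h8 := cn_nn S q r1 r2 q0 a' b
            have hb : √((b : ℕ) : ℝ) * √((b : ℕ) : ℝ) = ((b : ℕ) : ℝ) :=
              Real.mul_self_sqrt (by positivity)
            calc f q0 a b * f q0 a' b * w0 a'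
                ≤ (2 * (√(a : ℝ) * √((b : ℕ) : ℝ)) * cn S q r1 r2 q0 a b) *
                  (2 * (√((a' : ℕ) : ℝ) * √((b : ℕ) : ℝ)) * cn S q r1 r2 q0 a' b) * w0 a' := by
                  gcongr
              _ = 4 * √(a : ℝ) * ((√((b : ℕ) : ℝ) * √((b : ℕ) : ℝ)) * cn S q r1 r2 q0 a b *
                  cn S q r1 r2 q0 a' b) * (√((a' : ℕ) : ℝ) * w0 a') := by ring
              _ ≤ 4 * √(a : ℝ) * ((√((b : ℕ) : ℝ) * √((b : ℕ) : ℝ)) * cn S q r1 r2 q0 a b *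
                  cn S q r1 r2 q0 a' b) * 1 := by
                  gcongr
              _ = _ := by rw [hb, mul_one]
        _ = ∑ q0, ∑ b : Fin (R + 1), 4 * √(a : ℝ) * (((b : ℕ) : ℝ) * cn S q r1 r2 q0 a b *
              ∑ a' : Fin (R + 1), cn S q r1 r2 q0 a' b) := by
            rw [sum_comm]
            refine sum_congr rfl fun q0 _ => ?_
            rw [sum_comm]
            refine sum_congr rfl fun b _ => ?_
            rw [mul_sum, mul_sum]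
        _ ≤ ∑ q0, ∑ b : Fin (R + 1), 4 * √(a : ℝ) * (((b : ℕ) : ℝ) * cn S q r1 r2 q0 a b *
              ((S.filter (fun n => q n = q0 ∧ r2 n = b)).card : ℝ)) := by
            refine sum_le_sum fun q0 _ => sum_le_sum fun b _ => ?_
            have h7 := cn_nn S q r1 r2 q0 a b
            have := sum_cn S q r1 r2 R q0 b
            gcongr
        _ = 4 * √(a : ℝ) * ord1 S q r1 r2 a := by
            rw [← core_sum S q r1 r2 R hr2 a, mul_sum]
            refine sum_congr rfl fun q0 _ => ?_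
            rw [mul_sum]
    refine key.trans ?_
    have hw : w0 a = 1 / √(a : ℝ) := by
      unfold w0
      rw [if_neg (by omega)]
    rw [hw, mul_one_div, le_div_iff₀ hap]
    have h1 := hs1 a ha
    have h2 : √(a : ℝ) * √(a : ℝ) = a := Real.mul_self_sqrt (by positivity)
    calc 4 * √(a : ℝ) * ord1 S q r1 r2 a * √(a : ℝ)
        = 4 * ((√(a : ℝ) * √(a : ℝ)) * ord1 S q r1 r2 a) := by ring
      _ = 4 * ((a : ℝ) * ord1 S q r1 r2 a) := by rw [h2]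
      _ ≤ 4 * s := by linarith

lemma mat_norm {κ : Type} [DecidableEq κ] (S : Finset ℕ) (q : ℕ → κ)
    (r1 r2 : ℕ → ℕ) (R : ℕ) (c : κ → ℂ) (hc : ∀ q, ‖c q‖ ≤ 2) (U : ℕ → ℂ)
    (hU : ∀ n, ‖U n‖ ≤ 1) (q0 : κ) (a b : Fin (R + 1)) :
    ‖mat S q r1 r2 c U R q0 a b‖ ≤ 2 * (√((a : ℕ) : ℝ) * √((b : ℕ) : ℝ)) *
      cn S q r1 r2 q0 a b := by
  unfold mat cn
  rw [norm_mul, Complex.norm_real, Real.norm_of_nonneg (by positivity)]
  have h : ‖∑ n ∈ S.filter (fun n => q n = q0 ∧ r1 n = a ∧ r2 n = b), c q0 * U n‖ ≤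
      ((S.filter (fun n => q n = q0 ∧ r1 n = a ∧ r2 n = b)).card : ℝ) * 2 := by
    refine (norm_sum_le _ _).trans ?_
    rw [← nsmul_eq_mul]
    refine sum_le_card_nsmul _ _ _ fun n _ => ?_
    rw [norm_mul]
    have := hc q0
    have := hU n
    nlinarith [norm_nonneg (c q0), norm_nonneg (U n)]
  calc √((a : ℕ) : ℝ) * √((b : ℕ) : ℝ) *
      ‖∑ n ∈ S.filter (fun n => q n = q0 ∧ r1 n = a ∧ r2 n = b), c q0 * U n‖
      ≤ √((a : ℕ) : ℝ) * √((b : ℕ) : ℝ) *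
        (((S.filter (fun n => q n = q0 ∧ r1 n = a ∧ r2 n = b)).card : ℝ) * 2) := by gcongr
    _ = _ := by ring

theorem gram_row {κ : Type} [Fintype κ] [DecidableEq κ] (S : Finset ℕ) (q : ℕ → κ)
    (r1 r2 : ℕ → ℕ) (R : ℕ) (hr1 : ∀ n ∈ S, 1 ≤ r1 n ∧ r1 n ≤ R)
    (hr2 : ∀ n ∈ S, 1 ≤ r2 n ∧ r2 n ≤ R) (s : ℝ)
    (hs1 : ∀ r : ℕ, 1 ≤ r → (r : ℝ) * ord1 S q r1 r2 r ≤ s)
    (hs2 : ∀ r : ℕ, 1 ≤ r → (r : ℝ) * ord1 S q r2 r1 r ≤ s)
    (c : κ → ℂ) (hc : ∀ q, ‖c q‖ ≤ 2) (U : ℕ → ℂ) (hU : ∀ n, ‖U n‖ ≤ 1)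
    (i : Fin (R + 1) ⊕ Fin (R + 1)) :
    ∑ j, ‖(∑ q0, dil (mat S q r1 r2 c U R q0) * dil (mat S q r1 r2 c U R q0)) i j‖ * wt R j
      ≤ (4 * s) * wt R i := by
  have hdd : ∀ A : Matrix (Fin (R + 1)) (Fin (R + 1)) ℂ,
      dil A * dil A = fromBlocks (A * Aᴴ) 0 0 (Aᴴ * A) := by
    intro A
    unfold dil
    rw [fromBlocks_multiply]
    simp
  have hext : ∀ {a : ℕ} (ha : a < R + 1), ((⟨a, ha⟩ : Fin (R + 1)) : ℕ) = a := fun _ => rfl
  rw [Fintype.sum_sum_type]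
  set A := mat S q r1 r2 c U R with hA
  have hM : ∀ i j, (∑ q0, dil (A q0) * dil (A q0)) i j =
      ∑ q0, (fromBlocks (A q0 * (A q0)ᴴ) 0 0 ((A q0)ᴴ * A q0)) i j := by
    intro i j
    rw [Matrix.sum_apply]
    simp_rw [hdd]
  rcases i with a | b
  · have hz : ∀ b : Fin (R + 1), ‖(∑ q0, dil (A q0) * dil (A q0)) (Sum.inl a) (Sum.inr b)‖ *
        wt R (Sum.inr b) = 0 := by
      intro b
      rw [hM]
      simp
    rw [sum_eq_zero (fun b _ => hz b), add_zero]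
    let f : κ → ℕ → ℕ → ℝ := fun q0 x y => if hx : x < R + 1 then
      (if hy : y < R + 1 then ‖A q0 ⟨x, hx⟩ ⟨y, hy⟩‖ else 0) else 0
    have hf0 : ∀ q0 a b, 0 ≤ f q0 a b := by
      intro q0 a b
      simp only [f]
      split_ifs <;> positivity
    have hf : ∀ q0 a b, f q0 a b ≤ 2 * (√(a : ℝ) * √(b : ℝ)) * cn S q r1 r2 q0 a b := by
      intro q0 a b
      have hnn : 0 ≤ 2 * (√(a : ℝ) * √(b : ℝ)) * cn S q r1 r2 q0 a b := by
        have := cn_nn S q r1 r2 q0 a b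
        positivity
      simp only [f]
      split_ifs with h1 h2
      · exact mat_norm S q r1 r2 R c hc U hU q0 ⟨a, h1⟩ ⟨b, h2⟩
      · exact hnn
      · exact hnn
    have hmain := row_real S q r1 r2 R hr2 s hs1 f hf0 hf a
    have hfe : ∀ q0 (x y : Fin (R + 1)), f q0 x y = ‖A q0 x y‖ := by
      intro q0 x y
      simp only [f]
      rw [dif_pos x.2, dif_pos y.2]
    simp only [hfe] at hmain
    refine le_trans ?_ hmain
    refine sum_le_sum fun a' _ => ?_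
    have hw : wt R (Sum.inl a') = w0 a' := rfl
    rw [hw]
    refine mul_le_mul_of_nonneg_right ?_ (w0_nn _)
    rw [hM]
    refine (norm_sum_le _ _).trans (sum_le_sum fun q0 _ => ?_)
    rw [fromBlocks_apply₁₁, Matrix.mul_apply]
    refine (norm_sum_le _ _).trans (sum_le_sum fun b _ => ?_)
    rw [norm_mul, Matrix.conjTranspose_apply, norm_star]
  · have hz : ∀ a : Fin (R + 1), ‖(∑ q0, dil (A q0) * dil (A q0)) (Sum.inr b) (Sum.inl a)‖ *
        wt R (Sum.inl a) = 0 := by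
      intro a
      rw [hM]
      simp
    rw [sum_eq_zero (fun b _ => hz b), zero_add]
    let f : κ → ℕ → ℕ → ℝ := fun q0 x y => if hx : x < R + 1 then
      (if hy : y < R + 1 then ‖A q0 ⟨y, hy⟩ ⟨x, hx⟩‖ else 0) else 0
    have hf0 : ∀ q0 a b, 0 ≤ f q0 a b := by
      intro q0 a b
      simp only [f]
      split_ifs <;> positivity
    have hcn : ∀ q0 a b, cn S q r2 r1 q0 a b = cn S q r1 r2 q0 b a := by
      intro q0 a b
      unfold cn
      congr 2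
      ext n
      simp only [mem_filter]
      tauto
    have hf : ∀ q0 a b, f q0 a b ≤ 2 * (√(a : ℝ) * √(b : ℝ)) * cn S q r2 r1 q0 a b := by
      intro q0 a b
      have hnn : 0 ≤ 2 * (√(a : ℝ) * √(b : ℝ)) * cn S q r2 r1 q0 a b := by
        have := cn_nn S q r2 r1 q0 a b
        positivity
      simp only [f]
      split_ifs with h1 h2
      · rw [hcn, mul_comm (√(a : ℝ))]
        exact mat_norm S q r1 r2 R c hc U hU q0 ⟨b, h2⟩ ⟨a, h1⟩
      · exact hnn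
      · exact hnn
    have hmain := row_real S q r2 r1 R hr1 s hs2 f hf0 hf b
    have hfe : ∀ q0 (x y : Fin (R + 1)), f q0 x y = ‖A q0 y x‖ := by
      intro q0 x y
      simp only [f]
      rw [dif_pos x.2, dif_pos y.2]
    simp only [hfe] at hmain
    refine le_trans ?_ hmain
    refine sum_le_sum fun b' _ => ?_
    have hw : wt R (Sum.inr b') = w0 b' := rfl
    rw [hw]
    refine mul_le_mul_of_nonneg_right ?_ (w0_nn _)
    rw [hM]
    refine (norm_sum_le _ _).trans (sum_le_sum fun q0 _ => ?_)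
    rw [fromBlocks_apply₂₂, Matrix.mul_apply]
    refine (norm_sum_le _ _).trans (sum_le_sum fun a _ => ?_)
    rw [norm_mul, Matrix.conjTranspose_apply, norm_star]

end Pool.H2.TA
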