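import Mathlib
import Pool.Agent.H2.TA.CntB
import Pool.Agent.H2.TA.Gram

/-!
Module CNTC: the weighted number of pairs `ord1` (Gram.lean). Write `l = el N`, `y = zz l (j-1)`, `R = 2N/l^20`,
`r1 n = ro y (n+b1)`, `r2 n = ro y (n+b2)`.

For each `n ∈ cls` with `r1 n = r` the inner sum of `ord1` is
`#{n' ∈ cls : q n' = q n, r2 n' = r2 n} * r2 n ≤ #{n' ∈ cls : qn n' = qn n, r2 n' = r2 n} * r2 n ≤ 3N/l^20`
(`hq`, `card_pair1`). The number of `n ∈ cls` with `r1 n = r` is at most `#{n < N : r ∣ n + b1} ≤ N/r + 1`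
(`ro_dvd`; all congruent modulo `r`), and it is `0` if `r > R` (`ro_bound`). So
`r * ord1 ≤ r (N/r + 1) 3N/l^20 ≤ (N + R) 3N/l^20 ≤ 6 N^2/l^20` (`R ≤ 2N/l^20 ≤ N` as `l ≥ 2`).
The second inequality is the same with the roles of `b1` and `b2` exchanged (`card_pair2`).
-/

set_option autoImplicit false

open Finset

namespace Pool.H2.TA

variable {σ : Type} (P : Par σ) (hP : P.Ok) (j₀ N j : ℕ)

private lemma cntc_gen {κ : Type} [DecidableEq κ] (S : Finset ℕ) (hS : S ⊆ range N)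
    (q : ℕ → κ) (r1 r2 : ℕ → ℕ) (r b : ℕ) (hr : 1 ≤ r) (K : ℝ) (hK : 0 ≤ K)
    (hin : ∀ n ∈ S, ((S.filter (fun n' => q n' = q n ∧ r2 n' = r2 n)).card : ℝ) * (r2 n : ℝ) ≤ K)
    (hd : ∀ n ∈ S, r1 n ∣ n + b) (hR : ∀ n ∈ S, r1 n ≤ N) :
    (r : ℝ) * ord1 S q r1 r2 r ≤ 2 * N * K := by
  have h1 : ord1 S q r1 r2 r ≤ ((S.filter (fun n => r1 n = r)).card : ℝ) * K := by
    unfold ord1
    have h2 : ∀ n ∈ S.filter (fun n => r1 n = r),
        ∑ _n' ∈ S.filter (fun n' => q n' = q n ∧ r2 n' = r2 n), (r2 n : ℝ) ≤ K := by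
      intro n hn
      rw [Finset.sum_const, nsmul_eq_mul]
      exact hin n (mem_filter.1 hn).1
    refine (Finset.sum_le_sum h2).trans ?_
    rw [Finset.sum_const, nsmul_eq_mul]
  have h2 : (r : ℝ) * ((S.filter (fun n => r1 n = r)).card : ℝ) ≤ 2 * N := by
    rcases (S.filter (fun n => r1 n = r)).eq_empty_or_nonempty with h | ⟨n, hn⟩
    · rw [h, Finset.card_empty, Nat.cast_zero, mul_zero]
      positivity
    · rw [mem_filter] at hn
      have hrN : r ≤ N := hn.2 ▸ hR n hn.1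
      have h3 := cnt_dvd N r b (S.filter (fun n => r1 n = r)) ((filter_subset _ _).trans hS) (by
        intro x hx
        rw [mem_filter] at hx
        rw [← hx.2]
        exact hd x hx.1)
      have h4 : r * (S.filter (fun n => r1 n = r)).card ≤ 2 * N := by
        calc r * (S.filter (fun n => r1 n = r)).card ≤ r * (N / r + 1) :=
              Nat.mul_le_mul_left _ h3
          _ = r * (N / r) + r := by ring
          _ ≤ N + N := add_le_add (Nat.mul_div_le N r) hrN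
          _ = 2 * N := by ring
      exact_mod_cast h4
  calc (r : ℝ) * ord1 S q r1 r2 r ≤ (r : ℝ) * (((S.filter (fun n => r1 n = r)).card : ℝ) * K) := by
        gcongr
    _ = ((r : ℝ) * ((S.filter (fun n => r1 n = r)).card : ℝ)) * K := by ring
    _ ≤ 2 * N * K := by gcongr

include hP in
theorem ord_bound (hj₀ : 3 ≤ j₀) (hj : j₀ ≤ j) (hB : Big P N) {κ : Type} [DecidableEq κ]
    (q : ℕ → κ) (hq : ∀ n ∈ cls P j₀ N j, ∀ n' ∈ cls P j₀ N j, q n' = q n → qn P N j n' = qn P N j n)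
    (r : ℕ) (hr : 1 ≤ r) :
    (r : ℝ) * ord1 (cls P j₀ N j) q (fun n => ro (zz (Pool.H2.Sp.el N) (j - 1)) (n + P.b1))
        (fun n => ro (zz (Pool.H2.Sp.el N) (j - 1)) (n + P.b2)) r
      ≤ 6 * (N : ℝ) ^ 2 / (Pool.H2.Sp.el N : ℝ) ^ 20 ∧
    (r : ℝ) * ord1 (cls P j₀ N j) q (fun n => ro (zz (Pool.H2.Sp.el N) (j - 1)) (n + P.b2))
        (fun n => ro (zz (Pool.H2.Sp.el N) (j - 1)) (n + P.b1)) r
      ≤ 6 * (N : ℝ) ^ 2 / (Pool.H2.Sp.el N : ℝ) ^ 20 := by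
  have hl : 2 ≤ Pool.H2.Sp.el N := hB.2.2.2
  have hlN : 2 * N / Pool.H2.Sp.el N ^ 20 ≤ N := by
    refine Nat.div_le_of_le_mul ?_
    have h1 : 2 ≤ Pool.H2.Sp.el N ^ 20 := by
      calc 2 ≤ 2 ^ 20 := by norm_num
        _ ≤ Pool.H2.Sp.el N ^ 20 := Nat.pow_le_pow_left hl _
    exact Nat.mul_le_mul_right N h1
  have he : 2 * (N : ℝ) * (3 * N / (Pool.H2.Sp.el N : ℝ) ^ 20) =
      6 * (N : ℝ) ^ 2 / (Pool.H2.Sp.el N : ℝ) ^ 20 := by ring
  have hmono : ∀ (g : ℕ → ℕ) (n : ℕ), n ∈ cls P j₀ N j →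
      (((cls P j₀ N j).filter (fun n' => q n' = q n ∧ g n' = g n)).card : ℝ) ≤
        (((cls P j₀ N j).filter (fun n' => qn P N j n' = qn P N j n ∧ g n' = g n)).card : ℝ) := by
    intro g n hn
    have h1 : (cls P j₀ N j).filter (fun n' => q n' = q n ∧ g n' = g n) ⊆
        (cls P j₀ N j).filter (fun n' => qn P N j n' = qn P N j n ∧ g n' = g n) := by
      intro x hx
      rw [mem_filter] at hx ⊢
      exact ⟨hx.1, hq n hn x hx.1 hx.2.1, hx.2.2⟩
    exact_mod_cast Finset.card_le_card h1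
  constructor
  · rw [← he]
    refine cntc_gen N _ (cls_sub P j₀ N j) q _ _ r P.b1 hr _ (by positivity) (fun n hn => ?_)
      (fun n _ => ro_dvd _ _)
      (fun n hn => (ro_bound P hP j₀ N j hj₀ hj hB n hn).1.2.trans hlN)
    refine le_trans ?_ (card_pair1 P hP j₀ N j hj₀ hj hB n hn)
    exact mul_le_mul_of_nonneg_right
      (hmono (fun n => ro (zz (Pool.H2.Sp.el N) (j - 1)) (n + P.b2)) n hn) (Nat.cast_nonneg _)
  · rw [← he]
    refine cntc_gen N _ (cls_sub P j₀ N j) q _ _ r P.b2 hr _ (by positivity) (fun n hn => ?_)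
      (fun n _ => ro_dvd _ _)
      (fun n hn => (ro_bound P hP j₀ N j hj₀ hj hB n hn).2.2.trans hlN)
    refine le_trans ?_ (card_pair2 P hP j₀ N j hj₀ hj hB n hn)
    exact mul_le_mul_of_nonneg_right
      (hmono (fun n => ro (zz (Pool.H2.Sp.el N) (j - 1)) (n + P.b1)) n hn) (Nat.cast_nonneg _)

end Pool.H2.TA
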