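import Mathlib
import Pool.Agent.H2.TA.ClsP
import Pool.Agent.H2.TA.Appr

/-!
Module DEC: the summand on a class, approximated.

Put `M0 = N + (b1 + b2)`, `y = zz (el N) (j-1)`. Apply `appr` to `g` and to `g'` and get `s, x` and `s', x'`.
For `n ∈ cls`: `term = F(qn) F((n+b0)/qn) u n ∏ F(c s) · g(smo (n+b1)) g(ro (n+b1)) g'(smo (n+b2)) g'(ro (n+b2))`
(`F_split`, `mult_split`) `= F(qn) * UU * (four factors)`, and replacing the four factors one after the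
other by `wv s (n+b1)`, `ev x (ro ..)`, `wv s' (n+b2)`, `ev x' (ro ..)` costs at most
`2 log₂(M0)/M + 2/M` (all factors have norm `≤ 1`; `1 ≤ n + b1 ≤ M0` since `n < N`; rough parts `≤ R` by `hR`).
-/

set_option autoImplicit false

open Finset MeasureTheory ProbabilityTheory

namespace Pool.H2.TA

open Pool.H2.Rand

variable {Ω : Type} [mΩ : MeasurableSpace Ω] {μ : Measure Ω} {ι : Type}
  {F : ι → Ω → ArithmeticFunction ℂ}

private lemma dec_two {a b a' b' : ℂ} {x y : ℝ} (ha' : ‖a'‖ ≤ 1) (hb : ‖b‖ ≤ 1)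
    (h : ‖a - b‖ ≤ x) (h' : ‖a' - b'‖ ≤ y) : ‖a * a' - b * b'‖ ≤ x + y := by
  have e : a * a' - b * b' = (a - b) * a' + b * (a' - b') := by ring
  rw [e]
  refine (norm_add_le _ _).trans ?_
  rw [norm_mul, norm_mul]
  have h1 : ‖a - b‖ * ‖a'‖ ≤ ‖a - b‖ := mul_le_of_le_one_right (norm_nonneg _) ha'
  have h2 : ‖b‖ * ‖a' - b'‖ ≤ ‖a' - b'‖ := mul_le_of_le_one_left (norm_nonneg _) hb
  linarith

private lemma dec_norm {a b : ℂ} (ha : ‖a‖ ≤ 1) (hb : ‖b‖ ≤ 1) : ‖a * b‖ ≤ 1 := by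
  rw [norm_mul]
  exact mul_le_one₀ ha (norm_nonneg _) hb

theorem approx_cls {σ : Type} [Fintype σ] (hF : RandMult μ F) (P : Par σ) (hP : P.Ok)
    (i₀ : ι) (c : σ → ι) (u : ℕ → ℂ) (hu : ∀ n, ‖u n‖ ≤ 1) (j₀ N j M R : ℕ) (hM : 1 ≤ M)
    (hR : ∀ n ∈ cls P j₀ N j, ro (zz (Pool.H2.Sp.el N) (j - 1)) (n + P.b1) ≤ R ∧
      ro (zz (Pool.H2.Sp.el N) (j - 1)) (n + P.b2) ≤ R) (ω : Ω)
    (g g' : ArithmeticFunction ℂ) (hg : g.IsMultiplicative) (hgb : ∀ n, ‖g n‖ ≤ 1)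
    (hg' : g'.IsMultiplicative) (hgb' : ∀ n, ‖g' n‖ ≤ 1) :
    ∃ (s s' : PP (zz (Pool.H2.Sp.el N) (j - 1)) (N + (P.b1 + P.b2)) → net M)
      (x x' : Fin (R + 1) → net M), ∀ n ∈ cls P j₀ N j,
      ‖term F P i₀ c u ω g g' n - F i₀ ω (qn P N j n) * UU F P i₀ c u N j n ω
        * (wv s (n + P.b1) * wv s' (n + P.b2))
        * ev x (ro (zz (Pool.H2.Sp.el N) (j - 1)) (n + P.b1))
        * ev x' (ro (zz (Pool.H2.Sp.el N) (j - 1)) (n + P.b2))‖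
        ≤ (2 * ((Nat.log 2 (N + (P.b1 + P.b2)) : ℕ) : ℝ) + 2) / M := by
  set y := zz (Pool.H2.Sp.el N) (j - 1) with hy
  obtain ⟨s, x, hs, hx⟩ := appr g hg hgb y (N + (P.b1 + P.b2)) M R hM
  obtain ⟨s', x', hs', hx'⟩ := appr g' hg' hgb' y (N + (P.b1 + P.b2)) M R hM
  refine ⟨s, s', x, x', ?_⟩
  intro n hn
  have hnN : n < N := (mem_cls.1 hn).1
  have hp1 := hP.p1
  have hp2 := hP.p2
  obtain ⟨hR1, hR2⟩ := hR n hn
  have h1 := hs (n + P.b1) (by omega) (by omega)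
  have h2 := hs' (n + P.b2) (by omega) (by omega)
  have h3 := hx _ hR1
  have h4 := hx' _ hR2
  have e0 : term F P i₀ c u ω g g' n = F i₀ ω (qn P N j n) * UU F P i₀ c u N j n ω
      * (g (smo y (n + P.b1)) * g' (smo y (n + P.b2))) * g (ro y (n + P.b1))
      * g' (ro y (n + P.b2)) := by
    unfold term UU
    rw [F_split P j₀ N j n hn (F i₀ ω) (hF.mul i₀ ω), mult_split g hg y (n + P.b1) (by omega),
      mult_split g' hg' y (n + P.b2) (by omega)]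
    ring
  have hA : ‖F i₀ ω (qn P N j n) * UU F P i₀ c u N j n ω‖ ≤ 1 := by
    unfold UU
    refine dec_norm (hF.bd _ _ _) (dec_norm (dec_norm (hF.bd _ _ _) (hu n)) ?_)
    rw [norm_prod]
    exact Finset.prod_le_one (fun _ _ => norm_nonneg _) (fun _ _ => hF.bd _ _ _)
  rw [e0]
  set A := F i₀ ω (qn P N j n) * UU F P i₀ c u N j n ω with hAdef
  have k1 : ‖g (smo y (n + P.b1)) * g' (smo y (n + P.b2))
      - wv s (n + P.b1) * wv s' (n + P.b2)‖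
      ≤ ((Nat.log 2 (N + (P.b1 + P.b2)) : ℕ) : ℝ) / M
        + ((Nat.log 2 (N + (P.b1 + P.b2)) : ℕ) : ℝ) / M :=
    dec_two (hgb' _) (wv_norm _ _) h1 h2
  have k2 : ‖A * (g (smo y (n + P.b1)) * g' (smo y (n + P.b2)))
      - A * (wv s (n + P.b1) * wv s' (n + P.b2))‖
      ≤ ((Nat.log 2 (N + (P.b1 + P.b2)) : ℕ) : ℝ) / M
        + ((Nat.log 2 (N + (P.b1 + P.b2)) : ℕ) : ℝ) / M := by
    rw [← mul_sub, norm_mul]
    exact (mul_le_of_le_one_left (norm_nonneg _) hA).trans k1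
  have nB : ‖A * (wv s (n + P.b1) * wv s' (n + P.b2))‖ ≤ 1 :=
    dec_norm hA (dec_norm (wv_norm _ _) (wv_norm _ _))
  have k3 := dec_two (hgb (ro y (n + P.b1))) nB k2 h3
  have k4 := dec_two (hgb' (ro y (n + P.b2))) (dec_norm nB (ev_norm x _)) k3 h4
  refine k4.trans (le_of_eq ?_)
  ring

end Pool.H2.TA
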