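import Mathlib
import Pool.Agent.H2.TA.ClsP

/-!
Module IND: independence of the data at the primes of a block from the coefficient `UU`.

`iind_block`: from `hF.ind` (independence of the data over all primes): reindex by the injective map
`p ↦ ⟨p, prime⟩` (`iIndepFun.precomp`) and compose with the measurable map `b ↦ b (i₀, 1)`
(`iIndepFun.comp`; `p^1 = p`).

`ind_block`: with `Bk` = the set of primes of the block, the sigma algebras `⨆_{p ∈ Bk} comap (comp F p)` and
`⨆_{p ∉ Bk} comap (comp F p)` are independent (`indep_iSup_of_disjoint`, as in `Pool.H2.Rand.indep_sig`,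
RandProb.lean). `F i ω m` is measurable with respect to the second one when no prime of the block divides
`m ≠ 0` (copy of `Pool.H2.Rand.meas_of_not_dvd`: product over the prime factors). For `n ∈ cls` this holds for
`m = (n+b0)/qn` (`qn_cop`; `≠ 0`) and for `m = n + bs s` (definition of `cls`). So the first function (a
product, zero outside the class) is measurable for the second sigma algebra, the second function for the
first one; `IndepFun` from `Indep` (`indep_of_indep_of_le_left/right`, `IndepFun_iff_Indep`).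
-/

set_option autoImplicit false

open Finset MeasureTheory ProbabilityTheory

namespace Pool.H2.TA

open Pool.H2.Rand

variable {Ω : Type} [mΩ : MeasurableSpace Ω] {μ : Measure Ω} {ι : Type}
  {F : ι → Ω → ArithmeticFunction ℂ}

lemma iind_block [IsProbabilityMeasure μ] (hF : RandMult μ F) (Q : ℕ → Prop) (i₀ : ι) (N j : ℕ) :
    iIndepFun (fun (q : blk Q N j) (ω : Ω) => F i₀ ω (q : ℕ)) μ := by
  classical
  set g : blk Q N j → Nat.Primes := fun q => ⟨(q : ℕ), (mem_blk.1 q.2).2.1⟩ with hg
  have hinj : Function.Injective g := by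
    intro a b h
    apply Subtype.ext
    have := congrArg (fun p : Nat.Primes => (p : ℕ)) h
    simpa [hg] using this
  have h1 := hF.ind.precomp hinj
  have h2 := h1.comp (fun _ (b : ι × ℕ → ℂ) => b (i₀, 1)) (fun _ => measurable_pi_apply _)
  have h3 : (fun (q : blk Q N j) (ω : Ω) => F i₀ ω (q : ℕ))
      = fun q => (fun (b : ι × ℕ → ℂ) => b (i₀, 1)) ∘
        (fun (ω : Ω) (x : ι × ℕ) => F x.1 ω (((g q : Nat.Primes) : ℕ) ^ x.2)) := by
    funext q ω
    simp [hg]
  rw [h3]
  exact h2

lemma UU_meas {σ : Type} [Fintype σ] (hF : RandMult μ F) (P : Par σ) (i₀ : ι) (c : σ → ι)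
    (u : ℕ → ℂ) (N j n : ℕ) : Measurable (UU F P i₀ c u N j n) := by
  unfold UU
  apply Measurable.mul
  · exact (hF.meas _ _).mul_const _
  · apply Finset.measurable_fun_prod
    intro s _
    exact hF.meas _ _

lemma UU_norm {σ : Type} [Fintype σ] (hF : RandMult μ F) (P : Par σ) (i₀ : ι) (c : σ → ι)
    (u : ℕ → ℂ) (hu : ∀ n, ‖u n‖ ≤ 1) (N j n : ℕ) (ω : Ω) : ‖UU F P i₀ c u N j n ω‖ ≤ 1 := by
  unfold UU
  rw [norm_mul, norm_mul, norm_prod]
  have h1 : ∏ s, ‖F (c s) ω (n + P.bs s)‖ ≤ 1 :=
    prod_le_one (fun _ _ => norm_nonneg _) (fun _ _ => hF.bd _ _ _)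
  have h0 : 0 ≤ ∏ s, ‖F (c s) ω (n + P.bs s)‖ := prod_nonneg (fun _ _ => norm_nonneg _)
  exact mul_le_one₀ (mul_le_one₀ (hF.bd _ _ _) (norm_nonneg _) (hu _)) h0 h1

/-- sigma algebra generated by the data at the primes of `A` -/
@[reducible] private noncomputable def sigA (F : ι → Ω → ArithmeticFunction ℂ)
    (A : Set Nat.Primes) : MeasurableSpace Ω :=
  ⨆ q ∈ A, MeasurableSpace.comap (comp F q) inferInstance

omit mΩ in
private lemma meas_in (i : ι) (A : Set Nat.Primes) (q : Nat.Primes) (hq : q ∈ A) (k : ℕ) :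
    Measurable[sigA F A] (fun ω => F i ω ((q : ℕ) ^ k)) := by
  have h1 : Measurable[MeasurableSpace.comap (comp F q) inferInstance]
      (fun ω => F i ω ((q : ℕ) ^ k)) := by
    have h2 : Measurable[MeasurableSpace.comap (comp F q) inferInstance] (comp F q) :=
      comap_measurable _
    exact (measurable_pi_apply (i, k)).comp h2
  refine h1.mono ?_ le_rfl
  unfold sigA
  exact le_iSup₂_of_le q hq le_rfl

private lemma meas_all (hF : RandMult μ F) (i : ι) (A : Set Nat.Primes) (m : ℕ) (hm0 : m ≠ 0)
    (hm : ∀ p : Nat.Primes, p ∉ A → ¬ (p : ℕ) ∣ m) :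
    Measurable[sigA F A] (fun ω => F i ω m) := by
  have h1 : (fun ω => F i ω m)
      = fun ω => ∏ q ∈ m.primeFactors, F i ω (q ^ (m.factorization q)) := by
    funext ω
    exact (hF.mul i ω).multiplicative_factorization _ hm0
  rw [h1]
  apply Finset.measurable_fun_prod
  intro q hq
  have hqp := Nat.prime_of_mem_primeFactors hq
  refine meas_in i A ⟨q, hqp⟩ ?_ _
  by_contra hcon
  exact hm ⟨q, hqp⟩ hcon (Nat.dvd_of_mem_primeFactors hq)

theorem ind_block [IsProbabilityMeasure μ] {σ : Type} [Fintype σ] (hF : RandMult μ F) (P : Par σ)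
    (hP : P.Ok) (i₀ : ι) (c : σ → ι) (u : ℕ → ℂ) (j₀ N j : ℕ) :
    IndepFun (fun (ω : Ω) (n : ℕ) => if n ∈ cls P j₀ N j then UU F P i₀ c u N j n ω else 0)
      (fun (ω : Ω) (q : blk P.Q N j) => F i₀ ω (q : ℕ)) μ := by
  classical
  set A : Set Nat.Primes := {p | (p : ℕ) ∈ blk P.Q N j} with hA
  have h1 : iIndep (fun p : Nat.Primes => MeasurableSpace.comap (comp F p) inferInstance) μ :=
    (iIndepFun_iff_iIndep _ _ _).1 hF.ind
  have h2 : Indep (sigA F Aᶜ) (sigA F A) μ :=
    indep_iSup_of_disjoint (fun p => comap_comp_le hF p) h1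
      (S := Aᶜ) (T := A) disjoint_compl_left
  rw [IndepFun_iff_Indep]
  refine indep_of_indep_of_le_left (indep_of_indep_of_le_right h2 ?_) ?_
  · have h3 : Measurable[sigA F A] (fun (ω : Ω) (q : blk P.Q N j) => F i₀ ω (q : ℕ)) := by
      refine @measurable_pi_lambda Ω _ _ (sigA F A) _ _ (fun q => ?_)
      have h4 := meas_in (F := F) i₀ A ⟨(q : ℕ), (mem_blk.1 q.2).2.1⟩ q.2 1
      simpa only [pow_one] using h4
    exact h3.comap_le
  · have h3 : Measurable[sigA F Aᶜ] (fun (ω : Ω) (n : ℕ) =>
        if n ∈ cls P j₀ N j then UU F P i₀ c u N j n ω else 0) := by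
      refine @measurable_pi_lambda Ω _ _ (sigA F Aᶜ) _ _ (fun n => ?_)
      by_cases hn : n ∈ cls P j₀ N j
      · simp only [hn, if_true]
        unfold UU
        have hb0 := hP.p0
        have m1 : Measurable[sigA F Aᶜ] (fun ω => F i₀ ω ((n + P.b0) / qn P N j n)) := by
          apply meas_all hF
          · have hd := qn_dvd P j₀ N j n hn
            have hle := Nat.le_of_dvd (by omega) hd
            have hpr := (mem_blk.1 (qn_mem P j₀ N j n hn)).2.1
            have := Nat.div_pos hle hpr.pos
            omega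
          · intro p hp
            have hp' : (p : ℕ) ∈ blk P.Q N j := by
              by_contra hc
              exact hp hc
            exact qn_cop P j₀ N j n hn _ hp'
        have m2 : Measurable[sigA F Aᶜ] (fun ω => ∏ s, F (c s) ω (n + P.bs s)) := by
          apply Finset.measurable_fun_prod
          intro s _
          apply meas_all hF
          · have := hP.ps s
            omega
          · intro p hp
            have hp' : (p : ℕ) ∈ blk P.Q N j := by
              by_contra hc
              exact hp hc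
            exact (mem_cls.1 hn).2.2.2.2.2.1 _ hp' s
        exact (m1.mul_const _).mul m2
      · simp only [hn, if_false]
        exact measurable_const
    exact h3.comap_le

end Pool.H2.TA
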