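import Mathlib
import Pool.Agent.H2.TA.Cnt

/-!
Module NUMA (short): numerical facts for large `N`. `l = el N = ⌊log N⌋ + 1`, so `log N < l ≤ log N + 1` and `l → ∞`
(`Pool.H2.Sp.log_lt_el`, `el_le`).
`big_ev`: `(log N + 1)^20 ≤ N` eventually (`isLittleO_pow_log_id_atTop` or `Real.isLittleO_pow_log_id_atTop`).
`num1`: `Nat.log 2 (N+b) ≤ log (N+b)/log 2 ≤ 2 (l + 1)` for large `N` (`N + b ≤ 2N`, `1/log 2 ≤ 3/2`), so the left side is
`≤ (4 l + 6)/l^4 ≤ 1/l^2` for `l ≥ 6`.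
-/

set_option autoImplicit false

open Finset Filter Topology

namespace Pool.H2.TA

private lemma el_tendsto : Tendsto (fun N : ℕ => (Pool.H2.Sp.el N : ℝ)) atTop atTop := by
  refine tendsto_atTop_mono (fun N => (Pool.H2.Sp.log_lt_el N).le) ?_
  exact Real.tendsto_log_atTop.comp tendsto_natCast_atTop_atTop

private lemma el_ev (m : ℕ) : ∀ᶠ N : ℕ in atTop, m ≤ Pool.H2.Sp.el N := by
  filter_upwards [el_tendsto.eventually_ge_atTop (m : ℝ)] with N hN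
  exact_mod_cast hN

private lemma pow_ev : ∀ᶠ N : ℕ in atTop, Pool.H2.Sp.el N ^ 20 ≤ N := by
  have h1 : (fun x : ℝ => Real.log x ^ 20) =o[atTop] (id : ℝ → ℝ) := Real.isLittleO_pow_log_id_atTop
  have h2 : ∀ᶠ x : ℝ in atTop, Real.log x ^ 20 ≤ (1 / 2 ^ 20) * x := by
    filter_upwards [h1.bound (c := 1 / 2 ^ 20) (by positivity), eventually_ge_atTop (1 : ℝ)]
      with x hx h1x
    have h3 : ‖Real.log x ^ 20‖ = Real.log x ^ 20 := by
      rw [Real.norm_eq_abs, abs_of_nonneg]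
      have := Real.log_nonneg h1x
      positivity
    rw [h3] at hx
    simpa [abs_of_nonneg (by linarith : (0 : ℝ) ≤ x)] using hx
  have h4 := tendsto_natCast_atTop_atTop.eventually h2
  filter_upwards [h4, (Real.tendsto_log_atTop.comp
    (tendsto_natCast_atTop_atTop (R := ℝ))).eventually_ge_atTop 1] with N hN hl
  have hl' : 1 ≤ Real.log (N : ℝ) := hl
  have h5 : (Pool.H2.Sp.el N : ℝ) ≤ 2 * Real.log N := by
    have := Pool.H2.Sp.el_le N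
    linarith
  have h6 : (Pool.H2.Sp.el N : ℝ) ^ 20 ≤ (2 * Real.log N) ^ 20 :=
    pow_le_pow_left₀ (Nat.cast_nonneg _) h5 20
  have h7 : (2 * Real.log (N : ℝ)) ^ 20 = 2 ^ 20 * Real.log N ^ 20 := by rw [mul_pow]
  have h8 : (2 : ℝ) ^ 20 * Real.log N ^ 20 ≤ 2 ^ 20 * ((1 / 2 ^ 20) * N) :=
    mul_le_mul_of_nonneg_left hN (by positivity)
  have h9 : (Pool.H2.Sp.el N : ℝ) ^ 20 ≤ (N : ℝ) := by
    rw [h7] at h6
    refine h6.trans (h8.trans (le_of_eq ?_))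
    field_simp
  exact_mod_cast h9

lemma big_ev {σ : Type} (P : Par σ) : ∀ᶠ N : ℕ in atTop, Big P N := by
  filter_upwards [el_ev (P.b0 + P.b1 + P.b2 + 2), pow_ev, eventually_ge_atTop (P.b0 + P.b1 + P.b2)]
    with N h1 h2 h3
  refine ⟨?_, h2, h3, by omega⟩
  calc P.b0 + P.b1 + P.b2 < Pool.H2.Sp.el N := by omega
    _ ≤ Pool.H2.Sp.el N ^ 20 := Nat.le_self_pow (by norm_num) _

lemma num1 (b : ℕ) : ∀ᶠ N : ℕ in atTop,
    (2 * ((Nat.log 2 (N + b) : ℕ) : ℝ) + 2) / ((Pool.H2.Sp.el N ^ 4 : ℕ) : ℝ)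
      ≤ 1 / (Pool.H2.Sp.el N : ℝ) ^ 2 := by
  filter_upwards [el_ev 6, eventually_ge_atTop b, eventually_ge_atTop 1] with N h6 hb h1
  set l := Pool.H2.Sp.el N with hl
  have hl6 : (6 : ℝ) ≤ (l : ℝ) := by exact_mod_cast h6
  have hlog : Real.log (N : ℝ) < (l : ℝ) := Pool.H2.Sp.log_lt_el N
  have hNR : (1 : ℝ) ≤ (N : ℝ) := by exact_mod_cast h1
  have h2 : ((Nat.log 2 (N + b) : ℕ) : ℝ) * Real.log 2 ≤ Real.log ((N + b : ℕ) : ℝ) := by
    have h3 : 2 ^ Nat.log 2 (N + b) ≤ N + b := Nat.pow_log_le_self 2 (by omega)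
    have h4 : ((2 : ℝ) ^ Nat.log 2 (N + b)) ≤ ((N + b : ℕ) : ℝ) := by exact_mod_cast h3
    have h5 := Real.log_le_log (by positivity) h4
    rwa [Real.log_pow] at h5
  have h3 : Real.log ((N + b : ℕ) : ℝ) ≤ Real.log 2 + Real.log N := by
    rw [← Real.log_mul (by norm_num) (by linarith)]
    refine Real.log_le_log ?_ ?_
    · have : 0 < N + b := by omega
      exact_mod_cast this
    · push_cast
      have : (b : ℝ) ≤ (N : ℝ) := by exact_mod_cast hb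
      linarith
  have hl2 : (0.6931471803 : ℝ) < Real.log 2 := Real.log_two_gt_d9
  have h4 : ((Nat.log 2 (N + b) : ℕ) : ℝ) ≤ 2 * ((l : ℝ) + 1) := by
    have h5 : ((Nat.log 2 (N + b) : ℕ) : ℝ) * Real.log 2 ≤ Real.log 2 + l := by linarith
    have h7 : (0 : ℝ) ≤ ((Nat.log 2 (N + b) : ℕ) : ℝ) := Nat.cast_nonneg _
    by_contra hcon
    push_neg at hcon
    have h8 : 2 * ((l : ℝ) + 1) * Real.log 2 < ((Nat.log 2 (N + b) : ℕ) : ℝ) * Real.log 2 :=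
      mul_lt_mul_of_pos_right hcon (by linarith)
    nlinarith
  push_cast
  rw [div_le_div_iff₀ (by positivity) (by positivity)]
  have h5 : 2 * ((Nat.log 2 (N + b) : ℕ) : ℝ) + 2 ≤ (l : ℝ) ^ 2 := by nlinarith
  calc (2 * ((Nat.log 2 (N + b) : ℕ) : ℝ) + 2) * (l : ℝ) ^ 2 ≤ (l : ℝ) ^ 2 * (l : ℝ) ^ 2 :=
        mul_le_mul_of_nonneg_right h5 (by positivity)
    _ = 1 * (l : ℝ) ^ 4 := by ring

end Pool.H2.TA
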