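import Mathlib
import Pool.Agent.H2.TA.Cnt

/-!
Module NUMB (short): `l = el N`, `log N < l` (`Pool.H2.Sp.log_lt_el`), so `N ≤ e^l`, `l → ∞`.
With `R = 2N/l^20` (natural division; `1 ≤ R ≤ N` for large `N`), for large `l`:
`2 (R+1) ≤ 4 N ≤ 4 e^l ≤ e^(l+2)`; `0 ≤ log R ≤ log N ≤ l`, `(1 + log R)^2 ≤ (2 l)^2`;
so `(1 + log R)^2 (8 (l+2) (6 N^2/l^20)) ≤ 4 l^2 * 16 l * 6 N^2/l^20 = 384 N^2/l^17`, and the
left side is `≤ e^(l+2) (384 N^2/l^17)^(l+2) = (384 e N^2/l^17)^(l+2) ≤ (N^2/l^4)^(l+2) = (N/l^2)^(2(l+2))` as soon as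
`384 e ≤ l^13` (`l ≥ 2`).
-/

set_option autoImplicit false

open Finset Filter Topology

namespace Pool.H2.TA

lemma num2 : ∀ᶠ N : ℕ in atTop,
    2 * (((2 * N / Pool.H2.Sp.el N ^ 20 : ℕ) : ℝ) + 1)
      * ((1 + Real.log ((2 * N / Pool.H2.Sp.el N ^ 20 : ℕ) : ℝ)) ^ 2
        * (8 * ((Pool.H2.Sp.el N + 2 : ℕ) : ℝ) * (6 * (N : ℝ) ^ 2 / (Pool.H2.Sp.el N : ℝ) ^ 20)))
          ^ (Pool.H2.Sp.el N + 2)
      ≤ ((N : ℝ) / (Pool.H2.Sp.el N : ℝ) ^ 2) ^ (2 * (Pool.H2.Sp.el N + 2)) := by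
  filter_upwards [eventually_ge_atTop 3] with N hN
  have hl : Real.log N < (Pool.H2.Sp.el N : ℝ) := Pool.H2.Sp.log_lt_el N
  generalize Pool.H2.Sp.el N = l at hl ⊢
  have hN3 : (3 : ℝ) ≤ N := by exact_mod_cast hN
  have hNpos : (0 : ℝ) < N := by linarith
  have he1 := Real.exp_one_gt_d9
  have he2 := Real.exp_one_lt_d9
  have hlog1 : 1 < Real.log N := by
    rw [Real.lt_log_iff_exp_lt hNpos]
    linarith
  have hl1 : (1 : ℝ) < l := hlog1.trans hl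
  have hl2n : 2 ≤ l := by
    have : 1 < l := by exact_mod_cast hl1
    omega
  have hl2 : (2 : ℝ) ≤ l := by exact_mod_cast hl2n
  have hlpos : (0 : ℝ) < l := by linarith
  have hRN : 2 * N / l ^ 20 ≤ N := by
    apply Nat.div_le_of_le_mul
    apply Nat.mul_le_mul_right
    calc 2 = 2 ^ 1 := by norm_num
      _ ≤ 2 ^ 20 := by norm_num
      _ ≤ l ^ 20 := Nat.pow_le_pow_left hl2n 20
  generalize 2 * N / l ^ 20 = R at hRN ⊢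
  have hRNr : (R : ℝ) ≤ N := by exact_mod_cast hRN
  have hR0 : (0 : ℝ) ≤ R := Nat.cast_nonneg R
  -- the logarithm of `R`
  have hlogR0 : 0 ≤ Real.log (R : ℝ) := Real.log_natCast_nonneg R
  have hlogR : Real.log (R : ℝ) ≤ l := by
    rcases Nat.eq_zero_or_pos R with h | h
    · subst h
      simp
    · have h1 : Real.log (R : ℝ) ≤ Real.log N :=
        Real.log_le_log (by exact_mod_cast h) hRNr
      linarith
  have h1 : (1 + Real.log (R : ℝ)) ^ 2 ≤ (2 * l) ^ 2 := by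
    apply pow_le_pow_left₀ (by linarith)
    linarith
  -- the first factor
  have hNe : (N : ℝ) ≤ Real.exp 1 ^ l := by
    have h2 : Real.exp (Real.log N) ≤ Real.exp l := Real.exp_le_exp.2 hl.le
    rw [Real.exp_log hNpos] at h2
    rw [← Real.exp_nat_mul, mul_one]
    exact h2
  have h3 : 2 * ((R : ℝ) + 1) ≤ Real.exp 1 ^ (l + 2) := by
    have h4 : (4 : ℝ) ≤ Real.exp 1 ^ 2 := by nlinarith
    calc 2 * ((R : ℝ) + 1) ≤ N * 4 := by linarith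
      _ ≤ Real.exp 1 ^ l * Real.exp 1 ^ 2 :=
        mul_le_mul hNe h4 (by norm_num) (by positivity)
      _ = Real.exp 1 ^ (l + 2) := by rw [pow_add]
  -- the second factor
  have h5 : (1 + Real.log (R : ℝ)) ^ 2 * (8 * ((l + 2 : ℕ) : ℝ) * (6 * (N : ℝ) ^ 2 / (l : ℝ) ^ 20))
      ≤ 384 * (N : ℝ) ^ 2 / (l : ℝ) ^ 17 := by
    have h6 : 8 * ((l + 2 : ℕ) : ℝ) ≤ 16 * l := by
      push_cast
      linarith
    have h7 : 8 * ((l + 2 : ℕ) : ℝ) * (6 * (N : ℝ) ^ 2 / (l : ℝ) ^ 20) ≤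
        16 * l * (6 * (N : ℝ) ^ 2 / (l : ℝ) ^ 20) :=
      mul_le_mul_of_nonneg_right h6 (by positivity)
    calc (1 + Real.log (R : ℝ)) ^ 2 * (8 * ((l + 2 : ℕ) : ℝ) * (6 * (N : ℝ) ^ 2 / (l : ℝ) ^ 20))
        ≤ (2 * l) ^ 2 * (16 * l * (6 * (N : ℝ) ^ 2 / (l : ℝ) ^ 20)) :=
          mul_le_mul h1 h7 (by positivity) (by positivity)
      _ = 384 * (N : ℝ) ^ 2 / (l : ℝ) ^ 17 := by
          field_simp
          ring
  have h5' : 0 ≤ (1 + Real.log (R : ℝ)) ^ 2 *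
      (8 * ((l + 2 : ℕ) : ℝ) * (6 * (N : ℝ) ^ 2 / (l : ℝ) ^ 20)) := by positivity
  have h8 : Real.exp 1 * (384 * (N : ℝ) ^ 2 / (l : ℝ) ^ 17) ≤ ((N : ℝ) / (l : ℝ) ^ 2) ^ 2 := by
    have h9 : (2 : ℝ) ^ 13 ≤ (l : ℝ) ^ 13 := pow_le_pow_left₀ (by norm_num) hl2 13
    have h10 : Real.exp 1 * 384 ≤ (l : ℝ) ^ 13 := by
      refine le_trans ?_ h9
      norm_num
      linarith
    have h11 : ((N : ℝ) / (l : ℝ) ^ 2) ^ 2 = (l : ℝ) ^ 13 * ((N : ℝ) ^ 2 / (l : ℝ) ^ 17) := by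
      field_simp
    rw [h11]
    have h12 : Real.exp 1 * (384 * (N : ℝ) ^ 2 / (l : ℝ) ^ 17) =
        (Real.exp 1 * 384) * ((N : ℝ) ^ 2 / (l : ℝ) ^ 17) := by ring
    rw [h12]
    exact mul_le_mul_of_nonneg_right h10 (by positivity)
  calc 2 * ((R : ℝ) + 1) * ((1 + Real.log (R : ℝ)) ^ 2
        * (8 * ((l + 2 : ℕ) : ℝ) * (6 * (N : ℝ) ^ 2 / (l : ℝ) ^ 20))) ^ (l + 2)
      ≤ Real.exp 1 ^ (l + 2) * (384 * (N : ℝ) ^ 2 / (l : ℝ) ^ 17) ^ (l + 2) :=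
        mul_le_mul h3 (pow_le_pow_left₀ h5' h5 _) (pow_nonneg h5' _) (by positivity)
    _ = (Real.exp 1 * (384 * (N : ℝ) ^ 2 / (l : ℝ) ^ 17)) ^ (l + 2) := by rw [mul_pow]
    _ ≤ (((N : ℝ) / (l : ℝ) ^ 2) ^ 2) ^ (l + 2) := pow_le_pow_left₀ (by positivity) h8 _
    _ = ((N : ℝ) / (l : ℝ) ^ 2) ^ (2 * (l + 2)) := by rw [← pow_mul]

end Pool.H2.TA
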