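import Mathlib
import Pool.Agent.H2.TA.Def

/-!
Module NUMC (short): the elements of a block are distinct integers `q > z = zz l j ≥ 1` (`l = el N ≥ 1`),
and `∑_{z < q ≤ N} 1/q^2 ≤ 2/z` (`sum_Ioo_inv_sq_le`, `sum_Ioc_inv_sq_le_sub`). Turn the sum over the subtype into
a sum over the finset by `Finset.sum_coe_sort` and enlarge it to `Ioc z N` (`mem_blk`).
-/

set_option autoImplicit false

open Finset Filter Topology

namespace Pool.H2.TA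

lemma num3 (Q : ℕ → Prop) (N j : ℕ) :
    ∑ q : blk Q N j, (2 * (N : ℝ) / ((q : ℕ) : ℝ)) ^ 2
      ≤ 8 * (N : ℝ) ^ 2 / (zz (Pool.H2.Sp.el N) j : ℝ) := by
  have hz : 0 < zz (Pool.H2.Sp.el N) j := by
    unfold zz
    exact pow_pos (Pool.H2.Sp.el_pos N) _
  set z := zz (Pool.H2.Sp.el N) j with hzdef
  have hzR : (0 : ℝ) < (z : ℝ) := by exact_mod_cast hz
  have h1 : ∑ q : blk Q N j, (2 * (N : ℝ) / ((q : ℕ) : ℝ)) ^ 2
      = ∑ q ∈ blk Q N j, (2 * (N : ℝ) / (q : ℝ)) ^ 2 :=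
    Finset.sum_coe_sort (blk Q N j) (fun q : ℕ => (2 * (N : ℝ) / (q : ℝ)) ^ 2)
  have h2 : ∑ q ∈ blk Q N j, (2 * (N : ℝ) / (q : ℝ)) ^ 2
      ≤ ∑ q ∈ Ioo z (N + 1), (2 * (N : ℝ) / (q : ℝ)) ^ 2 := by
    refine Finset.sum_le_sum_of_subset_of_nonneg ?_ (fun i _ _ => by positivity)
    intro q hq
    have h := mem_blk.1 hq
    refine mem_Ioo.2 ⟨h.2.2.2.1, ?_⟩
    have := h.1.2
    omega
  have h3 : ∑ q ∈ Ioo z (N + 1), (2 * (N : ℝ) / (q : ℝ)) ^ 2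
      = 4 * (N : ℝ) ^ 2 * ∑ q ∈ Ioo z (N + 1), ((q : ℝ) ^ 2)⁻¹ := by
    rw [Finset.mul_sum]
    refine Finset.sum_congr rfl (fun q _ => ?_)
    rw [div_pow, div_eq_mul_inv]
    ring
  have h4 : ∑ q ∈ Ioo z (N + 1), ((q : ℝ) ^ 2)⁻¹ ≤ 2 / ((z : ℝ) + 1) :=
    sum_Ioo_inv_sq_le z (N + 1)
  have h5 : 2 / ((z : ℝ) + 1) ≤ 2 / (z : ℝ) :=
    div_le_div_of_nonneg_left (by norm_num) hzR (by linarith)
  rw [h1]
  refine h2.trans ?_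
  rw [h3]
  have h6 : 4 * (N : ℝ) ^ 2 * ∑ q ∈ Ioo z (N + 1), ((q : ℝ) ^ 2)⁻¹
      ≤ 4 * (N : ℝ) ^ 2 * (2 / (z : ℝ)) :=
    mul_le_mul_of_nonneg_left (h4.trans h5) (by positivity)
  refine h6.trans (le_of_eq ?_)
  ring

end Pool.H2.TA
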