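import Mathlib
import Pool.Agent.H2.TA.Appr
import Pool.Agent.H2.TA.Cnt

/-!
Module NUMD: `l = el N`, `log N < l` (`Pool.H2.Sp.log_lt_el`), `l → ∞`. `y = zz l (j-1) ≥ 1`, `zz l j = y * l^20`.

`card net ≤ (4 l^4 + 1)^2 ≤ e^(10 l)` (`net_card`; `4 l^4 + 1 ≤ 5 l^4 ≤ e^(5 l)`),
`card PP ≤ y (log₂(N+b)+1) ≤ 4 y l` for large `N` (`PP_card`; `log₂(N+b) ≤ log(2N)/log 2 ≤ 2 (l+1)`), so the
first factor is `≤ exp (2 * 4 y l * 10 l) = exp (80 y l^2)`. The exponent in the second factor is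
`-(N/l^2)^2/(64 N^2/zz l j) = - zz l j/(64 l^4) = - y l^16/64`. For `l ≥ 2` we have `l^14 ≥ 64 * 83`, so
`80 y l^2 - y l^16/64 ≤ - 3 y l^2 ≤ - 3 l ≤ - 3 log N`, which gives `≤ N^(-3)`.
-/

set_option autoImplicit false

open Finset Filter Topology

namespace Pool.H2.TA

private lemma el_evD (m : ℕ) : ∀ᶠ N : ℕ in atTop, m ≤ Pool.H2.Sp.el N := by
  have h : Tendsto (fun N : ℕ => (Pool.H2.Sp.el N : ℝ)) atTop atTop := by
    refine tendsto_atTop_mono (fun N => (Pool.H2.Sp.log_lt_el N).le) ?_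
    exact Real.tendsto_log_atTop.comp tendsto_natCast_atTop_atTop
  filter_upwards [h.eventually_ge_atTop (m : ℝ)] with N hN
  exact_mod_cast hN

private lemma log2_le (N b : ℕ) (hb : b ≤ N) (h1 : 1 ≤ N) :
    ((Nat.log 2 (N + b) : ℕ) : ℝ) ≤ 2 * ((Pool.H2.Sp.el N : ℝ) + 1) := by
  have hl1 : (0 : ℝ) ≤ (Pool.H2.Sp.el N : ℝ) := Nat.cast_nonneg _
  have hlog : Real.log (N : ℝ) < (Pool.H2.Sp.el N : ℝ) := Pool.H2.Sp.log_lt_el N
  set l := Pool.H2.Sp.el N with hl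
  have hNR : (1 : ℝ) ≤ (N : ℝ) := by exact_mod_cast h1
  have h2 : ((Nat.log 2 (N + b) : ℕ) : ℝ) * Real.log 2 ≤ Real.log ((N + b : ℕ) : ℝ) := by
    have h3 : 2 ^ Nat.log 2 (N + b) ≤ N + b := Nat.pow_log_le_self 2 (by omega)
    have h4 : ((2 : ℝ) ^ Nat.log 2 (N + b)) ≤ ((N + b : ℕ) : ℝ) := by exact_mod_cast h3
    have h5 := Real.log_le_log (by positivity) h4
    rwa [Real.log_pow] at h5
  have h3 : Real.log ((N + b : ℕ) : ℝ) ≤ Real.log 2 + Real.log N := by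
    rw [← Real.log_mul (by norm_num) (by linarith)]
    refine Real.log_le_log ?_ ?_
    · have : 0 < N + b := by omega
      exact_mod_cast this
    · push_cast
      have : (b : ℝ) ≤ (N : ℝ) := by exact_mod_cast hb
      linarith
  have hl2 : (0.6931471803 : ℝ) < Real.log 2 := Real.log_two_gt_d9
  have h5 : ((Nat.log 2 (N + b) : ℕ) : ℝ) * Real.log 2 ≤ Real.log 2 + l := by linarith
  by_contra hcon
  push_neg at hcon
  have h8 : 2 * ((l : ℝ) + 1) * Real.log 2 < ((Nat.log 2 (N + b) : ℕ) : ℝ) * Real.log 2 :=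
    mul_lt_mul_of_pos_right hcon (by linarith)
  nlinarith

private lemma net_exp (l : ℕ) (hl : 1 ≤ l) :
    ((net (l ^ 4)).card : ℝ) ≤ Real.exp (10 * (l : ℝ)) := by
  have h1 : ((net (l ^ 4)).card : ℝ) ≤ (4 * (l : ℝ) ^ 4 + 1) ^ 2 := by
    have := net_card (l ^ 4)
    exact_mod_cast this
  have hlR : (1 : ℝ) ≤ (l : ℝ) := by exact_mod_cast hl
  have h2 : 4 * (l : ℝ) ^ 4 + 1 ≤ Real.exp (5 * (l : ℝ)) := by
    have h3 : (l : ℝ) ≤ Real.exp ((l : ℝ) - 1) := by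
      have := Real.add_one_le_exp ((l : ℝ) - 1)
      linarith
    have h4 : (l : ℝ) ^ 4 ≤ Real.exp ((l : ℝ) - 1) ^ 4 := pow_le_pow_left₀ (by linarith) h3 4
    have h5 : Real.exp ((l : ℝ) - 1) ^ 4 = Real.exp (4 * ((l : ℝ) - 1)) := by
      rw [← Real.exp_nat_mul]
      norm_num
    have h6 : (1 : ℝ) ≤ (l : ℝ) ^ 4 := one_le_pow₀ hlR
    have h7 : (5 : ℝ) ≤ Real.exp 4 := by
      have := Real.add_one_le_exp (4 : ℝ)
      linarith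
    have h8 : Real.exp 4 * Real.exp (4 * ((l : ℝ) - 1)) ≤ Real.exp (5 * (l : ℝ)) := by
      rw [← Real.exp_add]
      exact Real.exp_le_exp.2 (by linarith)
    have h9 : 5 * Real.exp (4 * ((l : ℝ) - 1)) ≤ Real.exp 4 * Real.exp (4 * ((l : ℝ) - 1)) :=
      mul_le_mul_of_nonneg_right h7 (Real.exp_pos _).le
    have h10 : 4 * (l : ℝ) ^ 4 + 1 ≤ 5 * Real.exp (4 * ((l : ℝ) - 1)) := by
      rw [h5] at h4
      linarith
    linarith
  calc ((net (l ^ 4)).card : ℝ) ≤ (4 * (l : ℝ) ^ 4 + 1) ^ 2 := h1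
    _ ≤ Real.exp (5 * (l : ℝ)) ^ 2 := pow_le_pow_left₀ (by positivity) h2 2
    _ = Real.exp (10 * (l : ℝ)) := by
        rw [← Real.exp_nat_mul]
        congr 1
        push_cast
        ring

private lemma numD_aux (l y N c d : ℕ) (z : ℝ) (h2 : 2 ≤ l) (hy1 : 1 ≤ y) (h1 : 1 ≤ N)
    (hlog : Real.log (N : ℝ) < (l : ℝ)) (hc : (c : ℝ) ≤ Real.exp (10 * (l : ℝ)))
    (hPP : (d : ℝ) ≤ 4 * (y : ℝ) * l) (hz : z = (y : ℝ) * (l : ℝ) ^ 20) :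
    ((c : ℝ) ^ d) ^ 2 * Real.exp (-((N : ℝ) / (l : ℝ) ^ 2) ^ 2 / (8 * (8 * (N : ℝ) ^ 2 / z)))
      ≤ 1 / (N : ℝ) ^ 3 := by
  have hl2 : (2 : ℝ) ≤ (l : ℝ) := by exact_mod_cast h2
  have hN : (1 : ℝ) ≤ (N : ℝ) := by exact_mod_cast h1
  have hyR : (1 : ℝ) ≤ (y : ℝ) := by exact_mod_cast hy1
  have hfirst : ((c : ℝ) ^ d) ^ 2 ≤ Real.exp (80 * (y : ℝ) * (l : ℝ) ^ 2) := by
    have h3 : (c : ℝ) ^ d ≤ Real.exp (10 * (l : ℝ)) ^ d :=
      pow_le_pow_left₀ (Nat.cast_nonneg _) hc _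
    have h4 : Real.exp (10 * (l : ℝ)) ^ d = Real.exp ((d : ℝ) * (10 * (l : ℝ))) := by
      rw [← Real.exp_nat_mul]
    have h5 : Real.exp ((d : ℝ) * (10 * (l : ℝ))) ≤ Real.exp (40 * (y : ℝ) * (l : ℝ) ^ 2) := by
      refine Real.exp_le_exp.2 ?_
      have h6 : (d : ℝ) * (10 * (l : ℝ)) ≤ (4 * (y : ℝ) * l) * (10 * (l : ℝ)) :=
        mul_le_mul_of_nonneg_right hPP (by linarith)
      linarith
    have h6 : ((c : ℝ) ^ d) ^ 2 ≤ Real.exp (40 * (y : ℝ) * (l : ℝ) ^ 2) ^ 2 :=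
      pow_le_pow_left₀ (by positivity) (h3.trans (h4.le.trans h5)) 2
    refine h6.trans (le_of_eq ?_)
    rw [← Real.exp_nat_mul]
    congr 1
    push_cast
    ring
  have hsec : -((N : ℝ) / (l : ℝ) ^ 2) ^ 2 / (8 * (8 * (N : ℝ) ^ 2 / z))
      = -((y : ℝ) * (l : ℝ) ^ 16 / 64) := by
    rw [hz]
    have hl0 : (l : ℝ) ≠ 0 := by linarith
    have hy0 : (y : ℝ) ≠ 0 := by linarith
    have hN0 : (N : ℝ) ≠ 0 := by linarith
    field_simp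
    ring
  rw [hsec]
  have hmain : 80 * (y : ℝ) * (l : ℝ) ^ 2 + -((y : ℝ) * (l : ℝ) ^ 16 / 64)
      ≤ -(3 * Real.log N) := by
    have h14 : (2 : ℝ) ^ 14 ≤ (l : ℝ) ^ 14 := pow_le_pow_left₀ (by norm_num) hl2 14
    have h3 : (l : ℝ) ^ 2 * (64 * 83) ≤ (l : ℝ) ^ 16 := by
      calc (l : ℝ) ^ 2 * (64 * 83) ≤ (l : ℝ) ^ 2 * (l : ℝ) ^ 14 :=
            mul_le_mul_of_nonneg_left (by norm_num at h14 ⊢; linarith) (by positivity)
        _ = (l : ℝ) ^ 16 := by ring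
    have h4 : (y : ℝ) * ((l : ℝ) ^ 2 * (64 * 83)) ≤ (y : ℝ) * (l : ℝ) ^ 16 :=
      mul_le_mul_of_nonneg_left h3 (by linarith)
    have h5 : (l : ℝ) ≤ (y : ℝ) * (l : ℝ) ^ 2 := by
      have h6 : (l : ℝ) ≤ (l : ℝ) ^ 2 := by nlinarith
      have h7 : 1 * (l : ℝ) ^ 2 ≤ (y : ℝ) * (l : ℝ) ^ 2 :=
        mul_le_mul_of_nonneg_right hyR (by positivity)
      linarith
    linarith
  calc ((c : ℝ) ^ d) ^ 2 * Real.exp (-((y : ℝ) * (l : ℝ) ^ 16 / 64))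
      ≤ Real.exp (80 * (y : ℝ) * (l : ℝ) ^ 2) * Real.exp (-((y : ℝ) * (l : ℝ) ^ 16 / 64)) :=
        mul_le_mul_of_nonneg_right hfirst (Real.exp_pos _).le
    _ = Real.exp (80 * (y : ℝ) * (l : ℝ) ^ 2 + -((y : ℝ) * (l : ℝ) ^ 16 / 64)) := by
        rw [← Real.exp_add]
    _ ≤ Real.exp (-(3 * Real.log N)) := Real.exp_le_exp.2 hmain
    _ = 1 / (N : ℝ) ^ 3 := by
        rw [Real.exp_neg, show 3 * Real.log (N : ℝ) = Real.log ((N : ℝ) ^ 3) by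
          rw [Real.log_pow]; push_cast; ring, Real.exp_log (by positivity)]
        ring

lemma num4 (b : ℕ) : ∀ᶠ N : ℕ in atTop, ∀ j, 3 ≤ j → j < Pool.H2.Sp.el N →
    ((((net (Pool.H2.Sp.el N ^ 4)).card : ℝ)
        ^ ((PP (zz (Pool.H2.Sp.el N) (j - 1)) (N + b)).card)) ^ 2)
      * Real.exp (-((N : ℝ) / (Pool.H2.Sp.el N : ℝ) ^ 2) ^ 2
          / (8 * (8 * (N : ℝ) ^ 2 / (zz (Pool.H2.Sp.el N) j : ℝ)))) ≤ 1 / (N : ℝ) ^ 3 := by
  filter_upwards [el_evD 2, eventually_ge_atTop b, eventually_ge_atTop 1] with N h2 hb h1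
  intro j hj _
  have hlog : Real.log (N : ℝ) < (Pool.H2.Sp.el N : ℝ) := Pool.H2.Sp.log_lt_el N
  have hlog2 := log2_le N b hb h1
  have hPPc := PP_card (zz (Pool.H2.Sp.el N) (j - 1)) (N + b)
  have hnet := net_exp (Pool.H2.Sp.el N) (by omega)
  generalize (PP (zz (Pool.H2.Sp.el N) (j - 1)) (N + b)).card = d at hPPc ⊢
  generalize (net (Pool.H2.Sp.el N ^ 4)).card = c at hnet ⊢
  generalize Pool.H2.Sp.el N = l at *
  have hl2 : (2 : ℝ) ≤ (l : ℝ) := by exact_mod_cast h2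
  have hy1 : 1 ≤ zz l (j - 1) := by
    unfold zz
    exact Nat.one_le_pow _ _ (by omega)
  have hzj : zz l j = zz l (j - 1) * l ^ 20 := by
    unfold zz
    rw [← pow_add]
    congr 1
    omega
  have hzjR : (zz l j : ℝ) = (zz l (j - 1) : ℝ) * (l : ℝ) ^ 20 := by
    rw [hzj]
    push_cast
    ring
  generalize zz l (j - 1) = y at *
  have hyR : (1 : ℝ) ≤ (y : ℝ) := by exact_mod_cast hy1
  have hPP : (d : ℝ) ≤ 4 * (y : ℝ) * l := by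
    have h3 : (d : ℝ) ≤ (y : ℝ) * (((Nat.log 2 (N + b) : ℕ) : ℝ) + 1) := by
      exact_mod_cast hPPc
    have h4 : (y : ℝ) * (((Nat.log 2 (N + b) : ℕ) : ℝ) + 1) ≤ (y : ℝ) * (4 * l) :=
      mul_le_mul_of_nonneg_left (by linarith) (by linarith)
    linarith
  exact numD_aux l y N c d _ h2 hy1 h1 hlog hnet hPP hzjR

end Pool.H2.TA
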