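import Mathlib

/-!
Module TR1 (linear algebra, Mathlib only): a trace inequality for Hermitian matrices.

`scal`: for real `a, b` and each `r ≤ 2m`,
`a^r b^(2m-r) + a^(2m-r) b^r ≤ |a|^r |b|^(2m-r) + |a|^(2m-r) |b|^r ≤ a^(2m) + b^(2m)`
(the last step: `(|a|^r - |b|^r)(|a|^(2m-r) - |b|^(2m-r)) ≥ 0` and `|a|^(2m) = a^(2m)`). Sum over
`r` in `range (2m+1)` and use `sum_range_reflect` for the second term: twice the left side is at most
`(2m+1)(a^(2m) + b^(2m))`.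

`tr_ineq`: spectral theorem `X = U diag(a) U*`, `Y = W diag(b) W*` (`Matrix.IsHermitian.spectral_theorem`,
eigenvalues real). Put `C = U* D W`. For all `r, s`:
`tr (D X^r D Y^s) = ∑ i j, a_i^r b_j^s ‖C i j‖^2`
(since `D X^r D Y^s = D U diag(a^r) U* D W diag(b^s) W*`, `U* D W = C`, `W* D U = C*`, cyclicity).
In the same way `tr (D D X^(2m)) = ∑ i j, a_i^(2m) ‖C i j‖^2` and
`tr (D D Y^(2m)) = ∑ i j, b_j^(2m) ‖C i j‖^2` (these are the cases `s = 0`, `r = 0`, up to cyclicity of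
the trace: `tr (D X^(2m) D) = tr (D D X^(2m))`). So the claim is `scal` summed with the weights
`‖C i j‖^2 ≥ 0`. It is convenient to prove one lemma
`tr (D X^r D Y^s) = ∑ i, ∑ j, ((a i)^r * (b j)^s * ‖C i j‖^2 : ℝ)` (as complex numbers) first.
-/

set_option autoImplicit false

open Finset Matrix

namespace Pool.H2.TA

private lemma tr1_pair (r s : ℕ) (a b : ℝ) (h : Even (r + s)) :
    a ^ r * b ^ s + a ^ s * b ^ r ≤ a ^ (r + s) + b ^ (r + s) := by
  have h1 : a ^ r * b ^ s ≤ |a| ^ r * |b| ^ s := by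
    rw [← abs_pow, ← abs_pow, ← abs_mul]
    exact le_abs_self _
  have h2 : a ^ s * b ^ r ≤ |a| ^ s * |b| ^ r := by
    rw [← abs_pow, ← abs_pow, ← abs_mul]
    exact le_abs_self _
  have h3 : 0 ≤ (|a| ^ r - |b| ^ r) * (|a| ^ s - |b| ^ s) := by
    rcases le_total |a| |b| with h | h
    · exact mul_nonneg_of_nonpos_of_nonpos
        (sub_nonpos.2 (pow_le_pow_left₀ (abs_nonneg _) h _))
        (sub_nonpos.2 (pow_le_pow_left₀ (abs_nonneg _) h _))
    · exact mul_nonneg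
        (sub_nonneg.2 (pow_le_pow_left₀ (abs_nonneg _) h _))
        (sub_nonneg.2 (pow_le_pow_left₀ (abs_nonneg _) h _))
  have h4 : a ^ (r + s) = |a| ^ r * |a| ^ s := by rw [← pow_add, h.pow_abs]
  have h5 : b ^ (r + s) = |b| ^ r * |b| ^ s := by rw [← pow_add, h.pow_abs]
  rw [h4, h5]
  nlinarith

private lemma tr1_spec {n : Type} [Fintype n] [DecidableEq n] {X : Matrix n n ℂ}
    (hX : X.IsHermitian) : ∃ (U : Matrix n n ℂ) (a : n → ℝ), U * Uᴴ = 1 ∧
      ∀ r : ℕ, X ^ r = U * diagonal (fun i => ((a i ^ r : ℝ) : ℂ)) * Uᴴ := by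
  obtain ⟨V, hV⟩ : ∃ V, V = hX.eigenvectorUnitary := ⟨_, rfl⟩
  have hs := hX.spectral_theorem
  obtain ⟨a, ha⟩ : ∃ a, a = hX.eigenvalues := ⟨_, rfl⟩
  rw [← hV, ← ha, Unitary.conjStarAlgAut_apply, star_eq_conjTranspose] at hs
  clear hV ha
  have h1 : (V : Matrix n n ℂ) * (V : Matrix n n ℂ)ᴴ = 1 := by
    rw [← star_eq_conjTranspose]
    exact Unitary.coe_mul_star_self V
  have h2 : (V : Matrix n n ℂ)ᴴ * (V : Matrix n n ℂ) = 1 := by
    rw [← star_eq_conjTranspose]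
    exact Unitary.coe_star_mul_self V
  refine ⟨V, a, h1, fun r => ?_⟩
  induction r with
  | zero =>
    simp only [pow_zero, Complex.ofReal_one, diagonal_one, Matrix.mul_one]
    exact h1.symm
  | succ r ih =>
    rw [pow_succ, ih]
    conv_lhs => rw [hs]
    have e1 : (V : Matrix n n ℂ) * diagonal (fun i => ((a i ^ r : ℝ) : ℂ)) *
        (V : Matrix n n ℂ)ᴴ * ((V : Matrix n n ℂ) *
          diagonal (RCLike.ofReal ∘ a) * (V : Matrix n n ℂ)ᴴ) =
        (V : Matrix n n ℂ) * (diagonal (fun i => ((a i ^ r : ℝ) : ℂ)) *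
          ((V : Matrix n n ℂ)ᴴ * (V : Matrix n n ℂ)) *
          diagonal (RCLike.ofReal ∘ a)) * (V : Matrix n n ℂ)ᴴ := by
      simp only [Matrix.mul_assoc]
    rw [e1, h2, Matrix.mul_one, diagonal_mul_diagonal]
    congr 3
    funext i
    simp [pow_succ]

private lemma tr1_key {n : Type} [Fintype n] [DecidableEq n] (U V D : Matrix n n ℂ)
    (hD : D.IsHermitian) (p q : n → ℝ) :
    (D * (U * diagonal (fun i => ((p i : ℝ) : ℂ)) * Uᴴ) * D *
      (V * diagonal (fun i => ((q i : ℝ) : ℂ)) * Vᴴ)).trace.re =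
      ∑ j, ∑ i, p i * q j * ‖(Uᴴ * D * V) i j‖ ^ 2 := by
  obtain ⟨C, hC⟩ : ∃ C, C = Uᴴ * D * V := ⟨_, rfl⟩
  have hCH : Cᴴ = Vᴴ * D * U := by
    rw [hC, conjTranspose_mul, conjTranspose_mul, conjTranspose_conjTranspose, hD.eq,
      Matrix.mul_assoc]
  have h1 : (D * (U * diagonal (fun i => ((p i : ℝ) : ℂ)) * Uᴴ) * D *
      (V * diagonal (fun i => ((q i : ℝ) : ℂ)) * Vᴴ)).trace =
      (Cᴴ * diagonal (fun i => ((p i : ℝ) : ℂ)) * C *
        diagonal (fun i => ((q i : ℝ) : ℂ))).trace := by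
    rw [hCH, hC, ← Matrix.mul_assoc (D * (U * diagonal (fun i => ((p i : ℝ) : ℂ)) * Uᴴ) * D),
      Matrix.trace_mul_comm]
    simp only [Matrix.mul_assoc]
  rw [h1, ← hC, Matrix.trace, Complex.re_sum]
  refine sum_congr rfl fun j _ => ?_
  rw [diag_apply, mul_diagonal, Matrix.mul_apply, sum_mul, Complex.re_sum]
  refine sum_congr rfl fun i _ => ?_
  rw [mul_diagonal, conjTranspose_apply, Complex.star_def]
  have h2 : (starRingEnd ℂ) (C i j) * ((p i : ℝ) : ℂ) * C i j * ((q j : ℝ) : ℂ) =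
      ((p i * q j * ‖C i j‖ ^ 2 : ℝ) : ℂ) := by
    have h3 := Complex.conj_mul' (C i j)
    push_cast
    rw [← h3]
    ring
  rw [h2, Complex.ofReal_re]

lemma scal (m : ℕ) (a b : ℝ) :
    ∑ r ∈ range (2 * m + 1), a ^ r * b ^ (2 * m - r) ≤ (2 * m + 1) / 2 * (a ^ (2 * m) + b ^ (2 * m)) := by
  have h1 : ∑ r ∈ range (2 * m + 1), a ^ r * b ^ (2 * m - r) =
      ∑ r ∈ range (2 * m + 1), a ^ (2 * m - r) * b ^ r := by
    rw [← sum_range_reflect]
    refine sum_congr rfl fun r hr => ?_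
    rw [mem_range] at hr
    have e1 : 2 * m + 1 - 1 - r = 2 * m - r := by omega
    have e2 : 2 * m - (2 * m - r) = r := by omega
    rw [e1, e2]
  have h2 : ∑ r ∈ range (2 * m + 1), (a ^ r * b ^ (2 * m - r) + a ^ (2 * m - r) * b ^ r) ≤
      ∑ _r ∈ range (2 * m + 1), (a ^ (2 * m) + b ^ (2 * m)) := by
    refine sum_le_sum fun r hr => ?_
    rw [mem_range] at hr
    have e1 : r + (2 * m - r) = 2 * m := by omega
    have e2 := tr1_pair r (2 * m - r) a b (by rw [e1]; exact even_two_mul m)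
    rwa [e1] at e2
  rw [sum_add_distrib, ← h1, sum_const, card_range, nsmul_eq_mul] at h2
  push_cast at h2
  linarith

theorem tr_ineq {n : Type} [Fintype n] [DecidableEq n] (X Y D : Matrix n n ℂ)
    (hX : X.IsHermitian) (hY : Y.IsHermitian) (hD : D.IsHermitian) (m : ℕ) :
    ∑ r ∈ range (2 * m + 1), ((D * X ^ r * D * Y ^ (2 * m - r)).trace).re
      ≤ (2 * m + 1) / 2 * (((D * D * X ^ (2 * m)).trace).re + ((D * D * Y ^ (2 * m)).trace).re) := by
  obtain ⟨U, a, hU, hUr⟩ := tr1_spec hX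
  obtain ⟨V, b, hV, hVr⟩ := tr1_spec hY
  have h1 : ∀ r s : ℕ, (D * X ^ r * D * Y ^ s).trace.re =
      ∑ j, ∑ i, a i ^ r * b j ^ s * ‖(Uᴴ * D * V) i j‖ ^ 2 := by
    intro r s
    rw [hUr r, hVr s]
    exact tr1_key U V D hD _ _
  have h2 : (D * D * X ^ (2 * m)).trace.re =
      ∑ j, ∑ i, a i ^ (2 * m) * ‖(Uᴴ * D * V) i j‖ ^ 2 := by
    have e1 := h1 (2 * m) 0
    simp only [pow_zero, mul_one] at e1
    rw [← e1, Matrix.trace_mul_comm (D * X ^ (2 * m)) D, ← Matrix.mul_assoc]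
  have h3 : (D * D * Y ^ (2 * m)).trace.re =
      ∑ j, ∑ i, b j ^ (2 * m) * ‖(Uᴴ * D * V) i j‖ ^ 2 := by
    have e1 := h1 0 (2 * m)
    simp only [pow_zero, one_mul, Matrix.mul_one] at e1
    rw [← e1]
  rw [sum_congr rfl fun r _ => h1 r (2 * m - r), h2, h3, sum_comm, ← sum_add_distrib, mul_sum]
  refine sum_le_sum fun j _ => ?_
  rw [sum_comm, ← sum_add_distrib, mul_sum]
  refine sum_le_sum fun i _ => ?_
  rw [← sum_mul, ← add_mul, ← mul_assoc]
  exact mul_le_mul_of_nonneg_right (scal m (a i) (b j)) (by positivity)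

end Pool.H2.TA
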