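import Mathlib
import Pool.Agent.H2.TA.Def
import Pool.Agent.H2.TA.Tr1

/-!
Module FLIP (linear algebra): one step of the non-commutative Khintchine inequality.

`XX A e = ∑ q, sg (e q) • A q`, `sg (e q) = ± 1`. All sums over `e : κ → Bool`.
`tel`: for matrices `X^(k) - Y^(k) = ∑ r ∈ range k, X^r * (X - Y) * Y^(k-1-r)` (induction on `k`, or
`Commute`-free telescoping; for `k = 0` both sides are `0`).

`flip_step`: `tr X^(2m+2) = ∑ q, sg (e q) tr (A q * X^(2m+1))`. Fix `q` and let `e'` be `e` with the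
value at `q` negated (`Function.update e q (!e q)`), an involution of `κ → Bool`
(`Equiv` or `Finset.sum_nbij'`), `Y = XX A e'`; then `X - Y = 2 sg (e q) A q` and `sg (e' q) = - sg (e q)`, so
`∑_e sg(e q) tr (A q X^(2m+1)) = (1/2) ∑_e sg(e q) tr (A q (X^(2m+1) - Y^(2m+1)))
 = ∑_e sg(e q)^2 ∑_{r ≤ 2m} tr (A q X^r A q Y^(2m-r))`, real parts, and by `tr_ineq` (with `D = A q`; `X`, `Y`
Hermitian as real combinations of Hermitian matrices)
`≤ (2m+1)/2 ∑_e (tr (A q A q X^(2m)) + tr (A q A q Y^(2m))) = (2m+1) ∑_e tr (A q A q X^(2m))`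
(reindex the second sum by the involution). Sum over `q`.
-/

set_option autoImplicit false

open Finset Matrix

namespace Pool.H2.TA

/-- the signed sum -/
noncomputable def XX {κ n : Type} [Fintype κ] (A : κ → Matrix n n ℂ) (e : κ → Bool) : Matrix n n ℂ :=
  ∑ q, sg (e q) • A q

lemma tel {n : Type} [Fintype n] [DecidableEq n] (X Y : Matrix n n ℂ) (k : ℕ) :
    X ^ k - Y ^ k = ∑ r ∈ range k, X ^ r * (X - Y) * Y ^ (k - 1 - r) := by
  induction k with
  | zero => simp
  | succ k ih =>
    rw [sum_range_succ]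
    have h1 : ∑ r ∈ range k, X ^ r * (X - Y) * Y ^ (k + 1 - 1 - r) =
        (∑ r ∈ range k, X ^ r * (X - Y) * Y ^ (k - 1 - r)) * Y := by
      rw [Finset.sum_mul]
      refine sum_congr rfl fun r hr => ?_
      rw [mem_range] at hr
      have h2 : k + 1 - 1 - r = (k - 1 - r) + 1 := by omega
      rw [h2, pow_succ]
      simp only [Matrix.mul_assoc]
    rw [h1, ← ih]
    have h3 : k + 1 - 1 - k = 0 := by omega
    rw [h3, pow_zero, Matrix.mul_one, pow_succ, pow_succ, Matrix.sub_mul, Matrix.mul_sub]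
    abel

private lemma sg_star (b : Bool) : star (sg b) = sg b := by
  unfold sg
  cases b <;> simp

private lemma sg_sq (b : Bool) : sg b * sg b = 1 := by
  unfold sg
  cases b <;> simp

private lemma sg_not (b : Bool) : sg (!b) = - sg b := by
  unfold sg
  cases b <;> simp

lemma XX_herm {κ n : Type} [Fintype κ] (A : κ → Matrix n n ℂ) (hA : ∀ q, (A q).IsHermitian)
    (e : κ → Bool) : (XX A e).IsHermitian := by
  unfold XX Matrix.IsHermitian
  rw [Matrix.conjTranspose_sum]
  refine sum_congr rfl fun q _ => ?_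
  rw [Matrix.conjTranspose_smul, sg_star, (hA q).eq]

/-- flip the sign number `q` -/
private def fl {κ : Type} [DecidableEq κ] (q : κ) (e : κ → Bool) : κ → Bool :=
  Function.update e q (!e q)

private lemma fl_fl {κ : Type} [DecidableEq κ] (q : κ) (e : κ → Bool) : fl q (fl q e) = e := by
  funext j
  unfold fl
  by_cases h : j = q
  · subst h; simp
  · simp [h]

private lemma fl_q {κ : Type} [DecidableEq κ] (q : κ) (e : κ → Bool) : fl q e q = !e q := by
  unfold fl; simp

private lemma sum_fl {κ : Type} [Fintype κ] [DecidableEq κ] (q : κ) (g : (κ → Bool) → ℝ) :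
    ∑ e, g (fl q e) = ∑ e, g e :=
  Equiv.sum_comp ⟨fl q, fl q, fl_fl q, fl_fl q⟩ g

private lemma XX_fl {κ : Type} [Fintype κ] [DecidableEq κ] {n : Type} (A : κ → Matrix n n ℂ)
    (q : κ) (e : κ → Bool) : XX A e - XX A (fl q e) = (2 * sg (e q)) • A q := by
  unfold XX
  rw [← sum_sub_distrib, sum_eq_single q]
  · rw [fl_q, sg_not, ← sub_smul]
    congr 1; ring
  · intro j _ hj
    have : fl q e j = e j := by unfold fl; simp [hj]
    rw [this, sub_self]
  · intro h; exact absurd (mem_univ q) h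

private lemma one_q {κ : Type} [Fintype κ] [DecidableEq κ] {n : Type} [Fintype n] [DecidableEq n]
    (A : κ → Matrix n n ℂ) (hA : ∀ q, (A q).IsHermitian) (m : ℕ) (q : κ) :
    ∑ e : κ → Bool, (sg (e q) * (A q * XX A e ^ (2 * m + 1)).trace).re ≤
      (2 * m + 1) * ∑ e : κ → Bool, ((A q * A q * XX A e ^ (2 * m)).trace).re := by
  set g : (κ → Bool) → ℝ := fun e => (sg (e q) * (A q * XX A e ^ (2 * m + 1)).trace).re with hg
  have h1 : ∑ e, g e = (1 / 2) * ∑ e, (g e + g (fl q e)) := by
    rw [sum_add_distrib, sum_fl]; ring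
  have h2 : ∀ e : κ → Bool, g e + g (fl q e) =
      2 * ∑ r ∈ range (2 * m + 1), ((A q * XX A e ^ r * A q * XX A (fl q e) ^ (2 * m - r)).trace).re := by
    intro e
    have h3 : g e + g (fl q e) =
        (sg (e q) * (A q * (XX A e ^ (2 * m + 1) - XX A (fl q e) ^ (2 * m + 1))).trace).re := by
      simp only [hg]
      rw [fl_q, sg_not, Matrix.mul_sub, Matrix.trace_sub, ← Complex.add_re]
      congr 1; ring
    rw [h3, tel, Matrix.mul_sum, Matrix.trace_sum, mul_sum, Complex.re_sum, mul_sum]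
    refine sum_congr rfl fun r _ => ?_
    have h4 : 2 * m + 1 - 1 - r = 2 * m - r := by omega
    rw [h4, XX_fl]
    have h5 : A q * (XX A e ^ r * ((2 * sg (e q)) • A q) * XX A (fl q e) ^ (2 * m - r)) =
        (2 * sg (e q)) • (A q * XX A e ^ r * A q * XX A (fl q e) ^ (2 * m - r)) := by
      rw [Matrix.mul_smul, Matrix.smul_mul, Matrix.mul_smul]
      simp only [Matrix.mul_assoc]
    rw [h5, Matrix.trace_smul, smul_eq_mul]
    have h6 : sg (e q) * (2 * sg (e q) *
        (A q * XX A e ^ r * A q * XX A (fl q e) ^ (2 * m - r)).trace) =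
        2 * (A q * XX A e ^ r * A q * XX A (fl q e) ^ (2 * m - r)).trace := by
      have := sg_sq (e q)
      linear_combination (2 * (A q * XX A e ^ r * A q * XX A (fl q e) ^ (2 * m - r)).trace) * this
    rw [h6]
    simp
  rw [h1]
  have h7 : ∑ e, (g e + g (fl q e)) ≤ ∑ e : κ → Bool, (2 * m + 1) *
      (((A q * A q * XX A e ^ (2 * m)).trace).re +
        ((A q * A q * XX A (fl q e) ^ (2 * m)).trace).re) := by
    refine sum_le_sum fun e _ => ?_
    rw [h2 e]
    have h8 := tr_ineq (XX A e) (XX A (fl q e)) (A q) (XX_herm A hA e) (XX_herm A hA _) (hA q) m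
    linarith
  have h9 : ∑ e : κ → Bool, (2 * m + 1) *
      (((A q * A q * XX A e ^ (2 * m)).trace).re +
        ((A q * A q * XX A (fl q e) ^ (2 * m)).trace).re) =
      2 * ((2 * m + 1) * ∑ e : κ → Bool, ((A q * A q * XX A e ^ (2 * m)).trace).re) := by
    rw [← mul_sum, sum_add_distrib,
      sum_fl q (fun e => ((A q * A q * XX A e ^ (2 * m)).trace).re)]
    ring
  rw [h9] at h7
  linarith

theorem flip_step {κ : Type} [Fintype κ] [DecidableEq κ] {n : Type} [Fintype n] [DecidableEq n]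
    (A : κ → Matrix n n ℂ) (hA : ∀ q, (A q).IsHermitian) (m : ℕ) :
    ∑ e : κ → Bool, ((XX A e ^ (2 * m + 2)).trace).re
      ≤ (2 * m + 1) * ∑ e : κ → Bool, (((∑ q, A q * A q) * XX A e ^ (2 * m)).trace).re := by
  have h1 : ∀ e : κ → Bool, ((XX A e ^ (2 * m + 2)).trace).re =
      ∑ q, (sg (e q) * (A q * XX A e ^ (2 * m + 1)).trace).re := by
    intro e
    rw [show 2 * m + 2 = (2 * m + 1) + 1 by ring, pow_succ']
    conv_lhs => rw [show XX A e * XX A e ^ (2 * m + 1) =
      ∑ q, sg (e q) • (A q * XX A e ^ (2 * m + 1)) by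
        conv_lhs => enter [1]; rw [XX]
        rw [Matrix.sum_mul]
        exact sum_congr rfl fun q _ => by rw [Matrix.smul_mul]]
    rw [Matrix.trace_sum, Complex.re_sum]
    exact sum_congr rfl fun q _ => by rw [Matrix.trace_smul, smul_eq_mul]
  have h2 : ∀ e : κ → Bool, (((∑ q, A q * A q) * XX A e ^ (2 * m)).trace).re =
      ∑ q, ((A q * A q * XX A e ^ (2 * m)).trace).re := by
    intro e
    rw [Matrix.sum_mul, Matrix.trace_sum, Complex.re_sum]
  simp only [h1, h2]
  rw [sum_comm]
  conv_rhs => rw [sum_comm, mul_sum]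
  exact sum_le_sum fun q _ => one_q A hA m q

end Pool.H2.TA
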