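import Mathlib
import Pool.Agent.H2.TA.Flip

/-!
Module KHIN (linear algebra, short): the non-commutative Khintchine inequality.

Put `a m = ∑_e tr (X_e^(2m))` (real part). Since `X` is Hermitian, `X^(2m) = X^m * (X^m)ᴴ`, so by
`flip_step` and `hσ` with `B = X_e^m`: `a (m+1) ≤ (2m+1) S a m`. Also `a m ≥ 0` (trace of `B Bᴴ`).
Hence for `m ≤ p`: `a m ≤ (2 p S)^m * a 0` by induction (`2m+1 ≤ 2p` for `m < p`), and
`a 0 = 2^(card κ) * card n`.
-/

set_option autoImplicit false

open Finset Matrix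

namespace Pool.H2.TA

private lemma khin_tr_nonneg {n : Type} [Fintype n] (B : Matrix n n ℂ) :
    0 ≤ ((B * Bᴴ).trace).re := by
  rw [Matrix.trace, Complex.re_sum]
  refine Finset.sum_nonneg fun i _ => ?_
  rw [Matrix.diag_apply, Matrix.mul_apply, Complex.re_sum]
  refine Finset.sum_nonneg fun j _ => ?_
  rw [Matrix.conjTranspose_apply]
  have h : B i j * star (B i j) = ((Complex.normSq (B i j) : ℝ) : ℂ) := Complex.mul_conj _
  rw [h, Complex.ofReal_re]
  exact Complex.normSq_nonneg _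

theorem khin {κ : Type} [Fintype κ] [DecidableEq κ] {n : Type} [Fintype n] [DecidableEq n]
    (A : κ → Matrix n n ℂ) (hA : ∀ q, (A q).IsHermitian) (S : ℝ) (hS : 0 ≤ S)
    (hσ : ∀ B : Matrix n n ℂ,
      (((∑ q, A q * A q) * (B * Bᴴ)).trace).re ≤ S * ((B * Bᴴ).trace).re) (p : ℕ) :
    ∑ e : κ → Bool, ((XX A e ^ (2 * p)).trace).re
      ≤ 2 ^ Fintype.card κ * Fintype.card n * (2 * p * S) ^ p := by
  have hpow : ∀ (e : κ → Bool) (m : ℕ), XX A e ^ (2 * m) = XX A e ^ m * (XX A e ^ m)ᴴ := by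
    intro e m
    have h1 : (XX A e ^ m)ᴴ = XX A e ^ m := by
      rw [Matrix.conjTranspose_pow, (XX_herm A hA e).eq]
    rw [h1, ← pow_add, two_mul]
  have hnn : ∀ m : ℕ, 0 ≤ ∑ e : κ → Bool, ((XX A e ^ (2 * m)).trace).re := by
    intro m
    refine Finset.sum_nonneg fun e _ => ?_
    rw [hpow e m]
    exact khin_tr_nonneg _
  have hstep : ∀ m : ℕ, ∑ e : κ → Bool, ((XX A e ^ (2 * (m + 1))).trace).re ≤
      (2 * m + 1) * (S * ∑ e : κ → Bool, ((XX A e ^ (2 * m)).trace).re) := by
    intro m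
    have h1 := flip_step A hA m
    refine le_trans h1 ?_
    apply mul_le_mul_of_nonneg_left _ (by positivity)
    rw [Finset.mul_sum]
    refine Finset.sum_le_sum fun e _ => ?_
    rw [hpow e m]
    exact hσ _
  have key : ∀ m : ℕ, m ≤ p → ∑ e : κ → Bool, ((XX A e ^ (2 * m)).trace).re ≤
      (2 * p * S) ^ m * ∑ e : κ → Bool, ((XX A e ^ (2 * 0)).trace).re := by
    intro m
    induction m with
    | zero => intro _; rw [pow_zero, one_mul]
    | succ m ih =>
      intro hm
      have h1 := ih (by omega)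
      have h2 : (2 * (m : ℝ) + 1) ≤ 2 * p := by
        have : 2 * m + 1 ≤ 2 * p := by omega
        exact_mod_cast this
      calc ∑ e : κ → Bool, ((XX A e ^ (2 * (m + 1))).trace).re
          ≤ (2 * m + 1) * (S * ∑ e : κ → Bool, ((XX A e ^ (2 * m)).trace).re) := hstep m
        _ ≤ 2 * p * (S * ∑ e : κ → Bool, ((XX A e ^ (2 * m)).trace).re) :=
            mul_le_mul_of_nonneg_right h2 (mul_nonneg hS (hnn m))
        _ = 2 * p * S * ∑ e : κ → Bool, ((XX A e ^ (2 * m)).trace).re := by ring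
        _ ≤ 2 * p * S * ((2 * p * S) ^ m * ∑ e : κ → Bool, ((XX A e ^ (2 * 0)).trace).re) :=
            mul_le_mul_of_nonneg_left h1 (by positivity)
        _ = (2 * p * S) ^ (m + 1) * ∑ e : κ → Bool, ((XX A e ^ (2 * 0)).trace).re := by ring
  have h0 : ∑ e : κ → Bool, ((XX A e ^ (2 * 0)).trace).re =
      2 ^ Fintype.card κ * Fintype.card n := by
    have h1 : ∀ e : κ → Bool, ((XX A e ^ (2 * 0)).trace).re = Fintype.card n := by
      intro e
      rw [mul_zero, pow_zero, Matrix.trace_one]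
      simp
    rw [Finset.sum_congr rfl fun e _ => h1 e, Finset.sum_const, nsmul_eq_mul, Finset.card_univ,
      Fintype.card_fun, Fintype.card_bool]
    push_cast
    rfl
  have h1 := key p le_rfl
  rw [h0] at h1
  linarith

end Pool.H2.TA
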