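import Mathlib
import Pool.Agent.H2.TA.Khin
import Pool.Agent.H2.TA.Gram

/-!
Module RAD: the bilinear Khintchine inequality in the form used for sums over integers.

For each `e`, with `xx a = x e a / √a`, `yy b = y e b / √b` (`0` at `0`), `a, b : Fin (R+1)`:
`∑_n sg(e (q n)) c (q n) U n x e (r1 n) y e (r2 n) = ∑_{a,b} (∑_q sg (e q) mat q a b) xx a yy b`
(`√a √b / (√a √b) = 1` for `a, b ≥ 1`; group the `n` by `q n, r1 n, r2 n`), and
`∑_a ‖xx a‖^2 ≤ ∑_{1 ≤ a ≤ R} 1/a ≤ 1 + log R` (`harmonic_le_one_add_log`).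
`dil (∑_q sg(e q) • mat q) = ∑_q sg(e q) • dil (mat q) = XX (fun q => dil (mat q)) e` (the signs are
real). Apply `bil_form` for each `e` with `L = 1 + log R`, sum over `e`, and use `khin` with
`S = 4 s` (its hypothesis `hσ` by `schur` with the weights `wt` from `gram_row`; the sum of the squares of
Hermitian matrices is Hermitian), `card (Fin (R+1) ⊕ Fin (R+1)) = 2 (R+1)`:
the total is `≤ (1 + log R)^(2p) * (2^(card κ) * (2 (R+1)) * (2 p * (4 s))^p)`, which is the claim.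
-/

set_option autoImplicit false

open Finset Matrix

namespace Pool.H2.TA

private lemma rad_sg_star (b : Bool) : star (sg b) = sg b := by
  unfold sg
  cases b <;> simp

private lemma rad_dil {κ : Type} [Fintype κ] {m n : Type} (A : κ → Matrix m n ℂ) (e : κ → Bool) :
    dil (∑ q, sg (e q) • A q) = XX (fun q => dil (A q)) e := by
  unfold dil XX
  ext i j
  rcases i with i | i <;> rcases j with j | j
  · simp [Matrix.sum_apply]
  · simp [Matrix.sum_apply]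
  · simp [Matrix.sum_apply, Matrix.conjTranspose_apply, rad_sg_star]
  · simp [Matrix.sum_apply]

private lemma rad_wt (R : ℕ) (i : Fin (R + 1) ⊕ Fin (R + 1)) : 0 < wt R i := by
  rcases i with a | a
  · show 0 < if (a : ℕ) = 0 then (1 : ℝ) else 1 / √(a : ℝ)
    split_ifs with h
    · exact one_pos
    · have : (0 : ℝ) < (a : ℕ) := by exact_mod_cast Nat.pos_of_ne_zero h
      positivity
  · show 0 < if (a : ℕ) = 0 then (1 : ℝ) else 1 / √(a : ℝ)
    split_ifs with h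
    · exact one_pos
    · have : (0 : ℝ) < (a : ℕ) := by exact_mod_cast Nat.pos_of_ne_zero h
      positivity

private lemma rad_norm (R : ℕ) (x : ℕ → ℂ) (hx : ∀ n, ‖x n‖ ≤ 1) :
    ∑ a : Fin (R + 1), ‖x a / ((√((a : ℕ) : ℝ) : ℝ) : ℂ)‖ ^ 2 ≤ 1 + Real.log R := by
  have h1 : ∀ a : Fin (R + 1), ‖x a / ((√((a : ℕ) : ℝ) : ℝ) : ℂ)‖ ^ 2 ≤ 1 / ((a : ℕ) : ℝ) := by
    intro a
    rw [norm_div, div_pow, Complex.norm_real, Real.norm_eq_abs, sq_abs, Real.sq_sqrt (Nat.cast_nonneg _)]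
    rcases Nat.eq_zero_or_pos (a : ℕ) with h | h
    · rw [h]
      simp
    · have h0 : (0 : ℝ) < (a : ℕ) := by exact_mod_cast h
      have h2 : ‖x a‖ ^ 2 ≤ 1 := pow_le_one₀ (norm_nonneg _) (hx a)
      gcongr
  refine (Finset.sum_le_sum fun a _ => h1 a).trans ?_
  rw [Fin.sum_univ_eq_sum_range (fun a => 1 / (a : ℝ)) (R + 1), Finset.sum_range_succ']
  have h2 := harmonic_le_one_add_log R
  unfold harmonic at h2
  push_cast at h2
  simpa [one_div] using h2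

private lemma rad_form {κ : Type} [Fintype κ] [DecidableEq κ] (S : Finset ℕ) (q : ℕ → κ)
    (r1 r2 : ℕ → ℕ) (R : ℕ) (hr1 : ∀ n ∈ S, 1 ≤ r1 n ∧ r1 n ≤ R)
    (hr2 : ∀ n ∈ S, 1 ≤ r2 n ∧ r2 n ≤ R) (c : κ → ℂ) (U x y : ℕ → ℂ) (e : κ → Bool) :
    ∑ n ∈ S, sg (e (q n)) * c (q n) * U n * x (r1 n) * y (r2 n) =
      ∑ a : Fin (R + 1), ∑ b : Fin (R + 1), (∑ q0, sg (e q0) • mat S q r1 r2 c U R q0) a b *
        (x a / ((√((a : ℕ) : ℝ) : ℝ) : ℂ)) * (y b / ((√((b : ℕ) : ℝ) : ℝ) : ℂ)) := by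
  have h1 : ∀ a b : Fin (R + 1), (∑ q0, sg (e q0) • mat S q r1 r2 c U R q0) a b *
        (x a / ((√((a : ℕ) : ℝ) : ℝ) : ℂ)) * (y b / ((√((b : ℕ) : ℝ) : ℝ) : ℂ)) =
      ∑ q0, ∑ n ∈ S, if q n = q0 ∧ r1 n = a ∧ r2 n = b then
        sg (e q0) * c q0 * U n * x (a : ℕ) * y (b : ℕ) else 0 := by
    intro a b
    rw [Matrix.sum_apply, Finset.sum_mul, Finset.sum_mul]
    refine Finset.sum_congr rfl fun q0 _ => ?_
    rw [← Finset.sum_filter]
    simp only [Matrix.smul_apply, mat, smul_eq_mul]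
    rw [← Finset.mul_sum]
    rcases Finset.eq_empty_or_nonempty (S.filter (fun n => q n = q0 ∧ r1 n = a ∧ r2 n = b))
      with h | ⟨n, hn⟩
    · rw [h]
      simp
    · rw [Finset.mem_filter] at hn
      have ha : 1 ≤ (a : ℕ) := by
        rw [← hn.2.2.1]
        exact (hr1 n hn.1).1
      have hb : 1 ≤ (b : ℕ) := by
        rw [← hn.2.2.2]
        exact (hr2 n hn.1).1
      have ha0 : ((√((a : ℕ) : ℝ) : ℝ) : ℂ) ≠ 0 := by
        have : (0 : ℝ) < (a : ℕ) := by exact_mod_cast ha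
        exact_mod_cast (Real.sqrt_pos.2 this).ne'
      have hb0 : ((√((b : ℕ) : ℝ) : ℝ) : ℂ) ≠ 0 := by
        have : (0 : ℝ) < (b : ℕ) := by exact_mod_cast hb
        exact_mod_cast (Real.sqrt_pos.2 this).ne'
      rw [← Finset.sum_mul, ← Finset.sum_mul, ← Finset.mul_sum]
      push_cast
      field_simp
  rw [Finset.sum_congr rfl fun a _ => Finset.sum_congr rfl fun b _ => h1 a b]
  have h2 : ∀ n ∈ S, ∑ a : Fin (R + 1), ∑ b : Fin (R + 1), ∑ q0 : κ,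
      (if q n = q0 ∧ r1 n = a ∧ r2 n = b then
        sg (e q0) * c q0 * U n * x (a : ℕ) * y (b : ℕ) else 0) =
      sg (e (q n)) * c (q n) * U n * x (r1 n) * y (r2 n) := by
    intro n hn
    have ha : r1 n < R + 1 := by have := (hr1 n hn).2; omega
    have hb : r2 n < R + 1 := by have := (hr2 n hn).2; omega
    rw [Finset.sum_eq_single (⟨r1 n, ha⟩ : Fin (R + 1)), Finset.sum_eq_single (⟨r2 n, hb⟩ : Fin (R + 1)),
      Finset.sum_eq_single (q n)]
    · simp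
    · intro q0 _ hq
      rw [if_neg]
      rintro ⟨h, -⟩
      exact hq h.symm
    · intro h
      exact absurd (Finset.mem_univ _) h
    · intro b _ hbn
      refine Finset.sum_eq_zero fun q0 _ => ?_
      rw [if_neg]
      rintro ⟨-, -, h⟩
      exact hbn (Fin.ext h.symm)
    · intro h
      exact absurd (Finset.mem_univ _) h
    · intro a _ han
      refine Finset.sum_eq_zero fun b _ => Finset.sum_eq_zero fun q0 _ => ?_
      rw [if_neg]
      rintro ⟨-, h, -⟩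
      exact han (Fin.ext h.symm)
    · intro h
      exact absurd (Finset.mem_univ _) h
  rw [← Finset.sum_congr rfl h2, Finset.sum_comm]
  refine Finset.sum_congr rfl fun a _ => ?_
  rw [Finset.sum_comm]
  refine Finset.sum_congr rfl fun b _ => ?_
  rw [Finset.sum_comm]

theorem rad_bil {κ : Type} [Fintype κ] [DecidableEq κ] (S : Finset ℕ) (q : ℕ → κ)
    (r1 r2 : ℕ → ℕ) (R : ℕ) (hR : 1 ≤ R) (hr1 : ∀ n ∈ S, 1 ≤ r1 n ∧ r1 n ≤ R)
    (hr2 : ∀ n ∈ S, 1 ≤ r2 n ∧ r2 n ≤ R) (s : ℝ) (hs : 0 ≤ s)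
    (hs1 : ∀ r : ℕ, 1 ≤ r → (r : ℝ) * ord1 S q r1 r2 r ≤ s)
    (hs2 : ∀ r : ℕ, 1 ≤ r → (r : ℝ) * ord1 S q r2 r1 r ≤ s)
    (c : κ → ℂ) (hc : ∀ q, ‖c q‖ ≤ 2) (U : ℕ → ℂ) (hU : ∀ n, ‖U n‖ ≤ 1)
    (p : ℕ) (hp : 1 ≤ p) (x y : (κ → Bool) → ℕ → ℂ) (hx : ∀ e n, ‖x e n‖ ≤ 1)
    (hy : ∀ e n, ‖y e n‖ ≤ 1) :
    ∑ e : κ → Bool, ‖∑ n ∈ S, sg (e (q n)) * c (q n) * U n * x e (r1 n) * y e (r2 n)‖ ^ (2 * p)
      ≤ 2 ^ Fintype.card κ * (2 * (R + 1) * ((1 + Real.log R) ^ 2 * (8 * p * s)) ^ p) := by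
  obtain ⟨L, hL⟩ : ∃ L : ℝ, L = 1 + Real.log R := ⟨_, rfl⟩
  have hL0 : 0 ≤ L := by
    rw [hL]
    have : (1 : ℝ) ≤ R := by exact_mod_cast hR
    linarith [Real.log_nonneg this]
  have h1 : ∀ e : κ → Bool,
      ‖∑ n ∈ S, sg (e (q n)) * c (q n) * U n * x e (r1 n) * y e (r2 n)‖ ^ (2 * p) ≤
      L ^ (2 * p) * ((XX (fun q0 => dil (mat S q r1 r2 c U R q0)) e ^ (2 * p)).trace).re := by
    intro e
    rw [rad_form S q r1 r2 R hr1 hr2 c U (x e) (y e) e, ← rad_dil]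
    refine bil_form (∑ q0, sg (e q0) • mat S q r1 r2 c U R q0) p hp
      (fun a => x e a / ((√((a : ℕ) : ℝ) : ℝ) : ℂ)) (fun b => y e b / ((√((b : ℕ) : ℝ) : ℝ) : ℂ)) L
      ?_ ?_
    · rw [hL]
      exact rad_norm R (x e) (hx e)
    · rw [hL]
      exact rad_norm R (y e) (hy e)
  refine (Finset.sum_le_sum fun e _ => h1 e).trans ?_
  rw [← Finset.mul_sum]
  have h2 := khin (fun q0 => dil (mat S q r1 r2 c U R q0)) (fun q0 => dil_herm _) (4 * s)
    (by positivity) (fun B => schur _ (by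
      unfold Matrix.IsHermitian
      rw [Matrix.conjTranspose_sum]
      refine Finset.sum_congr rfl fun q0 _ => ?_
      rw [Matrix.conjTranspose_mul, (dil_herm _).eq]) (wt R) (rad_wt R) (4 * s)
      (fun i => gram_row S q r1 r2 R hr1 hr2 s hs1 hs2 c hc U hU i) B) p
  have h3 := mul_le_mul_of_nonneg_left h2 (pow_nonneg hL0 (2 * p))
  refine h3.trans (le_of_eq ?_)
  rw [Fintype.card_sum, Fintype.card_fin, ← hL, mul_pow (L ^ 2), ← pow_mul]
  push_cast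
  have h4 : (2 * (p : ℝ) * (4 * s)) ^ p = (8 * p * s) ^ p := by
    congr 1
    ring
  rw [h4]
  ring

end Pool.H2.TA
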