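import Mathlib

/-!
Module MCDA (Mathlib only): exponential moment form of McDiarmid's inequality for products of `n`
probability measures, by induction on `n`, for all `μ, T, D`.

Step: `MeasureTheory.measurePreserving_piFinSuccAbove` (at `0`) splits `v = (v 0, rest)`. For fixed rest let
`S rest = ∫ T (z, rest) dμ 0 (z)`. Hoeffding's lemma for one variable: `|T (z, rest) - S rest| ≤ D 0`
(average of differences `T (z, rest) - T (z', rest)`, and `T (z', rest)` is an update of `T (z, rest)`), mean zero,
hence `∫ exp (s (T - S)) dμ 0 ≤ cosh (s D 0) ≤ exp (s^2 D 0^2 / 2)`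
(convexity: `exp (s y) ≤ cosh (s d) + (y/d) sinh (s d)` for `|y| ≤ d`, see `hoe_conv` in
`Pool/Agent/H68/OF/Hoe.lean`, and `Real.cosh_le_exp_half_sq`; or Mathlib's
`ProbabilityTheory.hasSubgaussianMGF_of_mem_Icc`; if `D 0 = 0` then `T = S`). `S` is measurable, bounded by `C`, with
differences `D (i+1)`, and `∫ S = ∫ T` (Fubini). Use Fubini and the induction hypothesis for `S`.
-/

set_option autoImplicit false

open Finset MeasureTheory ProbabilityTheory

namespace Pool.H2.TA

/-- one variable: Hoeffding's lemma -/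
private theorem mcda_one (μ : Measure ℂ) [IsProbabilityMeasure μ] (X : ℂ → ℝ) (hX : Measurable X)
    (d : ℝ) (hd : ∀ z w, |X z - X w| ≤ d) (hXi : Integrable X μ) (s : ℝ) :
    ∫ z, Real.exp (s * X z) ∂μ ≤ Real.exp (s * ∫ z, X z ∂μ) * Real.exp (s ^ 2 * d ^ 2 / 2) := by
  have hd0 : 0 ≤ d := (abs_nonneg _).trans (hd 0 0)
  set m := ∫ z, X z ∂μ with hm
  have hb : ∀ z, X z - m ∈ Set.Icc (-d) d := by
    intro z
    have h1 : X z - m = ∫ w, (X z - X w) ∂μ := by
      rw [integral_sub (integrable_const _) hXi, integral_const]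
      simp [hm]
    have h2 : ‖∫ w, (X z - X w) ∂μ‖ ≤ d * μ.real Set.univ := by
      apply norm_integral_le_of_norm_le_const
      exact Filter.Eventually.of_forall (fun w => by rw [Real.norm_eq_abs]; exact hd z w)
    rw [← h1, probReal_univ, mul_one, Real.norm_eq_abs, abs_le] at h2
    exact ⟨h2.1, h2.2⟩
  have hc : μ[fun z => X z - m] = 0 := by
    rw [integral_sub hXi (integrable_const _), integral_const]
    simp [hm]
  have hs := hasSubgaussianMGF_of_mem_Icc_of_integral_eq_zero (μ := μ) (X := fun z => X z - m)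
    (a := -d) (b := d) (hX.sub_const _).aemeasurable (Filter.Eventually.of_forall hb) hc
  have h3 := hs.mgf_le s
  unfold mgf at h3
  have h4 : ((((‖d - -d‖₊ / 2) ^ 2 : NNReal) : ℝ)) = d ^ 2 := by
    push_cast
    rw [show d - -d = 2 * d by ring, Real.norm_eq_abs, abs_of_nonneg (by linarith)]
    ring
  rw [h4] at h3
  have h5 : ∫ z, Real.exp (s * X z) ∂μ
      = Real.exp (s * m) * ∫ z, Real.exp (s * (X z - m)) ∂μ := by
    rw [← integral_const_mul]
    apply integral_congr_ae
    refine Filter.Eventually.of_forall (fun z => ?_)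
    simp only
    rw [← Real.exp_add]
    congr 1
    ring
  rw [h5]
  apply mul_le_mul_of_nonneg_left _ (Real.exp_pos _).le
  refine h3.trans (Real.exp_le_exp.2 ?_)
  apply le_of_eq
  ring

private theorem mcda_int {α : Type*} [MeasurableSpace α] (ν : Measure α) [IsFiniteMeasure ν]
    (f : α → ℝ) (hf : Measurable f) (C : ℝ) (hC : ∀ x, |f x| ≤ C) : Integrable f ν :=
  Integrable.of_bound hf.aestronglyMeasurable C
    (Filter.Eventually.of_forall (fun x => by rw [Real.norm_eq_abs]; exact hC x))

private theorem mcda_exp_bound {s t C : ℝ} (h : |t| ≤ C) :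
    |Real.exp (s * t)| ≤ Real.exp (|s| * C) := by
  rw [abs_of_pos (Real.exp_pos _)]
  apply Real.exp_le_exp.2
  calc s * t ≤ |s * t| := le_abs_self _
    _ = |s| * |t| := abs_mul _ _
    _ ≤ |s| * C := mul_le_mul_of_nonneg_left h (abs_nonneg _)

theorem mcd_exp_fin (n : ℕ) (μ : Fin n → Measure ℂ) [∀ q, IsProbabilityMeasure (μ q)]
    (T : (Fin n → ℂ) → ℝ) (hT : Measurable T) (C : ℝ) (hC : ∀ v, |T v| ≤ C) (D : Fin n → ℝ)
    (hD : ∀ v q w, |T (Function.update v q w) - T v| ≤ D q) (s : ℝ) :
    ∫ v, Real.exp (s * T v) ∂(Measure.pi μ)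
      ≤ Real.exp (s * (∫ v, T v ∂(Measure.pi μ)) + s ^ 2 * (∑ q, D q ^ 2) / 2) := by
  induction n generalizing C with
  | zero =>
    rw [Measure.pi_of_empty μ, integral_dirac, integral_dirac]
    simp
  | succ n ih =>
    set e := (MeasurableEquiv.piFinSuccAbove (fun _ : Fin (n + 1) => ℂ) 0).symm with he
    have hmp : MeasurePreserving e
        ((μ 0).prod (Measure.pi fun j => μ (Fin.succAbove 0 j))) (Measure.pi μ) :=
      (measurePreserving_piFinSuccAbove μ 0).symm
    have hcons : ∀ z : ℂ, ∀ r : Fin n → ℂ, e (z, r) = Fin.cons z r := by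
      intro z r
      exact Fin.insertNth_zero' z r
    set ν : Measure (Fin n → ℂ) := Measure.pi fun j => μ (Fin.succAbove 0 j) with hν
    have hTe : Measurable (fun p : ℂ × (Fin n → ℂ) => T (e p)) := hT.comp e.measurable
    -- the average over the first variable
    set S : (Fin n → ℂ) → ℝ := fun r => ∫ z, T (e (z, r)) ∂(μ 0) with hS
    have hSm : Measurable S := (hTe.stronglyMeasurable.integral_prod_left' (μ := μ 0)).measurable
    have hsl : ∀ r, Measurable (fun z => T (e (z, r))) := fun r =>
      hTe.comp (measurable_id.prodMk measurable_const)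
    have hsi : ∀ r, Integrable (fun z => T (e (z, r))) (μ 0) := fun r =>
      mcda_int (μ 0) _ (hsl r) C (fun z => hC _)
    have hSC : ∀ r, |S r| ≤ C := by
      intro r
      have h2 : ‖∫ z, T (e (z, r)) ∂(μ 0)‖ ≤ C * (μ 0).real Set.univ := by
        apply norm_integral_le_of_norm_le_const
        exact Filter.Eventually.of_forall (fun w => by rw [Real.norm_eq_abs]; exact hC _)
      rw [probReal_univ, mul_one, Real.norm_eq_abs] at h2
      exact h2
    have hSD : ∀ r q w, |S (Function.update r q w) - S r| ≤ D (Fin.succAbove 0 q) := by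
      intro r q w
      have h1 : S (Function.update r q w) - S r
          = ∫ z, (T (e (z, Function.update r q w)) - T (e (z, r))) ∂(μ 0) := by
        rw [integral_sub (hsi _) (hsi _)]
      have h2 : ‖∫ z, (T (e (z, Function.update r q w)) - T (e (z, r))) ∂(μ 0)‖
          ≤ D (Fin.succAbove 0 q) * (μ 0).real Set.univ := by
        apply norm_integral_le_of_norm_le_const
        refine Filter.Eventually.of_forall (fun z => ?_)
        rw [Real.norm_eq_abs, hcons, hcons, Fin.cons_update, Fin.zero_succAbove]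
        exact hD _ _ _
      rw [probReal_univ, mul_one, Real.norm_eq_abs, ← h1] at h2
      exact h2
    have hone : ∀ r, ∫ z, Real.exp (s * T (e (z, r))) ∂(μ 0)
        ≤ Real.exp (s * S r) * Real.exp (s ^ 2 * D 0 ^ 2 / 2) := by
      intro r
      apply mcda_one (μ 0) (fun z => T (e (z, r))) (hsl r) (D 0) _ (hsi r) s
      intro z w
      rw [hcons, hcons]
      have h1 : (Fin.cons z r : Fin (n + 1) → ℂ)
          = Function.update (Fin.cons w r : Fin (n + 1) → ℂ) 0 z :=
        (Fin.update_cons_zero (α := fun _ => ℂ) w r z).symm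
      rw [h1]
      exact hD _ _ _
    have hexpm : Measurable (fun p : ℂ × (Fin n → ℂ) => Real.exp (s * T (e p))) :=
      (hTe.const_mul s).exp
    have hexpi : Integrable (fun p : ℂ × (Fin n → ℂ) => Real.exp (s * T (e p)))
        ((μ 0).prod ν) :=
      mcda_int _ _ hexpm (Real.exp (|s| * C)) (fun p => mcda_exp_bound (hC _))
    have hTi : Integrable (fun p : ℂ × (Fin n → ℂ) => T (e p)) ((μ 0).prod ν) :=
      mcda_int _ _ hTe C (fun p => hC _)
    have hF1 : ∫ v, Real.exp (s * T v) ∂(Measure.pi μ)
        = ∫ r, ∫ z, Real.exp (s * T (e (z, r))) ∂(μ 0) ∂ν := by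
      rw [← hmp.integral_comp' (g := fun v => Real.exp (s * T v))]
      exact integral_prod_symm _ hexpi
    have hF2 : ∫ v, T v ∂(Measure.pi μ) = ∫ r, S r ∂ν := by
      rw [← hmp.integral_comp' (g := fun v => T v)]
      exact integral_prod_symm _ hTi
    have hih := ih (fun j => μ (Fin.succAbove 0 j)) S hSm C hSC (fun j => D (Fin.succAbove 0 j)) hSD
    have hle : ∫ r, ∫ z, Real.exp (s * T (e (z, r))) ∂(μ 0) ∂ν
        ≤ ∫ r, Real.exp (s * S r) * Real.exp (s ^ 2 * D 0 ^ 2 / 2) ∂ν := by
      apply integral_mono_of_nonneg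
      · exact Filter.Eventually.of_forall (fun r => integral_nonneg (fun z => (Real.exp_pos _).le))
      · apply Integrable.mul_const
        exact mcda_int _ _ (hSm.const_mul s).exp (Real.exp (|s| * C))
          (fun r => mcda_exp_bound (hSC r))
      · exact Filter.Eventually.of_forall hone
    rw [hF1, hF2, Fin.sum_univ_succAbove _ 0]
    refine hle.trans ?_
    rw [integral_mul_const]
    refine (mul_le_mul_of_nonneg_right hih (Real.exp_pos _).le).trans ?_
    rw [← Real.exp_add]
    apply Real.exp_le_exp.2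
    apply le_of_eq
    ring

end Pool.H2.TA
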