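import Mathlib
import Pool.Agent.H2.TA.McDa

/-!
Module MCD (short): McDiarmid's bounded difference inequality for product measures.

Transport `mcd_exp_fin` to a general `Fintype κ` by `Fintype.equivFin κ` and
`MeasureTheory.measurePreserving_piCongrLeft` (updates correspond to updates). Markov:
`π {T ≥ ∫ T + t} ≤ exp (-s (∫ T + t)) ∫ exp (s T) ≤ exp (-s t + s^2 V / 2)`, `s = t / V`, which is
`exp (-t^2/(2 V))` (`mul_meas_ge_le_lintegral` or `ProbabilityTheory.measure_ge_le_exp_mul_mgf`; `T` bounded and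
measurable, so everything is integrable).
-/

set_option autoImplicit false

open Finset MeasureTheory ProbabilityTheory

namespace Pool.H2.TA

theorem mcdiarmid {κ : Type} [Fintype κ] [DecidableEq κ] (μ : κ → Measure ℂ)
    [∀ q, IsProbabilityMeasure (μ q)] (T : (κ → ℂ) → ℝ) (hT : Measurable T) (C : ℝ)
    (hC : ∀ v, |T v| ≤ C) (D : κ → ℝ) (hD : ∀ v q w, |T (Function.update v q w) - T v| ≤ D q)
    (t V : ℝ) (ht : 0 ≤ t) (hV : 0 < V) (hVD : ∑ q, D q ^ 2 ≤ V) :
    (Measure.pi μ) {v | (∫ u, T u ∂(Measure.pi μ)) + t ≤ T v}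
      ≤ ENNReal.ofReal (Real.exp (-t ^ 2 / (2 * V))) := by
  set f : Fin (Fintype.card κ) ≃ κ := (Fintype.equivFin κ).symm with hf
  set e := MeasurableEquiv.piCongrLeft (fun _ : κ => ℂ) f with he
  have hmp : MeasurePreserving e (Measure.pi fun i => μ (f i)) (Measure.pi μ) :=
    measurePreserving_piCongrLeft μ f
  have hev : ∀ (v : Fin (Fintype.card κ) → ℂ) (k : κ), e v k = v (f.symm k) := by
    intro v k
    obtain ⟨i, rfl⟩ := f.surjective k
    rw [Equiv.symm_apply_apply]
    exact Equiv.piCongrLeft_apply_apply (fun _ : κ => ℂ) f v i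
  have heu : ∀ (v : Fin (Fintype.card κ) → ℂ) (i : Fin (Fintype.card κ)) (w : ℂ),
      e (Function.update v i w) = Function.update (e v) (f i) w := by
    intro v i w
    funext k
    rw [hev]
    by_cases hk : k = f i
    · subst hk
      rw [Equiv.symm_apply_apply, Function.update_self, Function.update_self]
    · have h1 : f.symm k ≠ i := fun h => hk (by rw [← h, Equiv.apply_symm_apply])
      rw [Function.update_of_ne h1, Function.update_of_ne hk, hev]
  have hmain : ∀ s : ℝ, ∫ v, Real.exp (s * T v) ∂(Measure.pi μ)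
      ≤ Real.exp (s * (∫ v, T v ∂(Measure.pi μ)) + s ^ 2 * (∑ q, D q ^ 2) / 2) := by
    intro s
    have h1 := mcd_exp_fin (Fintype.card κ) (fun i => μ (f i)) (fun v => T (e v))
      (hT.comp e.measurable) C (fun v => hC _) (fun i => D (f i))
      (fun v i w => by rw [heu]; exact hD _ _ _) s
    have h2 : ∫ v, Real.exp (s * T (e v)) ∂(Measure.pi fun i => μ (f i)) =
        ∫ v, Real.exp (s * T v) ∂(Measure.pi μ) :=
      hmp.integral_comp' (g := fun v => Real.exp (s * T v))
    have h3 : ∫ v, T (e v) ∂(Measure.pi fun i => μ (f i)) = ∫ v, T v ∂(Measure.pi μ) :=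
      hmp.integral_comp' (g := fun v => T v)
    have h4 : ∑ i, D (f i) ^ 2 = ∑ q, D q ^ 2 := f.sum_comp (fun q => D q ^ 2)
    rw [h2, h3, h4] at h1
    exact h1
  set m := ∫ u, T u ∂(Measure.pi μ) with hm
  have hs0 : 0 ≤ t / V := div_nonneg ht hV.le
  have hint : Integrable (fun v => Real.exp (t / V * T v)) (Measure.pi μ) := by
    refine Integrable.of_bound (hT.const_mul _).exp.aestronglyMeasurable
      (Real.exp (|t / V| * C)) (Filter.Eventually.of_forall fun v => ?_)
    rw [Real.norm_eq_abs, abs_of_pos (Real.exp_pos _)]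
    apply Real.exp_le_exp.2
    calc t / V * T v ≤ |t / V * T v| := le_abs_self _
      _ = |t / V| * |T v| := abs_mul _ _
      _ ≤ |t / V| * C := mul_le_mul_of_nonneg_left (hC v) (abs_nonneg _)
  have h5 := measure_ge_le_exp_mul_mgf (μ := Measure.pi μ) (X := T) (m + t) hs0 hint
  rw [ENNReal.le_ofReal_iff_toReal_le (measure_ne_top _ _) (Real.exp_pos _).le]
  refine h5.trans ?_
  have h6 : mgf T (Measure.pi μ) (t / V) ≤
      Real.exp (t / V * m + (t / V) ^ 2 * V / 2) := by
    refine (hmain (t / V)).trans (Real.exp_le_exp.2 ?_)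
    have h7 : (t / V) ^ 2 * (∑ q, D q ^ 2) ≤ (t / V) ^ 2 * V :=
      mul_le_mul_of_nonneg_left hVD (sq_nonneg _)
    linarith
  refine (mul_le_mul_of_nonneg_left h6 (Real.exp_pos _).le).trans ?_
  rw [← Real.exp_add]
  apply Real.exp_le_exp.2
  apply le_of_eq
  field_simp
  ring

end Pool.H2.TA
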