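import Mathlib
import Pool.Agent.H2.TA.Def

/-!
Module SYMA (short): the supremum of finitely many linear functionals and its average over signs.

`supL a v = ⨆ t, ‖∑ q, v q * a t q‖` over a finite nonempty type `τ`. Basic facts (`le_ciSup` with
`Set.finite_range.bddAbove`, `ciSup_le`). `supL_meas`: `Measurable.iSup`-type lemma over a finite type, or
write `supL a v = Finset.univ.sup' _ _` and use continuity.

`avg_sup`: for each `e` choose `t e` with `supL a (sg e * c) = ‖∑ q, sg (e q) * c q * a (t e) q‖`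
(`exists_eq_ciSup_of_finite`). By `inner_le_nnorm_mul_nnorm`/`Finset.inner_mul_le_norm_mul_norm`, or
`Real.inner_le_Lp_mul_Lq`, or simplest `inner`-free: `Finset.pow_arith_mean_le_arith_mean_pow`
(`Real.pow_arith_mean_le_arith_mean_pow`) with the weights `1/2^(card κ)`:
`(2^(-card) ∑_e S_e)^(2p) ≤ 2^(-card) ∑_e S_e^(2p) ≤ B^(2p)`, so `2^(-card) ∑_e S_e ≤ B`
(`pow_le_pow_left₀` contrapositive: `le_of_pow_le_pow_left₀`).
-/

set_option autoImplicit false

open Finset MeasureTheory ProbabilityTheory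

namespace Pool.H2.TA

variable {κ : Type} [Fintype κ] {τ : Type} [Fintype τ] [Nonempty τ]

/-- supremum of finitely many linear functionals -/
noncomputable def supL (a : τ → κ → ℂ) (v : κ → ℂ) : ℝ := ⨆ t, ‖∑ q, v q * a t q‖

lemma le_supL (a : τ → κ → ℂ) (v : κ → ℂ) (t : τ) : ‖∑ q, v q * a t q‖ ≤ supL a v :=
  le_ciSup (f := fun t => ‖∑ q, v q * a t q‖) (Set.finite_range _).bddAbove t

lemma supL_le (a : τ → κ → ℂ) (v : κ → ℂ) (C : ℝ) (h : ∀ t, ‖∑ q, v q * a t q‖ ≤ C) :
    supL a v ≤ C := ciSup_le h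

lemma supL_nonneg (a : τ → κ → ℂ) (v : κ → ℂ) : 0 ≤ supL a v :=
  (norm_nonneg _).trans (le_supL a v (Classical.arbitrary τ))

lemma supL_meas (a : τ → κ → ℂ) : Measurable (supL a) := by
  have h : ∀ t, Measurable (fun v : κ → ℂ => ‖∑ q, v q * a t q‖) := by
    intro t
    have hc : Continuous (fun v : κ → ℂ => ‖∑ q, v q * a t q‖) :=
      (continuous_finsetSum _ fun q _ => (continuous_apply q).mul continuous_const).norm
    exact hc.measurable
  exact Measurable.iSup h

lemma supL_bound (a : τ → κ → ℂ) (D : κ → ℝ) (hD : ∀ t q, ‖a t q‖ ≤ D q) (v : κ → ℂ) :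
    supL a v ≤ ∑ q, ‖v q‖ * D q := by
  refine supL_le a v _ fun t => (norm_sum_le _ _).trans (Finset.sum_le_sum fun q _ => ?_)
  rw [norm_mul]
  exact mul_le_mul_of_nonneg_left (hD t q) (norm_nonneg _)

lemma supL_update [DecidableEq κ] (a : τ → κ → ℂ) (D : κ → ℝ) (hD : ∀ t q, ‖a t q‖ ≤ D q)
    (v : κ → ℂ) (q : κ) (w : ℂ) :
    |supL a (Function.update v q w) - supL a v| ≤ ‖w - v q‖ * D q := by
  have key : ∀ t, ∑ r, (Function.update v q w) r * a t r =
      (∑ r, v r * a t r) + (w - v q) * a t q := by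
    intro t
    have h1 : ∀ r, (Function.update v q w) r * a t r =
        v r * a t r + (if r = q then (w - v q) * a t q else 0) := by
      intro r
      by_cases hr : r = q
      · subst hr
        rw [Function.update_self, if_pos rfl]
        ring
      · rw [Function.update_of_ne hr, if_neg hr, add_zero]
    rw [Finset.sum_congr rfl fun r _ => h1 r, Finset.sum_add_distrib,
      Finset.sum_ite_eq' Finset.univ q, if_pos (Finset.mem_univ q)]
  have hb : ∀ t, ‖(w - v q) * a t q‖ ≤ ‖w - v q‖ * D q := by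
    intro t
    rw [norm_mul]
    exact mul_le_mul_of_nonneg_left (hD t q) (norm_nonneg _)
  rw [abs_sub_le_iff]
  constructor
  · rw [sub_le_iff_le_add]
    refine supL_le a _ _ fun t => ?_
    rw [key t]
    have h1 := le_supL a v t
    have h2 := norm_add_le (∑ r, v r * a t r) ((w - v q) * a t q)
    have h3 := hb t
    linarith
  · rw [sub_le_iff_le_add]
    refine supL_le a _ _ fun t => ?_
    have h1 := le_supL a (Function.update v q w) t
    rw [key t] at h1
    have h2 := norm_sub_le ((∑ r, v r * a t r) + (w - v q) * a t q) ((w - v q) * a t q)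
    rw [add_sub_cancel_right] at h2
    have h3 := hb t
    linarith

theorem avg_sup [DecidableEq κ] (a : τ → κ → ℂ) (p : ℕ) (hp : 1 ≤ p) (B : ℝ) (hB : 0 ≤ B) (c : κ → ℂ)
    (h : ∀ t : (κ → Bool) → τ,
      ∑ e : κ → Bool, ‖∑ q, sg (e q) * c q * a (t e) q‖ ^ (2 * p) ≤ 2 ^ Fintype.card κ * B ^ (2 * p)) :
    ∑ e : κ → Bool, supL a (fun q => sg (e q) * c q) ≤ 2 ^ Fintype.card κ * B := by
  have hex : ∀ e : κ → Bool, ∃ t : τ,
      ‖∑ q, (sg (e q) * c q) * a t q‖ = supL a (fun q => sg (e q) * c q) := fun e =>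
    exists_eq_ciSup_of_finite (f := fun t => ‖∑ q, (sg (e q) * c q) * a t q‖)
  choose t ht using hex
  have h1 := h t
  have hcard : (Finset.univ : Finset (κ → Bool)).card = 2 ^ Fintype.card κ := by
    rw [Finset.card_univ, Fintype.card_fun, Fintype.card_bool]
  have h2 := pow_sum_le_card_mul_sum_pow (s := (Finset.univ : Finset (κ → Bool)))
    (f := fun e => supL a (fun q => sg (e q) * c q)) (fun e _ => supL_nonneg _ _) (2 * p - 1)
  have hp2 : 2 * p - 1 + 1 = 2 * p := by omega
  rw [hp2, hcard] at h2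
  have h3 : ∑ e : κ → Bool, supL a (fun q => sg (e q) * c q) ^ (2 * p) ≤
      2 ^ Fintype.card κ * B ^ (2 * p) := by
    refine le_trans (le_of_eq ?_) h1
    refine Finset.sum_congr rfl fun e _ => ?_
    rw [← ht e]
  have h4 : (∑ e : κ → Bool, supL a (fun q => sg (e q) * c q)) ^ (2 * p) ≤
      (2 ^ Fintype.card κ * B) ^ (2 * p) := by
    refine h2.trans ((mul_le_mul_of_nonneg_left h3 (by positivity)).trans (le_of_eq ?_))
    push_cast
    rw [mul_pow, ← mul_assoc, ← pow_succ, hp2]
  have h5 : 0 ≤ ∑ e : κ → Bool, supL a (fun q => sg (e q) * c q) :=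
    Finset.sum_nonneg fun e _ => supL_nonneg _ _
  exact (pow_le_pow_iff_left₀ h5 (by positivity) (by omega)).1 h4

end Pool.H2.TA
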