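import Mathlib
import Pool.Agent.H2.TA.SymA

/-!
Module SYM: symmetrisation. `μ q` are probability measures on `ℂ` carried by the unit disc with mean
zero, `π = Measure.pi μ`, `T = supL a`.

1. `T v ≤ ∫ T (v - w) dπ(w)`: for each `t`, `∑ v q a t q = ∫ ∑ (v q - w q) a t q dπ(w)` because
   `∫ w q dπ(w) = ∫ z dμ q = 0` (`MeasureTheory.measurePreserving_eval`, `MeasurePreserving.integral_comp'`
   or `integral_comp_eval`), and `‖∫ ..‖ ≤ ∫ ‖..‖ ≤ ∫ T (v - w)`; then `supL_le`.
   Everything is bounded a.e. (`‖w q‖ ≤ 1` a.e.), so integrable.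
2. Hence `∫ T dπ ≤ ∫ T (z.1 - z.2) d(π.prod π)(z)` (Fubini).
3. Pull back by `MeasurableEquiv.arrowProdEquivProdArrow` (measure preserving from
   `Measure.pi (fun q => (μ q).prod (μ q))` to `π.prod π`:
   `MeasureTheory.measurePreserving_arrowProdEquivProdArrow`): the integral is
   `∫ T (fun q => (w q).1 - (w q).2) dρ(w)`, `ρ = Measure.pi (fun q => (μ q).prod (μ q))`.
4. For `e : κ → Bool` the map `w ↦ (fun q => if e q then w q else (w q).swap)` preserves `ρ`
   (`MeasureTheory.measurePreserving_pi`, each coordinate map is the identity or `Prod.swap`,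
   `Measure.prod_swap`), and it changes `(w q).1 - (w q).2` into `sg (e q) * ((w q).1 - (w q).2)`. So for each `e`
   the integral equals `∫ T (fun q => sg (e q) * ((w q).1 - (w q).2)) dρ`.
5. Average over `e`: for `ρ`-almost every `w` all `‖(w q).1 - (w q).2‖ ≤ 2`, so `avg_sup` gives
   `∑_e T (..) ≤ 2^(card κ) B` pointwise; integrate.
-/

set_option autoImplicit false

open Finset MeasureTheory ProbabilityTheory

namespace Pool.H2.TA

variable {κ : Type} [Fintype κ] [DecidableEq κ] {τ : Type} [Fintype τ] [Nonempty τ]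

omit [DecidableEq κ] in
private lemma sym_bound (a : τ → κ → ℂ) (v : κ → ℂ) (C : ℝ) (hv : ∀ q, ‖v q‖ ≤ C) :
    supL a v ≤ ∑ q, C * ∑ t, ‖a t q‖ := by
  refine (supL_bound a (fun q => ∑ t, ‖a t q‖) (fun t q => ?_) v).trans ?_
  · exact Finset.single_le_sum (f := fun t => ‖a t q‖) (fun _ _ => norm_nonneg _) (mem_univ t)
  · apply Finset.sum_le_sum
    intro q _
    exact mul_le_mul_of_nonneg_right (hv q) (Finset.sum_nonneg fun _ _ => norm_nonneg _)

omit [DecidableEq κ] in
private lemma sym_int {Ω : Type} [MeasurableSpace Ω] (ρ : Measure Ω) [IsProbabilityMeasure ρ]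
    (a : τ → κ → ℂ) (F : Ω → κ → ℂ) (hF : Measurable F) (C : ℝ)
    (hC : ∀ᵐ w ∂ρ, ∀ q, ‖F w q‖ ≤ C) : Integrable (fun w => supL a (F w)) ρ := by
  refine Integrable.of_bound ((supL_meas a).comp hF).aestronglyMeasurable
    (∑ q, C * ∑ t, ‖a t q‖) ?_
  filter_upwards [hC] with w hw
  rw [Real.norm_eq_abs, abs_of_nonneg (supL_nonneg _ _)]
  exact sym_bound a (F w) C hw

omit [DecidableEq κ] in
private lemma sym_ae (μ : κ → Measure ℂ) [∀ q, IsProbabilityMeasure (μ q)]
    (hb : ∀ q, ∀ᵐ z ∂(μ q), ‖z‖ ≤ 1) : ∀ᵐ v ∂(Measure.pi μ), ∀ q, ‖v q‖ ≤ 1 := by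
  rw [ae_all_iff]
  intro q
  exact (measurePreserving_eval μ q).quasiMeasurePreserving.ae (hb q)

omit [DecidableEq κ] in
private lemma sym_step1 (μ : κ → Measure ℂ) [∀ q, IsProbabilityMeasure (μ q)]
    (hb : ∀ q, ∀ᵐ z ∂(μ q), ‖z‖ ≤ 1) (h0 : ∀ q, ∫ z, z ∂(μ q) = 0)
    (a : τ → κ → ℂ) (v : κ → ℂ) :
    supL a v ≤ ∫ w, supL a (v - w) ∂(Measure.pi μ) := by
  have hint : Integrable (fun w : κ → ℂ => supL a (v - w)) (Measure.pi μ) := by
    refine sym_int (Measure.pi μ) a (fun w => v - w) (measurable_const.sub measurable_id)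
      ((∑ q, ‖v q‖) + 1) ?_
    filter_upwards [sym_ae μ hb] with w hw q
    rw [Pi.sub_apply]
    calc ‖v q - w q‖ ≤ ‖v q‖ + ‖w q‖ := norm_sub_le _ _
      _ ≤ (∑ q, ‖v q‖) + 1 := add_le_add
        (Finset.single_le_sum (f := fun q => ‖v q‖) (fun _ _ => norm_nonneg _) (mem_univ q)) (hw q)
  apply supL_le
  intro t
  have hiq : ∀ q, Integrable (fun w : κ → ℂ => w q) (Measure.pi μ) := by
    intro q
    refine Integrable.of_bound (measurable_pi_apply q).aestronglyMeasurable 1 ?_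
    filter_upwards [sym_ae μ hb] with w hw
    exact hw q
  have hz : ∀ q, ∫ w : κ → ℂ, w q ∂(Measure.pi μ) = 0 := by
    intro q
    have := integral_comp_eval (μ := μ) (i := q) (f := fun z : ℂ => z)
      measurable_id.aestronglyMeasurable
    rw [this, h0 q]
  have h1 : ∑ q, v q * a t q = ∫ w : κ → ℂ, ∑ q, (v - w) q * a t q ∂(Measure.pi μ) := by
    rw [integral_finsetSum]
    · apply Finset.sum_congr rfl
      intro q _
      simp only [Pi.sub_apply]
      rw [integral_mul_const, integral_sub (integrable_const _) (hiq q), hz q, integral_const]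
      simp
    · intro q _
      exact ((integrable_const (v q)).sub (hiq q)).mul_const _
  rw [h1]
  refine (norm_integral_le_integral_norm _).trans ?_
  apply integral_mono_of_nonneg (Filter.Eventually.of_forall fun w => norm_nonneg _) hint
  exact Filter.Eventually.of_forall fun w => le_supL a (v - w) t

omit [DecidableEq κ] in
private lemma sym_step2 (μ : κ → Measure ℂ) [∀ q, IsProbabilityMeasure (μ q)]
    (hb : ∀ q, ∀ᵐ z ∂(μ q), ‖z‖ ≤ 1) (h0 : ∀ q, ∫ z, z ∂(μ q) = 0)
    (a : τ → κ → ℂ) :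
    ∫ v, supL a v ∂(Measure.pi μ) ≤
      ∫ w, supL a (fun q => (w q).1 - (w q).2) ∂(Measure.pi fun q => (μ q).prod (μ q)) := by
  have hprod : ∀ᵐ z ∂((Measure.pi μ).prod (Measure.pi μ)), ∀ q, ‖(z.1 - z.2) q‖ ≤ 2 := by
    have h1 := (Measure.quasiMeasurePreserving_fst (μ := Measure.pi μ)
      (ν := Measure.pi μ)).ae (sym_ae μ hb)
    have h2 := (Measure.quasiMeasurePreserving_snd (μ := Measure.pi μ)
      (ν := Measure.pi μ)).ae (sym_ae μ hb)
    filter_upwards [h1, h2] with z hz1 hz2 q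
    rw [Pi.sub_apply]
    calc ‖z.1 q - z.2 q‖ ≤ ‖z.1 q‖ + ‖z.2 q‖ := norm_sub_le _ _
      _ ≤ 2 := by linarith [hz1 q, hz2 q]
  have hi2 : Integrable (fun z : (κ → ℂ) × (κ → ℂ) => supL a (z.1 - z.2))
      ((Measure.pi μ).prod (Measure.pi μ)) :=
    sym_int _ a (fun z : (κ → ℂ) × (κ → ℂ) => z.1 - z.2) (measurable_fst.sub measurable_snd) 2 hprod
  have h3 : ∫ v, supL a v ∂(Measure.pi μ) ≤
      ∫ v, ∫ w, supL a (v - w) ∂(Measure.pi μ) ∂(Measure.pi μ) := by
    apply integral_mono (sym_int _ a (fun v => v) measurable_id 1 (sym_ae μ hb))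
      hi2.integral_prod_left
    intro v
    exact sym_step1 μ hb h0 a v
  refine h3.trans (le_of_eq ?_)
  rw [integral_integral hi2]
  have h4 := (measurePreserving_arrowProdEquivProdArrow ℂ ℂ κ μ μ).integral_comp'
    (g := fun z : (κ → ℂ) × (κ → ℂ) => supL a (z.1 - z.2))
  rw [← h4]
  rfl

omit [DecidableEq κ] in
private lemma sym_step4 (μ : κ → Measure ℂ) [∀ q, IsProbabilityMeasure (μ q)]
    (a : τ → κ → ℂ) (e : κ → Bool) :
    ∫ w, supL a (fun q => (w q).1 - (w q).2) ∂(Measure.pi fun q => (μ q).prod (μ q)) =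
      ∫ w, supL a (fun q => sg (e q) * ((w q).1 - (w q).2))
        ∂(Measure.pi fun q => (μ q).prod (μ q)) := by
  have hF : MeasurePreserving (fun (w : κ → ℂ × ℂ) q => (if e q then id else Prod.swap) (w q))
      (Measure.pi fun q => (μ q).prod (μ q)) (Measure.pi fun q => (μ q).prod (μ q)) := by
    apply measurePreserving_pi
    intro q
    cases e q with
    | true => exact MeasurePreserving.id _
    | false => exact Measure.measurePreserving_swap
  have hm : Measurable fun w : κ → ℂ × ℂ => supL a (fun q => (w q).1 - (w q).2) := by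
    apply (supL_meas a).comp
    rw [measurable_pi_iff]
    intro q
    exact (measurable_fst.comp (measurable_pi_apply q)).sub
      (measurable_snd.comp (measurable_pi_apply q))
  conv_lhs => rw [← hF.map_eq]
  rw [integral_map hF.measurable.aemeasurable hm.aestronglyMeasurable]
  congr 1
  funext w
  congr 1
  funext q
  by_cases hq : e q = true
  · simp [hq, sg]
  · rw [Bool.not_eq_true] at hq
    simp [hq, sg]

theorem symm_mean (μ : κ → Measure ℂ) [∀ q, IsProbabilityMeasure (μ q)]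
    (hb : ∀ q, ∀ᵐ z ∂(μ q), ‖z‖ ≤ 1) (h0 : ∀ q, ∫ z, z ∂(μ q) = 0)
    (a : τ → κ → ℂ) (p : ℕ) (hp : 1 ≤ p) (B : ℝ) (hB : 0 ≤ B)
    (h : ∀ c : κ → ℂ, (∀ q, ‖c q‖ ≤ 2) → ∀ t : (κ → Bool) → τ,
      ∑ e : κ → Bool, ‖∑ q, sg (e q) * c q * a (t e) q‖ ^ (2 * p) ≤ 2 ^ Fintype.card κ * B ^ (2 * p)) :
    ∫ v, supL a v ∂(Measure.pi μ) ≤ B := by
  refine (sym_step2 μ hb h0 a).trans ?_
  have hae : ∀ᵐ w ∂(Measure.pi fun q => (μ q).prod (μ q)), ∀ q, ‖(w q).1 - (w q).2‖ ≤ 2 := by
    rw [ae_all_iff]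
    intro q
    have h1 : ∀ᵐ z ∂((μ q).prod (μ q)), ‖z.1 - z.2‖ ≤ 2 := by
      have h2 := (Measure.quasiMeasurePreserving_fst (μ := μ q) (ν := μ q)).ae (hb q)
      have h3 := (Measure.quasiMeasurePreserving_snd (μ := μ q) (ν := μ q)).ae (hb q)
      filter_upwards [h2, h3] with z hz1 hz2
      exact (norm_sub_le _ _).trans (by linarith)
    exact (measurePreserving_eval (fun q => (μ q).prod (μ q)) q).quasiMeasurePreserving.ae h1
  have hi : ∀ e : κ → Bool, Integrable
      (fun w : κ → ℂ × ℂ => supL a (fun q => sg (e q) * ((w q).1 - (w q).2)))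
      (Measure.pi fun q => (μ q).prod (μ q)) := by
    intro e
    refine sym_int _ a (fun (w : κ → ℂ × ℂ) q => sg (e q) * ((w q).1 - (w q).2)) ?_ 2 ?_
    · rw [measurable_pi_iff]
      intro q
      exact measurable_const.mul ((measurable_fst.comp (measurable_pi_apply q)).sub
        (measurable_snd.comp (measurable_pi_apply q)))
    · filter_upwards [hae] with w hw q
      rw [norm_mul, sg_norm, one_mul]
      exact hw q
  have hsum : ∑ e : κ → Bool, ∫ w, supL a (fun q => sg (e q) * ((w q).1 - (w q).2))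
      ∂(Measure.pi fun q => (μ q).prod (μ q)) ≤ 2 ^ Fintype.card κ * B := by
    rw [← integral_finsetSum _ (fun e _ => hi e)]
    have h5 : ∫ _w : κ → ℂ × ℂ, (2 ^ Fintype.card κ * B : ℝ)
        ∂(Measure.pi fun q => (μ q).prod (μ q)) = 2 ^ Fintype.card κ * B := by
      rw [integral_const]
      simp
    rw [← h5]
    apply integral_mono_ae (integrable_finsetSum _ (fun e _ => hi e)) (integrable_const _)
    filter_upwards [hae] with w hw
    exact avg_sup a p hp B hB (fun q => (w q).1 - (w q).2) (h _ hw)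
  have hconst : ∑ e : κ → Bool, ∫ w, supL a (fun q => sg (e q) * ((w q).1 - (w q).2))
      ∂(Measure.pi fun q => (μ q).prod (μ q)) = 2 ^ Fintype.card κ *
        ∫ w, supL a (fun q => (w q).1 - (w q).2) ∂(Measure.pi fun q => (μ q).prod (μ q)) := by
    rw [Finset.sum_congr rfl fun e _ => (sym_step4 μ a e).symm, Finset.sum_const, nsmul_eq_mul,
      card_univ, Fintype.card_fun, Fintype.card_bool]
    push_cast
    ring
  rw [hconst] at hsum
  exact le_of_mul_le_mul_left hsum (by positivity)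

end Pool.H2.TA
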