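import Mathlib
import Pool.Agent.H2.TA.Sym
import Pool.Agent.H2.TA.McD

/-!
Module TAIL (short): large deviations of `supL a`.

`clip v q = if ‖v q‖ ≤ 1 then v q else 0`, `T' v = supL a (clip v)`: measurable, `|T' v| ≤ ∑ D q`
(`supL_bound`), `|T' (update v q w) - T' v| ≤ 2 D q` (`clip (update v q w) = update (clip v) q (clip w)`
and `supL_update`, both values have norm `≤ 1`), `T' = supL a` almost everywhere for `Measure.pi μ`
(`hb`; `ae_all_iff`, `MeasureTheory.Measure.ae_eval_ne`-like: use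
`(measurePreserving_eval μ q).quasiMeasurePreserving.ae`), so `∫ T' = ∫ supL a ≤ B` by `symm_mean`.
`mcdiarmid` with the differences `2 D q` and `4 V`: `π {T' ≥ ∫ T' + t} ≤ exp (-t^2/(8 V))`. Almost surely
`B + t ≤ ‖∑ v q a s q‖` implies `T' v ≥ ∫ T' + t` (`le_supL`). Use `measure_mono_ae`.
-/

set_option autoImplicit false

open Finset MeasureTheory ProbabilityTheory

namespace Pool.H2.TA

variable {κ : Type} [Fintype κ] [DecidableEq κ] {τ : Type} [Fintype τ] [Nonempty τ]

/-- clipping to the unit disc -/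
private noncomputable def clip (z : ℂ) : ℂ := if ‖z‖ ≤ 1 then z else 0

private lemma norm_clip (z : ℂ) : ‖clip z‖ ≤ 1 := by
  unfold clip
  split_ifs with h
  · exact h
  · simp

private lemma meas_clip : Measurable clip := by
  unfold clip
  exact Measurable.ite (measurableSet_le measurable_norm measurable_const) measurable_id
    measurable_const

private lemma clip_update (v : κ → ℂ) (q : κ) (w : ℂ) :
    (fun r => clip (Function.update v q w r)) =
      Function.update (fun r => clip (v r)) q (clip w) := by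
  funext r
  by_cases hr : r = q
  · subst hr
    simp
  · simp [hr]

theorem tail_sup (μ : κ → Measure ℂ) [∀ q, IsProbabilityMeasure (μ q)]
    (hb : ∀ q, ∀ᵐ z ∂(μ q), ‖z‖ ≤ 1) (h0 : ∀ q, ∫ z, z ∂(μ q) = 0)
    (a : τ → κ → ℂ) (p : ℕ) (hp : 1 ≤ p) (B : ℝ) (hB : 0 ≤ B)
    (h : ∀ c : κ → ℂ, (∀ q, ‖c q‖ ≤ 2) → ∀ t : (κ → Bool) → τ,
      ∑ e : κ → Bool, ‖∑ q, sg (e q) * c q * a (t e) q‖ ^ (2 * p) ≤ 2 ^ Fintype.card κ * B ^ (2 * p))
    (D : κ → ℝ) (hD : ∀ t q, ‖a t q‖ ≤ D q) (t V : ℝ) (ht : 0 ≤ t) (hV : 0 < V)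
    (hVD : ∑ q, D q ^ 2 ≤ V) :
    (Measure.pi μ) {v | ∃ s : τ, B + t ≤ ‖∑ q, v q * a s q‖}
      ≤ ENNReal.ofReal (Real.exp (-t ^ 2 / (8 * V))) := by
  classical
  have hD0 : ∀ q, 0 ≤ D q := fun q =>
    (norm_nonneg _).trans (hD (Classical.arbitrary τ) q)
  have hTm : Measurable (fun v : κ → ℂ => supL a (fun q => clip (v q))) :=
    (supL_meas a).comp (measurable_pi_lambda _ fun q => meas_clip.comp (measurable_pi_apply q))
  have hC : ∀ v : κ → ℂ, |supL a (fun q => clip (v q))| ≤ ∑ q, D q := by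
    intro v
    rw [abs_of_nonneg (supL_nonneg _ _)]
    refine (supL_bound a D hD _).trans (sum_le_sum fun q _ => ?_)
    calc ‖clip (v q)‖ * D q ≤ 1 * D q := mul_le_mul_of_nonneg_right (norm_clip _) (hD0 q)
      _ = D q := one_mul _
  have hd : ∀ (v : κ → ℂ) (q : κ) (w : ℂ),
      |supL a (fun r => clip (Function.update v q w r)) - supL a (fun r => clip (v r))|
        ≤ 2 * D q := by
    intro v q w
    rw [clip_update]
    refine (supL_update a D hD _ _ _).trans ?_
    refine mul_le_mul_of_nonneg_right ?_ (hD0 q)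
    refine (norm_sub_le _ _).trans ?_
    have h1 := norm_clip w
    have h2 := norm_clip (v q)
    linarith
  have hae : ∀ᵐ v ∂(Measure.pi μ), ∀ q, ‖v q‖ ≤ 1 :=
    ae_all_iff.2 fun q => (measurePreserving_eval μ q).quasiMeasurePreserving.ae (hb q)
  have hcl : ∀ v : κ → ℂ, (∀ q, ‖v q‖ ≤ 1) → (fun q => clip (v q)) = v := by
    intro v hv
    funext q
    unfold clip
    rw [if_pos (hv q)]
  have hint : ∫ v, supL a (fun q => clip (v q)) ∂(Measure.pi μ) ≤ B := by
    refine le_trans (le_of_eq ?_) (symm_mean μ hb h0 a p hp B hB h)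
    refine integral_congr_ae ?_
    filter_upwards [hae] with v hv
    rw [hcl v hv]
  have hm := mcdiarmid μ (fun v : κ → ℂ => supL a (fun q => clip (v q))) hTm (∑ q, D q) hC
    (fun q => 2 * D q) hd t (4 * V) ht (by linarith) (by
      calc ∑ q, (2 * D q) ^ 2 = 4 * ∑ q, D q ^ 2 := by
            rw [mul_sum]
            exact sum_congr rfl fun q _ => by ring
        _ ≤ 4 * V := by linarith)
  have he : -t ^ 2 / (2 * (4 * V)) = -t ^ 2 / (8 * V) := by
    congr 1
    ring
  rw [he] at hm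
  refine le_trans (measure_mono_ae ?_) hm
  filter_upwards [hae] with v hv hs
  obtain ⟨s, hs⟩ := hs
  change (∫ u, supL a (fun q => clip (u q)) ∂(Measure.pi μ)) + t ≤ supL a (fun q => clip (v q))
  rw [hcl v hv]
  have h1 := le_supL a v s
  linarith

end Pool.H2.TA
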