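import Mathlib
import Pool.Agent.H2.TA.Tail
import Pool.Agent.H2.TA.Rad

/-!
Module TRANS: the probability estimate for one block.

For each `a : A` let `E a` be the event for this `a`; the event is the union of the `E a`
(`measure_iUnion_fintype_le`, `measure_biUnion_finset_le`), so it is enough that
`μ (E a) ≤ ofReal (exp (-t^2/(8 Vr)))`. Fix `a`.
For `z : ℕ → ℂ` let `z' n = if ‖z n‖ ≤ 1 then z n else 0` and, for `x, y : τ`,
`al z (x,y) q0 = ∑ n ∈ S.filter (q n = q0), z' n * w a n * xs x (r1 n) * xs y (r2 n)`. Then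
`∑ q0, v q0 * al z (x,y) q0 = ∑ n ∈ S, v (q n) * z' n * w a n * xs x (r1 n) * xs y (r2 n)`
(`Finset.sum_fiberwise`), and `‖al z (x,y) q0‖ ≤ D q0` (number of terms).
For fixed `z` the hypothesis `h` of `tail_sup` (with `τ × τ`) is `rad_bil` with the coefficients
`U n := z' n * w a n`, `x e = xs (t e).1`, `y e = xs (t e).2`, and `hB`. So with `ν q = μ.map (V q)`:
`(Measure.pi ν) {v | ∃ x y, B + t ≤ ‖∑ n ∈ S, v (q n) * z' n * w a n * ..‖} ≤ exp (-t^2/(8 Vr))` for all `z`.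
Here `ν q` is carried by the unit disc (`ae_map_iff`), has mean `0` (`integral_map`).
Law: `μ.map (fun ω q => V q ω) = Measure.pi ν` (`iIndepFun_iff_map_fun_eq_pi_map`), and by `hind`
(`indepFun_iff_map_prod_eq_prod_map_map`) `μ.map (fun ω => ((fun n => U n ω), (fun q => V q ω)))` is the product.
`E a` is the preimage of the measurable set `{(z, v) | ∃ x y, B + t ≤ ‖..‖}` (finite union over `x, y` of
preimages of `Set.Ici` under measurable functions; on the image of `Ω` we have `z' = z`), whose product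
measure is the integral of the measures of its sections (`Measure.prod_apply`), each `≤ exp ..`.
-/

set_option autoImplicit false

open Finset MeasureTheory ProbabilityTheory

namespace Pool.H2.TA

private lemma block_one {Ω : Type} [MeasurableSpace Ω] (μ : Measure Ω) [IsProbabilityMeasure μ]
    {κ : Type} [Fintype κ] [DecidableEq κ] (V : κ → Ω → ℂ) (hVm : ∀ q, Measurable (V q))
    (hVb : ∀ q ω, ‖V q ω‖ ≤ 1) (hV0 : ∀ q, ∫ ω, V q ω ∂μ = 0) (hVi : iIndepFun V μ)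
    (S : Finset ℕ) (U : ℕ → Ω → ℂ) (hUm : ∀ n, Measurable (U n)) (hUb : ∀ n ω, ‖U n ω‖ ≤ 1)
    (hind : IndepFun (fun ω n => U n ω) (fun ω q => V q ω) μ)
    (q : ℕ → κ) (r1 r2 : ℕ → ℕ) (R : ℕ) (hR : 1 ≤ R) (hr1 : ∀ n ∈ S, 1 ≤ r1 n ∧ r1 n ≤ R)
    (hr2 : ∀ n ∈ S, 1 ≤ r2 n ∧ r2 n ≤ R) (s : ℝ) (hs : 0 ≤ s)
    (hs1 : ∀ r : ℕ, 1 ≤ r → (r : ℝ) * ord1 S q r1 r2 r ≤ s)
    (hs2 : ∀ r : ℕ, 1 ≤ r → (r : ℝ) * ord1 S q r2 r1 r ≤ s)
    (p : ℕ) (hp : 1 ≤ p) (B : ℝ) (hB0 : 0 ≤ B)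
    (hB : 2 * (R + 1) * ((1 + Real.log R) ^ 2 * (8 * p * s)) ^ p ≤ B ^ (2 * p))
    (D : κ → ℝ) (hD : ∀ q0, ((S.filter (fun n => q n = q0)).card : ℝ) ≤ D q0)
    (Vr : ℝ) (hVr0 : 0 < Vr) (hVr : ∑ q0, D q0 ^ 2 ≤ Vr)
    (w : ℕ → ℂ) (hw : ∀ n, ‖w n‖ ≤ 1)
    {τ : Type} [Fintype τ] [Nonempty τ] (xs : τ → ℕ → ℂ) (hxs : ∀ a n, ‖xs a n‖ ≤ 1)
    (t : ℝ) (ht : 0 ≤ t) :
    μ {ω | ∃ (x y : τ), B + t
        ≤ ‖∑ n ∈ S, V (q n) ω * U n ω * w n * xs x (r1 n) * xs y (r2 n)‖}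
      ≤ ENNReal.ofReal (Real.exp (-t ^ 2 / (8 * Vr))) := by
  classical
  set cl : ℂ → ℂ := fun z => if ‖z‖ ≤ 1 then z else 0 with hcl
  have hclb : ∀ z, ‖cl z‖ ≤ 1 := by
    intro z
    simp only [hcl]
    split_ifs with h
    · exact h
    · simp
  have hclm : Measurable cl := by
    apply Measurable.ite (measurableSet_le measurable_norm measurable_const) measurable_id
      measurable_const
  set G : τ → τ → (ℕ → ℂ) × (κ → ℂ) → ℂ := fun x y zv =>
    ∑ n ∈ S, zv.2 (q n) * cl (zv.1 n) * w n * xs x (r1 n) * xs y (r2 n) with hG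
  have hGm : ∀ x y, Measurable (G x y) := by
    intro x y
    apply Finset.measurable_fun_sum
    intro n _
    have m1 : Measurable (fun zv : (ℕ → ℂ) × (κ → ℂ) => zv.2 (q n)) :=
      (measurable_pi_apply (q n)).comp measurable_snd
    have m2 : Measurable (fun zv : (ℕ → ℂ) × (κ → ℂ) => cl (zv.1 n)) :=
      hclm.comp ((measurable_pi_apply n).comp measurable_fst)
    exact (((m1.mul m2).mul_const _).mul_const _).mul_const _
  set W : Set ((ℕ → ℂ) × (κ → ℂ)) := {zv | ∃ x y : τ, B + t ≤ ‖G x y zv‖} with hW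
  have hWm : MeasurableSet W := by
    have : W = ⋃ x : τ, ⋃ y : τ, {zv | B + t ≤ ‖G x y zv‖} := by
      ext zv
      simp [hW]
    rw [this]
    apply MeasurableSet.iUnion
    intro x
    apply MeasurableSet.iUnion
    intro y
    exact measurableSet_le measurable_const (hGm x y).norm
  set φ : Ω → (ℕ → ℂ) × (κ → ℂ) := fun ω => ((fun n => U n ω), (fun q => V q ω)) with hφ
  have hUv : Measurable (fun ω n => U n ω) := measurable_pi_lambda _ (fun n => hUm n)
  have hVv : Measurable (fun ω q => V q ω) := measurable_pi_lambda _ (fun q => hVm q)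
  have hφm : Measurable φ := hUv.prodMk hVv
  have hE : {ω | ∃ (x y : τ), B + t
        ≤ ‖∑ n ∈ S, V (q n) ω * U n ω * w n * xs x (r1 n) * xs y (r2 n)‖} = φ ⁻¹' W := by
    ext ω
    simp only [Set.mem_ofPred_eq, Set.mem_preimage, hW, hG, hφ]
    have h1 : ∀ n, cl (U n ω) = U n ω := by
      intro n
      simp only [hcl]
      rw [if_pos (hUb n ω)]
    simp only [h1]
  have hmap : μ.map φ = (μ.map (fun ω n => U n ω)).prod (μ.map (fun ω q => V q ω)) :=
    (indepFun_iff_map_prod_eq_prod_map_map hUv.aemeasurable hVv.aemeasurable).1 hind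
  have hpi : μ.map (fun ω q => V q ω) = Measure.pi (fun q => μ.map (V q)) :=
    (iIndepFun_iff_map_fun_eq_pi_map (fun q => (hVm q).aemeasurable)).1 hVi
  have : IsProbabilityMeasure (μ.map (fun ω n => U n ω)) :=
    Measure.isProbabilityMeasure_map hUv.aemeasurable
  have : IsProbabilityMeasure (μ.map (fun ω q => V q ω)) :=
    Measure.isProbabilityMeasure_map hVv.aemeasurable
  have : ∀ q, IsProbabilityMeasure (μ.map (V q)) := fun q =>
    Measure.isProbabilityMeasure_map (hVm q).aemeasurable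
  have hsec : ∀ z : ℕ → ℂ, (Measure.pi (fun q => μ.map (V q))) (Prod.mk z ⁻¹' W)
      ≤ ENNReal.ofReal (Real.exp (-t ^ 2 / (8 * Vr))) := by
    intro z
    set al : τ × τ → κ → ℂ := fun xy q0 => ∑ n ∈ S.filter (fun n => q n = q0),
      cl (z n) * w n * xs xy.1 (r1 n) * xs xy.2 (r2 n) with hal
    have hfib : ∀ (v : κ → ℂ) (xy : τ × τ), ∑ q0, v q0 * al xy q0
        = ∑ n ∈ S, v (q n) * cl (z n) * w n * xs xy.1 (r1 n) * xs xy.2 (r2 n) := by
      intro v xy
      rw [← Finset.sum_fiberwise S q]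
      apply sum_congr rfl
      intro q0 _
      simp only [hal]
      rw [mul_sum]
      apply sum_congr rfl
      intro n hn
      rw [(mem_filter.1 hn).2]
      ring
    have htail := tail_sup (fun q => μ.map (V q)) (fun q => by
        rw [ae_map_iff (hVm q).aemeasurable (measurableSet_le measurable_norm measurable_const)]
        exact Filter.Eventually.of_forall (hVb q)) (fun q => by
        have hmi := integral_map (hVm q).aemeasurable (f := fun z : ℂ => z)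
          (aestronglyMeasurable_id (μ := μ.map (V q)))
        exact hmi.trans (hV0 q)) al p hp B hB0 (fun c hc T => by
          have h1 := rad_bil S q r1 r2 R hR hr1 hr2 s hs hs1 hs2 c hc
            (fun n => cl (z n) * w n) (fun n => by
              rw [norm_mul]
              exact mul_le_one₀ (hclb _) (norm_nonneg _) (hw n)) p hp
            (fun e => xs (T e).1) (fun e => xs (T e).2) (fun e n => hxs _ _) (fun e n => hxs _ _)
          have h2 : ∀ e : κ → Bool, ∑ q, sg (e q) * c q * al (T e) q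
              = ∑ n ∈ S, sg (e (q n)) * c (q n) * (cl (z n) * w n) * xs (T e).1 (r1 n)
                * xs (T e).2 (r2 n) := by
            intro e
            rw [hfib (fun q => sg (e q) * c q) (T e)]
            apply sum_congr rfl
            intro n _
            ring
          simp only [h2]
          refine h1.trans ?_
          gcongr) D (fun xy q0 => by
          refine le_trans ?_ (hD q0)
          simp only [hal]
          calc ‖∑ n ∈ S.filter (fun n => q n = q0), cl (z n) * w n * xs xy.1 (r1 n)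
                * xs xy.2 (r2 n)‖ ≤ ∑ n ∈ S.filter (fun n => q n = q0), (1 : ℝ) := by
                apply norm_sum_le_of_le
                intro n _
                rw [norm_mul, norm_mul, norm_mul]
                exact mul_le_one₀ (mul_le_one₀ (mul_le_one₀ (hclb _) (norm_nonneg _) (hw n))
                  (norm_nonneg _) (hxs _ _)) (norm_nonneg _) (hxs _ _)
            _ = _ := by simp) t Vr ht hVr0 hVr
    refine le_trans (measure_mono ?_) htail
    intro v hv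
    simp only [Set.mem_preimage, hW, Set.mem_ofPred_eq, hG] at hv
    obtain ⟨x, y, hxy⟩ := hv
    refine ⟨(x, y), ?_⟩
    rw [hfib v (x, y)]
    exact hxy
  rw [hE, ← Measure.map_apply hφm hWm, hmap, hpi, Measure.prod_apply hWm]
  calc _ ≤ ∫⁻ _z, ENNReal.ofReal (Real.exp (-t ^ 2 / (8 * Vr))) ∂(μ.map (fun ω n => U n ω)) :=
        lintegral_mono hsec
    _ = _ := by
        rw [lintegral_const, measure_univ, mul_one]

theorem block_prob {Ω : Type} [MeasurableSpace Ω] (μ : Measure Ω) [IsProbabilityMeasure μ]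
    {κ : Type} [Fintype κ] [DecidableEq κ] (V : κ → Ω → ℂ) (hVm : ∀ q, Measurable (V q))
    (hVb : ∀ q ω, ‖V q ω‖ ≤ 1) (hV0 : ∀ q, ∫ ω, V q ω ∂μ = 0) (hVi : iIndepFun V μ)
    (S : Finset ℕ) (U : ℕ → Ω → ℂ) (hUm : ∀ n, Measurable (U n)) (hUb : ∀ n ω, ‖U n ω‖ ≤ 1)
    (hind : IndepFun (fun ω n => U n ω) (fun ω q => V q ω) μ)
    (q : ℕ → κ) (r1 r2 : ℕ → ℕ) (R : ℕ) (hR : 1 ≤ R) (hr1 : ∀ n ∈ S, 1 ≤ r1 n ∧ r1 n ≤ R)
    (hr2 : ∀ n ∈ S, 1 ≤ r2 n ∧ r2 n ≤ R) (s : ℝ) (hs : 0 ≤ s)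
    (hs1 : ∀ r : ℕ, 1 ≤ r → (r : ℝ) * ord1 S q r1 r2 r ≤ s)
    (hs2 : ∀ r : ℕ, 1 ≤ r → (r : ℝ) * ord1 S q r2 r1 r ≤ s)
    (p : ℕ) (hp : 1 ≤ p) (B : ℝ) (hB0 : 0 ≤ B)
    (hB : 2 * (R + 1) * ((1 + Real.log R) ^ 2 * (8 * p * s)) ^ p ≤ B ^ (2 * p))
    (D : κ → ℝ) (hD : ∀ q0, ((S.filter (fun n => q n = q0)).card : ℝ) ≤ D q0)
    (Vr : ℝ) (hVr0 : 0 < Vr) (hVr : ∑ q0, D q0 ^ 2 ≤ Vr)
    {A : Type} [Fintype A] (w : A → ℕ → ℂ) (hw : ∀ a n, ‖w a n‖ ≤ 1)
    {τ : Type} [Fintype τ] [Nonempty τ] (xs : τ → ℕ → ℂ) (hxs : ∀ a n, ‖xs a n‖ ≤ 1)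
    (t : ℝ) (ht : 0 ≤ t) :
    μ {ω | ∃ (a : A) (x y : τ), B + t
        ≤ ‖∑ n ∈ S, V (q n) ω * U n ω * w a n * xs x (r1 n) * xs y (r2 n)‖}
      ≤ ENNReal.ofReal (Fintype.card A * Real.exp (-t ^ 2 / (8 * Vr))) := by
  have hsub : {ω | ∃ (a : A) (x y : τ), B + t
        ≤ ‖∑ n ∈ S, V (q n) ω * U n ω * w a n * xs x (r1 n) * xs y (r2 n)‖}
      ⊆ ⋃ a : A, {ω | ∃ (x y : τ), B + t
        ≤ ‖∑ n ∈ S, V (q n) ω * U n ω * w a n * xs x (r1 n) * xs y (r2 n)‖} := by
    rintro ω ⟨a, x, y, h⟩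
    exact Set.mem_iUnion.2 ⟨a, x, y, h⟩
  refine le_trans (measure_mono hsub) ?_
  refine le_trans (measure_iUnion_fintype_le _ _) ?_
  calc _ ≤ ∑ _a : A, ENNReal.ofReal (Real.exp (-t ^ 2 / (8 * Vr))) := by
        apply Finset.sum_le_sum
        intro a _
        exact block_one μ V hVm hVb hV0 hVi S U hUm hUb hind q r1 r2 R hR hr1 hr2 s hs hs1 hs2 p hp
          B hB0 hB D hD Vr hVr0 hVr (w a) (hw a) xs hxs t ht
    _ = _ := by
        rw [Finset.sum_const, nsmul_eq_mul, ENNReal.ofReal_mul (by positivity),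
          ENNReal.ofReal_natCast]
        rfl

end Pool.H2.TA
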