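import Mathlib
import Pool.Agent.H2.TA.Trans
import Pool.Agent.H2.TA.Dec
import Pool.Agent.H2.TA.Num
import Pool.Agent.H2.TA.CntC
import Pool.Agent.H2.TA.Ind

/-!
Module BLK: the probability of a large sum over one class. Assembly of TRANS, DEC, CNT, NUM, IND.
-/

set_option autoImplicit false

open Finset Filter Topology MeasureTheory ProbabilityTheory

namespace Pool.H2.TA

open Pool.H2.Rand

variable {Ω : Type} [mΩ : MeasurableSpace Ω] {μ : Measure Ω} {ι : Type}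
  {F : ι → Ω → ArithmeticFunction ℂ}

theorem block_event [IsProbabilityMeasure μ] {σ : Type} [Fintype σ] (hF : RandMult μ F)
    (P : Par σ) (hP : P.Ok) (i₀ : ι) (c : σ → ι)
    (hmean : ∀ p, p.Prime → P.Q p → ∫ ω, F i₀ ω p ∂μ = 0)
    (u : ℕ → ℂ) (hu : ∀ n, ‖u n‖ ≤ 1) (j₀ : ℕ) (hj₀ : 3 ≤ j₀) :
    ∀ᶠ N : ℕ in atTop, ∀ j, j₀ ≤ j → j < Pool.H2.Sp.el N →
      μ {ω | ∃ g g' : ArithmeticFunction ℂ, g.IsMultiplicative ∧ (∀ n, ‖g n‖ ≤ 1) ∧
        g'.IsMultiplicative ∧ (∀ n, ‖g' n‖ ≤ 1) ∧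
        3 * (N : ℝ) / (Pool.H2.Sp.el N : ℝ) ^ 2 < ‖∑ n ∈ cls P j₀ N j, term F P i₀ c u ω g g' n‖}
        ≤ ENNReal.ofReal (1 / (N : ℝ) ^ 3) := by
  classical
  filter_upwards [big_ev P, num1 (P.b1 + P.b2), num2, num4 (P.b1 + P.b2), eventually_ge_atTop 1]
    with N hB h1 h2 h4 hN1
  intro j hj hjl
  set l := Pool.H2.Sp.el N with hl
  have hl0 : 0 < l := Pool.H2.Sp.el_pos N
  have hlr : (0 : ℝ) < l := by exact_mod_cast hl0
  have hN0 : (0 : ℝ) < N := by exact_mod_cast hN1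
  by_cases hne : (blk P.Q N j).Nonempty
  swap
  · -- empty block: empty class
    have hcl : cls P j₀ N j = ∅ := by
      rw [Finset.eq_empty_iff_forall_notMem]
      intro n hn
      exact hne ⟨_, qn_mem P j₀ N j n hn⟩
    have : {ω | ∃ g g' : ArithmeticFunction ℂ, g.IsMultiplicative ∧ (∀ n, ‖g n‖ ≤ 1) ∧
        g'.IsMultiplicative ∧ (∀ n, ‖g' n‖ ≤ 1) ∧
        3 * (N : ℝ) / (l : ℝ) ^ 2 < ‖∑ n ∈ cls P j₀ N j, term F P i₀ c u ω g g' n‖} = ∅ := by
      rw [Set.eq_empty_iff_forall_notMem]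
      rintro ω ⟨g, g', _, _, _, _, h⟩
      rw [hcl] at h
      simp only [sum_empty, norm_zero] at h
      have : 0 < 3 * (N : ℝ) / (l : ℝ) ^ 2 := by positivity
      linarith
    rw [this, measure_empty]
    exact bot_le
  obtain ⟨q0, hq0⟩ := hne
  set y := zz l (j - 1) with hy
  set S := cls P j₀ N j with hS
  set qm : ℕ → blk P.Q N j := fun n =>
    if h : qn P N j n ∈ blk P.Q N j then ⟨qn P N j n, h⟩ else ⟨q0, hq0⟩ with hqm
  have hqm1 : ∀ n ∈ S, ((qm n : blk P.Q N j) : ℕ) = qn P N j n := by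
    intro n hn
    simp only [hqm]
    rw [dif_pos (qn_mem P j₀ N j n hn)]
  set r1 : ℕ → ℕ := fun n => ro y (n + P.b1) with hr1
  set r2 : ℕ → ℕ := fun n => ro y (n + P.b2) with hr2
  set R : ℕ := 2 * N / l ^ 20 with hR
  have hrb := fun n hn => ro_bound P hP j₀ N j hj₀ hj hB n hn
  have hord := fun r hr => ord_bound P hP j₀ N j hj₀ hj hB qm (by
    intro n hn n' hn' h
    rw [← hqm1 n hn, ← hqm1 n' hn', h]) r hr
  have hR1 : 1 ≤ R := by
    rw [hR, Nat.le_div_iff_mul_le (by positivity)]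
    have h20 : l ^ 20 ≤ N := hB.2.1
    linarith
  have hM1 : 1 ≤ l ^ 4 := Nat.one_le_pow _ _ hl0
  have hblk : ∀ q : blk P.Q N j, (q : ℕ).Prime ∧ P.Q (q : ℕ) := by
    intro q
    have := mem_blk.1 q.2
    exact ⟨this.2.1, this.2.2.1⟩
  have key := block_prob μ (V := fun (q : blk P.Q N j) ω => F i₀ ω (q : ℕ))
    (fun q => hF.meas i₀ _) (fun q ω => hF.bd i₀ ω _) (fun q => hmean _ (hblk q).1 (hblk q).2)
    (iind_block hF P.Q i₀ N j) S
    (fun n ω => if n ∈ S then UU F P i₀ c u N j n ω else 0)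
    (fun n => by
      by_cases hn : n ∈ S
      · simp only [hn, if_true]; exact UU_meas hF P i₀ c u N j n
      · simp only [hn, if_false]; exact measurable_const)
    (fun n ω => by
      by_cases hn : n ∈ S
      · simp only [hn, if_true]; exact UU_norm hF P i₀ c u hu N j n ω
      · simp only [hn, if_false]; simp)
    (ind_block hF P hP i₀ c u j₀ N j)
    qm r1 r2 R hR1 (fun n hn => (hrb n hn).1) (fun n hn => (hrb n hn).2)
    (6 * (N : ℝ) ^ 2 / (l : ℝ) ^ 20) (by positivity)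
    (fun r hr => (hord r hr).1) (fun r hr => (hord r hr).2)
    (l + 2) (by omega) ((N : ℝ) / (l : ℝ) ^ 2) (by positivity)
    (by
      refine le_trans (le_of_eq ?_) h2
      rfl)
    (fun q => 2 * (N : ℝ) / ((q : ℕ) : ℝ)) (fun q => by
      refine le_trans ?_ (fib_bound P j₀ N j q q.2)
      refine Nat.cast_le.2 (card_le_card ?_)
      intro n hn
      rw [mem_filter] at hn ⊢
      refine ⟨hn.1, ?_⟩
      rw [← hqm1 n hn.1, hn.2])
    (8 * (N : ℝ) ^ 2 / (zz l j : ℝ)) (by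
      have : 0 < zz l j := by unfold zz; positivity
      positivity)
    (num3 P.Q N j)
    (A := (PP y (N + (P.b1 + P.b2)) → net (l ^ 4)) × (PP y (N + (P.b1 + P.b2)) → net (l ^ 4)))
    (fun a n => wv a.1 (n + P.b1) * wv a.2 (n + P.b2))
    (fun a n => by
      rw [norm_mul]
      exact mul_le_one₀ (wv_norm _ _) (norm_nonneg _) (wv_norm _ _))
    (τ := Fin (R + 1) → net (l ^ 4)) (fun x n => ev x n) (fun x n => ev_norm x n)
    ((N : ℝ) / (l : ℝ) ^ 2) (by positivity)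
  refine le_trans (measure_mono ?_) (key.trans (ENNReal.ofReal_le_ofReal ?_))
  · rintro ω ⟨g, g', hg, hgb, hg', hgb', hbig⟩
    obtain ⟨s, s', x, x', happ⟩ := approx_cls hF P hP i₀ c u hu j₀ N j (l ^ 4) R hM1
      (fun n hn => ⟨(hrb n hn).1.2, (hrb n hn).2.2⟩) ω g g' hg hgb hg' hgb'
    refine ⟨(s, s'), x, x', ?_⟩
    have hdiff : ‖∑ n ∈ S, term F P i₀ c u ω g g' n - ∑ n ∈ S, F i₀ ω ((qm n : blk P.Q N j) : ℕ)
        * (if n ∈ S then UU F P i₀ c u N j n ω else 0)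
        * (wv s (n + P.b1) * wv s' (n + P.b2)) * ev x (r1 n) * ev x' (r2 n)‖
        ≤ (N : ℝ) / (l : ℝ) ^ 2 := by
      rw [← sum_sub_distrib]
      calc _ ≤ ∑ _n ∈ S, (1 / (l : ℝ) ^ 2) := by
            apply norm_sum_le_of_le
            intro n hn
            rw [if_pos hn, hqm1 n hn]
            refine (happ n hn).trans ?_
            exact h1
        _ = (S.card : ℝ) * (1 / (l : ℝ) ^ 2) := by rw [sum_const, nsmul_eq_mul]
        _ ≤ (N : ℝ) * (1 / (l : ℝ) ^ 2) := by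
            gcongr
            have : S.card ≤ (range N).card := card_le_card (cls_sub P j₀ N j)
            rw [card_range] at this
            exact this
        _ = _ := by ring
    have h5 := norm_sub_norm_le (∑ n ∈ S, term F P i₀ c u ω g g' n)
      (∑ n ∈ S, F i₀ ω ((qm n : blk P.Q N j) : ℕ)
        * (if n ∈ S then UU F P i₀ c u N j n ω else 0)
        * (wv s (n + P.b1) * wv s' (n + P.b2)) * ev x (r1 n) * ev x' (r2 n))
    have h6 : 3 * (N : ℝ) / (l : ℝ) ^ 2 = (N : ℝ) / (l : ℝ) ^ 2 + ((N : ℝ) / (l : ℝ) ^ 2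
      + (N : ℝ) / (l : ℝ) ^ 2) := by ring
    rw [h6] at hbig
    show _ ≤ ‖∑ n ∈ S, F i₀ ω ((qm n : blk P.Q N j) : ℕ)
        * (if n ∈ S then UU F P i₀ c u N j n ω else 0)
        * (wv s (n + P.b1) * wv s' (n + P.b2)) * ev x (r1 n) * ev x' (r2 n)‖
    linarith
  · refine le_trans (le_of_eq ?_) (h4 j (hj₀.trans hj) hjl)
    rw [Fintype.card_prod, Fintype.card_fun, Fintype.card_coe, Fintype.card_coe]
    push_cast
    congr 1
    rw [← pow_two]

end Pool.H2.TA
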