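import Mathlib
import Pool.Agent.H2.TA.Bad
import Pool.Agent.H2.TA.Blk

/-!
Module CORE: the theorem for natural shifts.

`decomp`: a sum over `range N` splits into the sum over `bad` and the sums over the classes, which are
disjoint. `core`: for `ε = 1/(m+1)` take `j₀` from `bad_small` with `ε/2`; the events of
`block_event` (over `j₀ ≤ j < el N`) have total probability `≤ el N / N^3 ≤ 1/N^2`, so almost surely
only finitely many `N` are exceptional (Borel-Cantelli, `ae_eventually_notMem`); for the other `N`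
the sum is at most `ε N / 2 + el N * 3 N / (el N)^2`.
-/

set_option autoImplicit false

open Finset MeasureTheory ProbabilityTheory Filter Topology

namespace Pool.H2.TA

open Pool.H2.Rand

lemma decomp {σ : Type} (P : Par σ) (j₀ N : ℕ) (t : ℕ → ℂ) (ht : ∀ n, ‖t n‖ ≤ 1) :
    ‖∑ n ∈ range N, t n‖ ≤ ((bad P j₀ N).card : ℝ)
      + ∑ j ∈ Ico j₀ (Pool.H2.Sp.el N), ‖∑ n ∈ cls P j₀ N j, t n‖ := by
  classical
  set S := (Ico j₀ (Pool.H2.Sp.el N)).biUnion (fun j => cls P j₀ N j) with hS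
  have hdisj : ∀ i ∈ Ico j₀ (Pool.H2.Sp.el N), ∀ j ∈ Ico j₀ (Pool.H2.Sp.el N), i ≠ j →
      Disjoint (cls P j₀ N i) (cls P j₀ N j) := by
    have key : ∀ i j, j₀ ≤ i → i < j → Disjoint (cls P j₀ N i) (cls P j₀ N j) := by
      intro i j hi hij
      rw [disjoint_left]
      intro n hn hn'
      obtain ⟨p, hp, hd⟩ := (mem_cls.1 hn).2.2.1
      exact (mem_cls.1 hn').2.1 i hi hij p hp hd
    intro i hi j hj hij
    rw [mem_Ico] at hi hj
    rcases lt_or_gt_of_ne hij with h | h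
    · exact key i j hi.1 h
    · exact (key j i hj.1 h).symm
  have hunion : range N = bad P j₀ N ∪ S := by
    ext n
    simp only [hS, mem_union, mem_biUnion, mem_Ico, bad, mem_filter, mem_range]
    constructor
    · intro hn
      by_cases h : ∃ j, (j₀ ≤ j ∧ j < Pool.H2.Sp.el N) ∧ n ∈ cls P j₀ N j
      · exact Or.inr h
      · left
        refine ⟨hn, fun j h1 h2 h3 => h ⟨j, ⟨h1, h2⟩, h3⟩⟩
    · rintro (h | ⟨j, _, hj⟩)
      · exact h.1
      · exact (mem_cls.1 hj).1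
  have hdis2 : Disjoint (bad P j₀ N) S := by
    rw [disjoint_left]
    intro n hn hn'
    rw [hS, mem_biUnion] at hn'
    obtain ⟨j, hj, hnj⟩ := hn'
    rw [mem_Ico] at hj
    unfold bad at hn
    rw [mem_filter] at hn
    exact hn.2 j hj.1 hj.2 hnj
  rw [hunion, sum_union hdis2, hS, sum_biUnion hdisj]
  refine (norm_add_le _ _).trans (add_le_add ?_ (norm_sum_le _ _))
  calc ‖∑ n ∈ bad P j₀ N, t n‖ ≤ ∑ n ∈ bad P j₀ N, (1 : ℝ) :=
        norm_sum_le_of_le _ (fun n _ => ht n)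
    _ = _ := by simp

section
variable {Ω : Type} [mΩ : MeasurableSpace Ω] {μ : Measure Ω} {ι : Type}
  {F : ι → Ω → ArithmeticFunction ℂ}

lemma term_norm {σ : Type} [Fintype σ] (hF : RandMult μ F) (P : Par σ) (i₀ : ι) (c : σ → ι)
    (u : ℕ → ℂ) (hu : ∀ n, ‖u n‖ ≤ 1) (ω : Ω) (g g' : ArithmeticFunction ℂ)
    (hg : ∀ n, ‖g n‖ ≤ 1) (hg' : ∀ n, ‖g' n‖ ≤ 1) (n : ℕ) :
    ‖term F P i₀ c u ω g g' n‖ ≤ 1 := by
  unfold term
  rw [norm_mul, norm_mul, norm_mul, norm_mul, norm_prod]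
  have h1 : ∏ s, ‖F (c s) ω (n + P.bs s)‖ ≤ 1 :=
    prod_le_one (fun _ _ => norm_nonneg _) (fun _ _ => hF.bd _ _ _)
  have h0 : 0 ≤ ∏ s, ‖F (c s) ω (n + P.bs s)‖ := prod_nonneg (fun _ _ => norm_nonneg _)
  exact mul_le_one₀ (mul_le_one₀ (mul_le_one₀ (mul_le_one₀ (hF.bd _ _ _) (norm_nonneg _) (hu _))
    h0 h1) (norm_nonneg _) (hg _)) (norm_nonneg _) (hg' _)

theorem core [IsProbabilityMeasure μ] {σ : Type} [Fintype σ] (hF : RandMult μ F) (P : Par σ)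
    (hP : P.Ok) (hQ : Pool.H2.Sp.Div P.Q) (i₀ : ι) (c : σ → ι)
    (hmean : ∀ p, p.Prime → P.Q p → ∫ ω, F i₀ ω p ∂μ = 0)
    (u : ℕ → ℂ) (hu : ∀ n, ‖u n‖ ≤ 1) :
    ∀ᵐ ω ∂μ, ∀ ε : ℝ, 0 < ε → ∃ N₀ : ℕ, ∀ N ≥ N₀, ∀ g g' : ArithmeticFunction ℂ,
      g.IsMultiplicative → (∀ n, ‖g n‖ ≤ 1) → g'.IsMultiplicative → (∀ n, ‖g' n‖ ≤ 1) →
      ‖∑ n ∈ range N, term F P i₀ c u ω g g' n‖ ≤ ε * N := by
  classical
  -- countably many ε
  have hcount : ∀ m : ℕ, ∀ᵐ ω ∂μ, ∃ N₀ : ℕ, ∀ N ≥ N₀, ∀ g g' : ArithmeticFunction ℂ,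
      g.IsMultiplicative → (∀ n, ‖g n‖ ≤ 1) → g'.IsMultiplicative → (∀ n, ‖g' n‖ ≤ 1) →
      ‖∑ n ∈ range N, term F P i₀ c u ω g g' n‖ ≤ (1 / ((m : ℝ) + 1)) * N := by
    intro m
    set ε : ℝ := 1 / ((m : ℝ) + 1) with hε
    have hε0 : 0 < ε := by positivity
    obtain ⟨j₀, hj₀, hbad⟩ := bad_small P hP hQ (ε / 2) (by positivity)
    have hev := block_event hF P hP i₀ c hmean u hu j₀ hj₀
    set E : ℕ → Set Ω := fun N => {ω | ∃ j, j₀ ≤ j ∧ j < Pool.H2.Sp.el N ∧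
      ∃ g g' : ArithmeticFunction ℂ, g.IsMultiplicative ∧ (∀ n, ‖g n‖ ≤ 1) ∧
        g'.IsMultiplicative ∧ (∀ n, ‖g' n‖ ≤ 1) ∧
        3 * (N : ℝ) / (Pool.H2.Sp.el N : ℝ) ^ 2 < ‖∑ n ∈ cls P j₀ N j, term F P i₀ c u ω g g' n‖}
      with hE
    have hE1 : ∀ᶠ N : ℕ in atTop, μ (E N) ≤ ENNReal.ofReal (1 / (N : ℝ) ^ 2) := by
      filter_upwards [hev, eventually_ge_atTop 3] with N hN hN3
      have hsub : E N ⊆ ⋃ j ∈ (Finset.Ico j₀ (Pool.H2.Sp.el N)), {ω |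
          ∃ g g' : ArithmeticFunction ℂ, g.IsMultiplicative ∧ (∀ n, ‖g n‖ ≤ 1) ∧
          g'.IsMultiplicative ∧ (∀ n, ‖g' n‖ ≤ 1) ∧
          3 * (N : ℝ) / (Pool.H2.Sp.el N : ℝ) ^ 2
            < ‖∑ n ∈ cls P j₀ N j, term F P i₀ c u ω g g' n‖} := by
        intro ω hω
        obtain ⟨j, h1, h2, h3⟩ := hω
        simp only [Set.mem_iUnion]
        exact ⟨j, by rw [Finset.mem_Ico]; exact ⟨h1, h2⟩, h3⟩
      have hN0 : (0 : ℝ) < N := by exact_mod_cast (by omega : 0 < N)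
      calc μ (E N) ≤ μ (⋃ j ∈ (Finset.Ico j₀ (Pool.H2.Sp.el N)), {ω |
          ∃ g g' : ArithmeticFunction ℂ, g.IsMultiplicative ∧ (∀ n, ‖g n‖ ≤ 1) ∧
          g'.IsMultiplicative ∧ (∀ n, ‖g' n‖ ≤ 1) ∧
          3 * (N : ℝ) / (Pool.H2.Sp.el N : ℝ) ^ 2
            < ‖∑ n ∈ cls P j₀ N j, term F P i₀ c u ω g g' n‖}) := measure_mono hsub
        _ ≤ ∑ j ∈ Finset.Ico j₀ (Pool.H2.Sp.el N), μ {ω |
          ∃ g g' : ArithmeticFunction ℂ, g.IsMultiplicative ∧ (∀ n, ‖g n‖ ≤ 1) ∧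
          g'.IsMultiplicative ∧ (∀ n, ‖g' n‖ ≤ 1) ∧
          3 * (N : ℝ) / (Pool.H2.Sp.el N : ℝ) ^ 2
            < ‖∑ n ∈ cls P j₀ N j, term F P i₀ c u ω g g' n‖} := measure_biUnion_finset_le _ _
        _ ≤ ∑ j ∈ Finset.Ico j₀ (Pool.H2.Sp.el N), ENNReal.ofReal (1 / (N : ℝ) ^ 3) := by
            apply Finset.sum_le_sum
            intro j hj
            rw [Finset.mem_Ico] at hj
            exact hN j hj.1 hj.2
        _ = ENNReal.ofReal (((Pool.H2.Sp.el N - j₀ : ℕ) : ℝ) * (1 / (N : ℝ) ^ 3)) := by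
            rw [Finset.sum_const, Nat.card_Ico, nsmul_eq_mul, ENNReal.ofReal_mul (by positivity),
              ENNReal.ofReal_natCast]
        _ ≤ ENNReal.ofReal (1 / (N : ℝ) ^ 2) := by
            apply ENNReal.ofReal_le_ofReal
            have h1 : ((Pool.H2.Sp.el N - j₀ : ℕ) : ℝ) ≤ N := by
              have h2 := Pool.H2.Sp.el_le N
              have h3 := Real.log_le_sub_one_of_pos hN0
              have h4 : ((Pool.H2.Sp.el N - j₀ : ℕ) : ℝ) ≤ Pool.H2.Sp.el N := by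
                exact_mod_cast Nat.sub_le _ _
              linarith
            calc _ ≤ (N : ℝ) * (1 / (N : ℝ) ^ 3) := by gcongr
              _ = 1 / (N : ℝ) ^ 2 := by field_simp
    have hsum : (∑' N, μ (E N)) ≠ ⊤ := by
      obtain ⟨N₁, hN₁⟩ := eventually_atTop.1 hE1
      have hs : Summable (fun N : ℕ => 1 / ((N : ℝ) ^ 2)) :=
        Real.summable_one_div_nat_pow.2 (by norm_num)
      rw [← Summable.sum_add_tsum_nat_add' (k := N₁) ENNReal.summable]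
      apply ENNReal.add_ne_top.2
      constructor
      · exact (ENNReal.sum_lt_top.2 (fun N _ => measure_lt_top μ _)).ne
      · apply ne_top_of_le_ne_top (b := ∑' N : ℕ, ENNReal.ofReal (1 / ((N + N₁ : ℕ) : ℝ) ^ 2))
        · have hs2 : Summable (fun N : ℕ => 1 / (((N + N₁ : ℕ) : ℝ) ^ 2)) :=
            (summable_nat_add_iff N₁).2 hs
          rw [← ENNReal.ofReal_tsum_of_nonneg (fun _ => by positivity) hs2]
          exact ENNReal.ofReal_ne_top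
        · exact ENNReal.tsum_le_tsum (fun N => hN₁ (N + N₁) (by omega))
    filter_upwards [ae_eventually_notMem hsum] with ω hω
    have hlim : ∀ᶠ N : ℕ in atTop, 3 / (Pool.H2.Sp.el N : ℝ) ≤ ε / 2 := by
      have h1 : Tendsto (fun N : ℕ => (Pool.H2.Sp.el N : ℝ)) atTop atTop := by
        refine tendsto_atTop_mono (fun N => (Pool.H2.Sp.log_lt_el N).le) ?_
        exact Real.tendsto_log_atTop.comp tendsto_natCast_atTop_atTop
      filter_upwards [h1.eventually_ge_atTop (6 / ε)] with N hN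
      have h0 : (0 : ℝ) < Pool.H2.Sp.el N := by exact_mod_cast Pool.H2.Sp.el_pos N
      rw [div_le_div_iff₀ h0 (by norm_num)]
      rw [div_le_iff₀ hε0] at hN
      linarith
    obtain ⟨N₀, hN₀⟩ := eventually_atTop.1 (hω.and (hbad.and (hlim.and (eventually_ge_atTop 1))))
    refine ⟨N₀, fun N hN g g' hg hgb hg' hgb' => ?_⟩
    obtain ⟨hnot, hb, hl, hN1⟩ := hN₀ N hN
    have h1 := decomp P j₀ N (fun n => term F P i₀ c u ω g g' n)
      (fun n => term_norm hF P i₀ c u hu ω g g' hgb hgb' n)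
    have h2 : ∀ j ∈ Finset.Ico j₀ (Pool.H2.Sp.el N),
        ‖∑ n ∈ cls P j₀ N j, term F P i₀ c u ω g g' n‖
          ≤ 3 * (N : ℝ) / (Pool.H2.Sp.el N : ℝ) ^ 2 := by
      intro j hj
      rw [Finset.mem_Ico] at hj
      by_contra hcon
      push Not at hcon
      exact hnot ⟨j, hj.1, hj.2, g, g', hg, hgb, hg', hgb', hcon⟩
    have h0 : (0 : ℝ) < Pool.H2.Sp.el N := by exact_mod_cast Pool.H2.Sp.el_pos N
    have h3 : ∑ j ∈ Finset.Ico j₀ (Pool.H2.Sp.el N),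
        ‖∑ n ∈ cls P j₀ N j, term F P i₀ c u ω g g' n‖ ≤ (ε / 2) * N := by
      calc _ ≤ ∑ j ∈ Finset.Ico j₀ (Pool.H2.Sp.el N),
            3 * (N : ℝ) / (Pool.H2.Sp.el N : ℝ) ^ 2 := Finset.sum_le_sum h2
        _ = ((Pool.H2.Sp.el N - j₀ : ℕ) : ℝ) * (3 * (N : ℝ) / (Pool.H2.Sp.el N : ℝ) ^ 2) := by
            rw [Finset.sum_const, Nat.card_Ico, nsmul_eq_mul]
        _ ≤ (Pool.H2.Sp.el N : ℝ) * (3 * (N : ℝ) / (Pool.H2.Sp.el N : ℝ) ^ 2) := by
            gcongr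
            exact_mod_cast Nat.sub_le _ _
        _ = (3 / (Pool.H2.Sp.el N : ℝ)) * N := by field_simp
        _ ≤ (ε / 2) * N := by gcongr
    calc _ ≤ _ := h1
      _ ≤ ε / 2 * N + (ε / 2) * N := add_le_add hb h3
      _ = ε * N := by ring
  rw [← ae_all_iff] at hcount
  filter_upwards [hcount] with ω hω
  intro ε hε
  obtain ⟨m, hm⟩ := exists_nat_one_div_lt hε
  obtain ⟨N₀, hN₀⟩ := hω m
  refine ⟨N₀, fun N hN g g' hg hgb hg' hgb' => (hN₀ N hN g g' hg hgb hg' hgb').trans ?_⟩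
  gcongr

end

end Pool.H2.TA
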