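import Mathlib

/-!
Module FINS (Mathlib only, very short): the sums of `B` over `Icc 1 N` and over `Ico H (N+H)` differ by at most
`2 (H + 1)` in norm. (`∑ m ∈ range N, B (m+H) = ∑ n ∈ Ico H (N+H), B n`, `Finset.sum_Ico_add'`;
compare both with `∑ n ∈ range (N + H + 1), B n`, or count the symmetric difference. If `N ≤ H` both sums have
at most `H` terms each.)
-/

set_option autoImplicit false

open Finset

namespace Pool.H2.TA

lemma shift_sum (B : ℕ → ℂ) (hB : ∀ n, ‖B n‖ ≤ 1) (H N : ℕ) :
    ‖∑ n ∈ Icc 1 N, B n - ∑ m ∈ range N, B (m + H)‖ ≤ 2 * (H + 1) := by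
  have h1 : ∑ n ∈ Icc 1 N, B n = ∑ m ∈ range N, B (m + 1) := by
    induction N with
    | zero => simp
    | succ N ih => rw [Finset.sum_Icc_succ_top (by omega), ih, Finset.sum_range_succ]
  have h2 : ∀ h : ℕ, ‖∑ m ∈ range N, B (m + h) - ∑ m ∈ range N, B (m + (h + 1))‖ ≤ 2 := by
    intro h
    have e1 := Finset.sum_range_succ (fun m => B (m + h)) N
    have e2 := Finset.sum_range_succ' (fun m => B (m + h)) N
    have e3 : ∑ m ∈ range N, B (m + 1 + h) = ∑ m ∈ range N, B (m + (h + 1)) :=
      Finset.sum_congr rfl fun m _ => by rw [add_assoc, add_comm 1 h]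
    rw [e3] at e2
    have e4 : ∑ m ∈ range N, B (m + h) - ∑ m ∈ range N, B (m + (h + 1)) =
        B (0 + h) - B (N + h) := by
      linear_combination e2 - e1
    rw [e4]
    refine (norm_sub_le _ _).trans ?_
    have := hB (0 + h)
    have := hB (N + h)
    linarith
  rw [h1]
  induction H with
  | zero =>
    rw [← norm_neg, neg_sub]
    have h3 := h2 0
    simp only [zero_add] at h3
    refine (h3.trans ?_)
    norm_num
  | succ H ih =>
    have h3 := h2 H
    have e : ∑ m ∈ range N, B (m + 1) - ∑ m ∈ range N, B (m + (H + 1)) =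
        (∑ m ∈ range N, B (m + 1) - ∑ m ∈ range N, B (m + H)) +
          (∑ m ∈ range N, B (m + H) - ∑ m ∈ range N, B (m + (H + 1))) := by ring
    rw [e]
    refine (norm_add_le _ _).trans ?_
    push_cast
    linarith

end Pool.H2.TA
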