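import Mathlib
import Pool.Agent.H2.TA.Core
import Pool.Agent.H2.TA.FinS

/-!
Module FIND: from `core` (natural positions, sum over `range N`) to integer shifts, one choice of data.

`H = 1 + ∑ x, (h x).natAbs`, position of an index `x`: `pos x = (h x + H).toNat ≥ 1`, so for all `m`:
`((m + H : ℕ) + h x).toNat = m + pos x`. Parameters for `core`: `b0 = pos j`, `b1 = pos a`, `b2 = pos b`;
`σ = {x : Fin k // x ≠ a ∧ x ≠ b ∧ x ≠ j ∧ (τ x).isLeft}`, `bs x = pos x`, `c x` = the index in `τ x`;
`u m` = product over the `x ≠ a, b, j` with `τ x = inr l` of `D l (m + pos x)` (norm `≤ 1`);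
`Q = (fun p => p ∈ Pr)`; `Pool.H2.Sp.Thick Pr` is `Pool.H2.Sp.Div Q` (unfold both; `Div` is in SpDiv.lean).
`h x ≠ h j` for `x ≠ j` gives the conditions `≠` of `Par.Ok`. `hmean` gives the mean zero condition.

If `a ≠ b`, the product `∏ x, (update (update G a g) b g') x ((m + H) + h x).toNat` (with `G x = slot F D ω (τ x)`) equals
`term F P i c u ω g g' m` (pull out the indices `j, a, b`, split the others by `τ x`). If `a = b` the double update is
`update G a g'`; use `core` for `g` replaced by `Pool.H2.Rand.oneAF` (one at the positive integers; it is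
multiplicative), so that the product is `term F P i c u ω oneAF g' m` (here `b1 = b2 = pos a`).
Apply `shift_sum` to `B n = ∏ x, (...) x (n + h x).toNat` (norm `≤ 1` by `slot_bd`), and `2 (H+1) ≤ (ε/2) N` for large `N`,
`core` with `ε/2`.
-/

set_option autoImplicit false

open Finset MeasureTheory ProbabilityTheory Filter Topology

namespace Pool.H2.TA

open Pool.H2.Rand

variable {Ω : Type} [mΩ : MeasurableSpace Ω] {μ : Measure Ω} {ι : Type}
  {F : ι → Ω → ArithmeticFunction ℂ}

private noncomputable def dval (D : ℕ → ArithmeticFunction ℂ) (y : ι ⊕ ℕ) (n : ℕ) : ℂ :=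
  match y with
  | Sum.inl _ => 1
  | Sum.inr l => D l n

private noncomputable def rval (F : ι → Ω → ArithmeticFunction ℂ) (ω : Ω) (y : ι ⊕ ℕ) (n : ℕ) : ℂ :=
  match y with
  | Sum.inl i => F i ω n
  | Sum.inr _ => 1

omit mΩ in
private lemma slot_eq (D : ℕ → ArithmeticFunction ℂ) (ω : Ω) (y : ι ⊕ ℕ) (n : ℕ) :
    slot F D ω y n = rval F ω y n * dval D y n := by
  cases y <;> simp [slot, rval, dval]

open Classical in
omit mΩ in
private lemma prod_eq (D : ℕ → ArithmeticFunction ℂ) (k : ℕ) (a b j : Fin k) (τ : Fin k → ι ⊕ ℕ)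
    (i : ι) (hja : j ≠ a) (hjb : j ≠ b) (hτ : τ j = Sum.inl i) (pos : Fin k → ℕ)
    (ha : 1 ≤ pos a) (ω : Ω) (g g' : ArithmeticFunction ℂ) (m : ℕ) :
    ∏ x, (Function.update (Function.update (fun x => slot F D ω (τ x)) a g) b g') x (m + pos x)
      = F i ω (m + pos j) * (∏ x ∈ univ.filter (fun x => x ≠ a ∧ x ≠ b ∧ x ≠ j),
        dval D (τ x) (m + pos x)) *
        (∏ s : {x : Fin k // (x ≠ a ∧ x ≠ b ∧ x ≠ j) ∧ (τ x).isLeft = true},
          F ((τ s.1).getLeft s.2.2) ω (m + pos s.1)) *
        (if a = b then oneAF else g) (m + pos a) * g' (m + pos b) := by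
  set G := Function.update (Function.update (fun x => slot F D ω (τ x)) a g) b g' with hG
  set T : Finset (Fin k) := univ.filter (fun x => x ≠ a ∧ x ≠ b ∧ x ≠ j) with hT
  have h1 : ∏ x, G x (m + pos x) = G j (m + pos j) * ((if a = b then oneAF else g) (m + pos a) *
      (G b (m + pos b) * ∏ x ∈ T, G x (m + pos x))) := by
    by_cases hab : a = b
    · subst hab
      have hone : (oneAF (m + pos a) : ℂ) = 1 := by
        simp only [oneAF, ArithmeticFunction.coe_mk]
        rw [if_neg (by omega)]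
      simp only [if_true, hone, one_mul]
      have hTe : T = (univ.erase j).erase a := by
        ext x
        simp only [hT, mem_filter, mem_univ, true_and, mem_erase]
        tauto
      rw [hTe, mul_prod_erase (univ.erase j) (fun x => G x (m + pos x))
        (mem_erase.2 ⟨hja.symm, mem_univ _⟩), mul_prod_erase univ (fun x => G x (m + pos x))
        (mem_univ j)]
    · simp only [hab, if_false]
      have hTe : T = ((univ.erase j).erase a).erase b := by
        ext x
        simp only [hT, mem_filter, mem_univ, true_and, mem_erase]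
        tauto
      have hGa : G a = g := by
        simp only [hG]
        rw [Function.update_of_ne hab, Function.update_self]
      rw [hTe, mul_prod_erase ((univ.erase j).erase a) (fun x => G x (m + pos x))
        (mem_erase.2 ⟨Ne.symm hab, mem_erase.2 ⟨hjb.symm, mem_univ _⟩⟩)]
      nth_rewrite 1 [← hGa]
      rw [mul_prod_erase (univ.erase j) (fun x => G x (m + pos x))
        (mem_erase.2 ⟨hja.symm, mem_univ _⟩), mul_prod_erase univ (fun x => G x (m + pos x))
        (mem_univ j)]
  have h2 : G j = F i ω := by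
    simp only [hG]
    rw [Function.update_of_ne hjb, Function.update_of_ne hja, hτ]
    rfl
  have h3 : G b = g' := by
    simp only [hG]
    rw [Function.update_self]
  have h4 : ∏ x ∈ T, G x (m + pos x) = (∏ x ∈ T, rval F ω (τ x) (m + pos x)) *
      ∏ x ∈ T, dval D (τ x) (m + pos x) := by
    rw [← prod_mul_distrib]
    apply prod_congr rfl
    intro x hx
    simp only [hT, mem_filter, mem_univ, true_and] at hx
    have hGx : G x = slot F D ω (τ x) := by
      simp only [hG]
      rw [Function.update_of_ne hx.2.1, Function.update_of_ne hx.1]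
    rw [hGx, slot_eq]
  have h5 : (∏ x ∈ T, rval F ω (τ x) (m + pos x))
      = ∏ s : {x : Fin k // (x ≠ a ∧ x ≠ b ∧ x ≠ j) ∧ (τ x).isLeft = true},
          F ((τ s.1).getLeft s.2.2) ω (m + pos s.1) := by
    have h6 : (∏ x ∈ T, rval F ω (τ x) (m + pos x))
        = ∏ x ∈ T.filter (fun x => (τ x).isLeft = true), rval F ω (τ x) (m + pos x) := by
      symm
      apply Finset.prod_filter_of_ne
      intro x _ hx
      by_contra hc
      apply hx
      cases hy : τ x with
      | inl y => simp [hy] at hc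
      | inr y => simp [rval]
    have h7 : (∏ x ∈ T.filter (fun x => (τ x).isLeft = true), rval F ω (τ x) (m + pos x))
        = ∏ s : {x : Fin k // (x ≠ a ∧ x ≠ b ∧ x ≠ j) ∧ (τ x).isLeft = true},
          rval F ω (τ s.1) (m + pos s.1) := by
      apply Finset.prod_subtype
      intro x
      simp only [hT, mem_filter, mem_univ, true_and]
    rw [h6, h7]
    apply prod_congr rfl
    intro s _
    obtain ⟨x, hx1, hx2⟩ := s
    show rval F ω (τ x) (m + pos x) = F ((τ x).getLeft hx2) ω (m + pos x)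
    obtain ⟨y, hy⟩ := Sum.isLeft_iff.1 hx2
    have : (τ x).getLeft hx2 = y := by
      simp [hy]
    rw [this, hy]
    rfl
  rw [h1, h2, h3, h4, h5]
  ring

/-- one choice of data -/
theorem one_data [IsProbabilityMeasure μ] (hF : RandMult μ F)
    (Pr : Set ℕ) (hPr : Pool.H2.Sp.Thick Pr) (i : ι)
    (hmean : ∀ p ∈ Pr, p.Prime → ∫ ω, F i ω p ∂μ = 0)
    (D : ℕ → ArithmeticFunction ℂ) (hD : ∀ l n, ‖D l n‖ ≤ 1) (k : ℕ) (a b j : Fin k)
    (h : Fin k → ℤ) (τ : Fin k → ι ⊕ ℕ) (hja : j ≠ a) (hjb : j ≠ b) (hτ : τ j = Sum.inl i)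
    (hh : ∀ x, x ≠ j → h x ≠ h j) :
    ∀ᵐ ω ∂μ, ∀ ε : ℝ, 0 < ε → ∃ N₀ : ℕ, ∀ N ≥ N₀, ∀ g g' : ArithmeticFunction ℂ,
      g.IsMultiplicative → (∀ n, ‖g n‖ ≤ 1) → g'.IsMultiplicative → (∀ n, ‖g' n‖ ≤ 1) →
      ‖(1 / (N : ℂ)) * ∑ n ∈ Icc 1 N, ∏ x, (Function.update (Function.update
        (fun x => slot F D ω (τ x)) a g) b g') x ((n : ℤ) + h x).toNat‖ ≤ ε := by
  classical
  set H : ℕ := 1 + ∑ x, (h x).natAbs with hH
  set pos : Fin k → ℕ := fun x => (h x + H).toNat with hpos
  have hx1 : ∀ x, 1 ≤ h x + H := by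
    intro x
    have h1 : (h x).natAbs ≤ ∑ x, (h x).natAbs :=
      Finset.single_le_sum (f := fun x => (h x).natAbs) (fun _ _ => Nat.zero_le _) (mem_univ x)
    omega
  have hposx : ∀ x, ((pos x : ℕ) : ℤ) = h x + H := by
    intro x
    have := hx1 x
    simp only [hpos]
    omega
  have hpos1 : ∀ x, 1 ≤ pos x := by
    intro x
    have := hx1 x
    have := hposx x
    omega
  have hposne : ∀ x, x ≠ j → pos x ≠ pos j := by
    intro x hx he
    apply hh x hx
    have h1 := hposx x
    have h2 := hposx j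
    rw [he] at h1
    omega
  have hshift : ∀ (m : ℕ) (x : Fin k), (((m + H : ℕ) : ℤ) + h x).toNat = m + pos x := by
    intro m x
    have := hposx x
    omega
  let P : Par {x : Fin k // (x ≠ a ∧ x ≠ b ∧ x ≠ j) ∧ (τ x).isLeft = true} :=
    { Q := fun p => p ∈ Pr
      b0 := pos j
      b1 := pos a
      b2 := pos b
      bs := fun x => pos x.1 }
  have hP : P.Ok :=
    { p0 := hpos1 j
      p1 := hpos1 a
      p2 := hpos1 b
      ps := fun s => hpos1 s.1
      n1 := hposne a (Ne.symm hja)
      n2 := hposne b (Ne.symm hjb)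
      ns := fun s => hposne s.1 s.2.1.2.2 }
  set u : ℕ → ℂ := fun m => ∏ x ∈ univ.filter (fun x => x ≠ a ∧ x ≠ b ∧ x ≠ j),
        dval D (τ x) (m + pos x) with hu
  have hub : ∀ m, ‖u m‖ ≤ 1 := by
    intro m
    simp only [hu]
    rw [norm_prod]
    apply prod_le_one (fun _ _ => norm_nonneg _)
    intro x _
    unfold dval
    cases τ x with
    | inl y => simp
    | inr y => exact hD _ _
  have hQ : Pool.H2.Sp.Div P.Q := by
    unfold Pool.H2.Sp.Div
    unfold Pool.H2.Sp.Thick at hPr
    convert hPr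
  have hcore := core hF P hP hQ i (fun s => (τ s.1).getLeft s.2.2) (fun p hp hpQ => hmean p hpQ hp)
    u hub
  have honem : (oneAF : ArithmeticFunction ℂ).IsMultiplicative := by
    refine ⟨by simp [oneAF], ?_⟩
    intro m n _
    simp only [oneAF, ArithmeticFunction.coe_mk, mul_eq_zero]
    by_cases hm : m = 0 <;> by_cases hn : n = 0 <;> simp [hm, hn]
  have honeb : ∀ n, ‖oneAF n‖ ≤ 1 := by
    intro n
    simp only [oneAF, ArithmeticFunction.coe_mk]
    split_ifs <;> simp
  filter_upwards [hcore] with ω hω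
  intro ε hε
  obtain ⟨N₀, hN₀⟩ := hω (ε / 2) (by positivity)
  refine ⟨max (max N₀ ⌈4 * ((H : ℝ) + 1) / ε⌉₊) 1, fun N hN g g' hg hgb hg' hgb' => ?_⟩
  have hNN₀ : N₀ ≤ N := le_trans (le_trans (le_max_left _ _) (le_max_left _ _)) hN
  have hNc : 4 * ((H : ℝ) + 1) / ε ≤ N :=
    le_trans (Nat.le_ceil _) (Nat.cast_le.2
      (le_trans (le_trans (le_max_right _ _) (le_max_left _ _)) hN))
  have hN1 : 1 ≤ N := le_trans (le_max_right _ _) hN
  have hNr : (0 : ℝ) < N := by exact_mod_cast hN1
  set G := Function.update (Function.update (fun x => slot F D ω (τ x)) a g) b g' with hG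
  have hGb : ∀ x n, ‖G x n‖ ≤ 1 := by
    intro x n
    by_cases hxb : x = b
    · subst hxb
      simp only [hG]
      rw [Function.update_self]
      exact hgb' n
    · by_cases hxa : x = a
      · subst hxa
        simp only [hG]
        rw [Function.update_of_ne hxb, Function.update_self]
        exact hgb n
      · simp only [hG]
        rw [Function.update_of_ne hxb, Function.update_of_ne hxa]
        exact slot_bd hF D hD ω (τ x) n
  set B : ℕ → ℂ := fun n => ∏ x, G x ((n : ℤ) + h x).toNat with hB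
  have hBb : ∀ n, ‖B n‖ ≤ 1 := by
    intro n
    simp only [hB]
    rw [norm_prod]
    exact prod_le_one (fun _ _ => norm_nonneg _) (fun x _ => hGb x _)
  have hsh := shift_sum B hBb H N
  have hsum : ∑ m ∈ range N, B (m + H) = ∑ n ∈ range N, term F P i
      (fun s => (τ s.1).getLeft s.2.2) u ω (if a = b then oneAF else g) g' n := by
    apply sum_congr rfl
    intro m _
    simp only [hB]
    have h1 : ∏ x, G x (((m + H : ℕ) : ℤ) + h x).toNat = ∏ x, G x (m + pos x) :=
      prod_congr rfl (fun x _ => by rw [hshift])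
    rw [h1, hG, prod_eq D k a b j τ i hja hjb hτ pos (hpos1 a) ω g g' m]
    rfl
  have hg1 : (if a = b then oneAF else g : ArithmeticFunction ℂ).IsMultiplicative := by
    split_ifs
    · exact honem
    · exact hg
  have hg1b : ∀ n, ‖(if a = b then oneAF else g : ArithmeticFunction ℂ) n‖ ≤ 1 := by
    intro n
    split_ifs
    · exact honeb n
    · exact hgb n
  have hmain := hN₀ N hNN₀ (if a = b then oneAF else g) g' hg1 hg1b hg' hgb'
  rw [← hsum] at hmain
  have htot : ‖∑ n ∈ Icc 1 N, B n‖ ≤ 2 * (H + 1) + ε / 2 * N := by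
    calc ‖∑ n ∈ Icc 1 N, B n‖ = ‖(∑ n ∈ Icc 1 N, B n - ∑ m ∈ range N, B (m + H))
          + ∑ m ∈ range N, B (m + H)‖ := by rw [sub_add_cancel]
      _ ≤ _ := norm_add_le _ _
      _ ≤ _ := add_le_add hsh hmain
  rw [div_le_iff₀ hε] at hNc
  rw [norm_mul, norm_div, norm_one, Complex.norm_natCast, one_div, inv_mul_le_iff₀ hNr]
  refine le_trans htot ?_
  linarith

end Pool.H2.TA
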