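import Mathlib
import Pool.Agent.H2.TA.FinD

/-!
Module FIN: all choices of data at once (countably many). Done.
-/

set_option autoImplicit false

open Finset MeasureTheory ProbabilityTheory Filter Topology

namespace Pool.H2.TA

open Pool.H2.Rand

variable {Ω : Type} [mΩ : MeasurableSpace Ω] {μ : Measure Ω} {ι : Type}
  {F : ι → Ω → ArithmeticFunction ℂ}

theorem mainT [IsProbabilityMeasure μ] [Countable ι] (hF : RandMult μ F)
    (Pr : ι → Set ℕ) (hPr : ∀ i, Pool.H2.Sp.Thick (Pr i))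
    (hmean : ∀ i, ∀ p ∈ Pr i, p.Prime → ∫ ω, F i ω p ∂μ = 0)
    (D : ℕ → ArithmeticFunction ℂ) (hD : ∀ l n, ‖D l n‖ ≤ 1) :
    ∀ᵐ ω ∂μ, ∀ (k : ℕ) (G : Fin k → ArithmeticFunction ℂ) (a b : Fin k) (h : Fin k → ℤ),
      (∀ x, x ≠ a → x ≠ b → (∃ i, G x = F i ω) ∨ (∃ l, G x = D l)) →
      (∃ j, j ≠ a ∧ j ≠ b ∧ (∃ i, G j = F i ω) ∧ ∀ x, x ≠ j → h x ≠ h j) →
      ∀ ε : ℝ, 0 < ε → ∃ N₀ : ℕ, ∀ N ≥ N₀, ∀ g g' : ArithmeticFunction ℂ,
      g.IsMultiplicative → (∀ n, ‖g n‖ ≤ 1) → g'.IsMultiplicative → (∀ n, ‖g' n‖ ≤ 1) →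
      ‖(1 / (N : ℂ)) * ∑ n ∈ Icc 1 N, ∏ x, (Function.update (Function.update G a g) b g') x
        ((n : ℤ) + h x).toNat‖ ≤ ε := by
  classical
  have hall : ∀ᵐ ω ∂μ, ∀ (k : ℕ) (a b j : Fin k) (h : Fin k → ℤ) (τ : Fin k → ι ⊕ ℕ) (i : ι),
      j ≠ a → j ≠ b → τ j = Sum.inl i → (∀ x, x ≠ j → h x ≠ h j) →
      ∀ ε : ℝ, 0 < ε → ∃ N₀ : ℕ, ∀ N ≥ N₀, ∀ g g' : ArithmeticFunction ℂ,
      g.IsMultiplicative → (∀ n, ‖g n‖ ≤ 1) → g'.IsMultiplicative → (∀ n, ‖g' n‖ ≤ 1) →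
      ‖(1 / (N : ℂ)) * ∑ n ∈ Icc 1 N, ∏ x, (Function.update (Function.update
        (fun x => slot F D ω (τ x)) a g) b g') x ((n : ℤ) + h x).toNat‖ ≤ ε := by
    have hstep : ∀ (k : ℕ) (a b j : Fin k) (h : Fin k → ℤ) (τ : Fin k → ι ⊕ ℕ) (i : ι),
      ∀ᵐ ω ∂μ, j ≠ a → j ≠ b → τ j = Sum.inl i → (∀ x, x ≠ j → h x ≠ h j) →
      ∀ ε : ℝ, 0 < ε → ∃ N₀ : ℕ, ∀ N ≥ N₀, ∀ g g' : ArithmeticFunction ℂ,
      g.IsMultiplicative → (∀ n, ‖g n‖ ≤ 1) → g'.IsMultiplicative → (∀ n, ‖g' n‖ ≤ 1) →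
      ‖(1 / (N : ℂ)) * ∑ n ∈ Icc 1 N, ∏ x, (Function.update (Function.update
        (fun x => slot F D ω (τ x)) a g) b g') x ((n : ℤ) + h x).toNat‖ ≤ ε := by
      intro k a b j h τ i
      by_cases hc : j ≠ a ∧ j ≠ b ∧ τ j = Sum.inl i ∧ (∀ x, x ≠ j → h x ≠ h j)
      · filter_upwards [one_data hF (Pr i) (hPr i) i (hmean i) D hD k a b j h τ hc.1 hc.2.1
          hc.2.2.1 hc.2.2.2] with ω hω
        intro _ _ _ _
        exact hω
      · filter_upwards with ω h1 h2 h3 h4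
        exact absurd ⟨h1, h2, h3, h4⟩ hc
    simp only [ae_all_iff]
    intro k a b j h τ i
    have := hstep k a b j h τ i
    simpa only [ae_all_iff] using this
  filter_upwards [hall] with ω hω
  intro k G a b h hG hj
  obtain ⟨j, hja, hjb, ⟨i, hi⟩, hh⟩ := hj
  have hchoose : ∀ x : Fin k, ∃ y : ι ⊕ ℕ, (x ≠ a → x ≠ b → G x = slot F D ω y) ∧
      (x = j → y = Sum.inl i) := by
    intro x
    by_cases h0 : x = j
    · exact ⟨Sum.inl i, fun _ _ => by rw [h0, hi]; rfl, fun _ => rfl⟩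
    · by_cases h1 : x = a
      · exact ⟨Sum.inl i, fun h2 => absurd h1 h2, fun _ => rfl⟩
      · by_cases h2 : x = b
        · exact ⟨Sum.inl i, fun _ h3 => absurd h2 h3, fun _ => rfl⟩
        · rcases hG x h1 h2 with ⟨i', hi'⟩ | ⟨l, hl⟩
          · exact ⟨Sum.inl i', fun _ _ => hi', fun h3 => absurd h3 h0⟩
          · exact ⟨Sum.inr l, fun _ _ => hl, fun h3 => absurd h3 h0⟩
  choose τ hτ1 hτ2 using hchoose
  intro ε hε
  obtain ⟨N₀, hN₀⟩ := hω k a b j h τ i hja hjb (hτ2 j rfl) hh ε hε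
  refine ⟨N₀, fun N hN g g' hg hgb hg' hgb' => ?_⟩
  have heq : Function.update (Function.update G a g) b g'
      = Function.update (Function.update (fun x => slot F D ω (τ x)) a g) b g' := by
    funext x
    by_cases hb : x = b
    · subst hb; simp
    · by_cases ha : x = a
      · subst ha; simp [Function.update_of_ne hb]
      · rw [Function.update_of_ne hb, Function.update_of_ne ha, Function.update_of_ne hb,
          Function.update_of_ne ha, hτ1 x ha hb]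
  rw [heq]
  exact hN₀ N hN g g' hg hgb hg' hgb'

end Pool.H2.TA
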