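import Mathlib
import Pool.Agent.H2.TA.Fin

set_option autoImplicit false

open Filter Topology MeasureTheory ProbabilityTheory

namespace Pool.H2.TA.ResultDraft

open Classical in
/-- `P` is thick: the sum of `1/p` over the primes `p ∈ P` with `log N < p ≤ N` tends to infinity
as `N → ∞`. -/
def Thick (P : Set ℕ) : Prop :=
  Tendsto (fun N : ℕ => ∑ p ∈ (Finset.Icc 1 N).filter
    (fun p => p.Prime ∧ p ∈ P ∧ Real.log N < p), (1 : ℝ) / p) atTop atTop

/-- Elliott's conjecture with a random factor and two arbitrary factors, at all scales.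
`F i` (`i ∈ ι`, `ι` countable) are random 1-bounded multiplicative functions on a probability space such
that the data `(F i (p^m))_{i, m}` at the different primes `p` are independent and `F i p` has mean zero
for the primes `p` of a thick set `P i`; `D l` (`l ∈ ℕ`) are fixed 1-bounded functions. For `ω` outside one
null set: let `G` be a tuple whose entries `G x`, `x ≠ a, b`, are some `F i ω` or some `D l`, and let at
least one of these entries be an `F i ω` whose shift differs from all other shifts. Then for every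
`ε > 0` there is `N₀` such that for all `N ≥ N₀` and all 1-bounded multiplicative `g, g'`, put in the
places `a` and `b`, the correlation up to `N` is at most `ε` in absolute value. -/
theorem result {Ω : Type} [MeasurableSpace Ω] (μ : Measure Ω) [IsProbabilityMeasure μ]
    {ι : Type} [Countable ι] (F : ι → Ω → ArithmeticFunction ℂ)
    (hmul : ∀ i ω, (F i ω).IsMultiplicative) (hbd : ∀ i ω n, ‖F i ω n‖ ≤ 1)
    (hmeas : ∀ i n, Measurable (fun ω => F i ω n))
    (hind : iIndepFun (fun (p : Nat.Primes) (ω : Ω) (x : ι × ℕ) => F x.1 ω ((p : ℕ) ^ x.2)) μ)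
    (P : ι → Set ℕ) (hP : ∀ i, Thick (P i))
    (hmean : ∀ i, ∀ p ∈ P i, p.Prime → ∫ ω, F i ω p ∂μ = 0)
    (D : ℕ → ArithmeticFunction ℂ) (hD : ∀ l n, ‖D l n‖ ≤ 1) :
    ∀ᵐ ω ∂μ, ∀ (k : ℕ) (G : Fin k → ArithmeticFunction ℂ) (a b : Fin k) (h : Fin k → ℤ),
      (∀ x, x ≠ a → x ≠ b → (∃ i, G x = F i ω) ∨ (∃ l, G x = D l)) →
      (∃ j, j ≠ a ∧ j ≠ b ∧ (∃ i, G j = F i ω) ∧ ∀ x, x ≠ j → h x ≠ h j) →
      ∀ ε : ℝ, 0 < ε → ∃ N₀ : ℕ, ∀ N ≥ N₀, ∀ g g' : ArithmeticFunction ℂ,
        g.IsMultiplicative → (∀ n, ‖g n‖ ≤ 1) → g'.IsMultiplicative → (∀ n, ‖g' n‖ ≤ 1) →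
        ‖(1 / (N : ℂ)) * ∑ n ∈ Finset.Icc 1 N,
          ∏ x, (Function.update (Function.update G a g) b g') x ((n : ℤ) + h x).toNat‖ ≤ ε :=
  Pool.H2.TA.mainT ⟨hmul, hbd, hmeas, hind⟩ P hP hmean D hD

end Pool.H2.TA.ResultDraft
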